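import Mathlib

namespace Pool.Agent.MP_2877d0_al

open Finset

theorem log_le_of (yn yd M Q : ℕ) (h1 : 0 < yn) (h2 : 0 < yd) (h3 : 0 < Q)
    (h : Nat.ble (yn * Q ^ 4096) (yd * M ^ 4096) = true) :
    Real.log ((yn : ℝ) / yd) ≤ 4096 * ((M : ℝ) / Q - 1) := by
  have hy' : (0 : ℝ) < (yn : ℝ) / yd := by positivity
  have h' : (yn : ℝ) * Q ^ 4096 ≤ yd * M ^ 4096 := by exact_mod_cast Nat.le_of_ble_eq_true h
  rw [Real.log_le_iff_le_exp hy']
  have e : Real.exp (4096 * ((M : ℝ) / Q - 1)) = Real.exp ((M : ℝ) / Q - 1) ^ 4096 := by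
    rw [← Real.exp_nat_mul]; congr 1
  rw [e]
  refine le_trans ?_ (pow_le_pow_left₀ (a := (M : ℝ) / Q) (by positivity)
    (by linarith [Real.add_one_le_exp ((M : ℝ) / Q - 1)]) _)
  rw [div_pow, div_le_div_iff₀ (by positivity) (by positivity), mul_comm ((M : ℝ) ^ 4096)]
  exact h'

theorem log_tangent {y0 l y : ℝ} (h0 : 0 < y0) (hl : Real.log y0 ≤ l) (hy : 0 < y) :
    Real.log y ≤ l + y / y0 - 1 := by
  have h1 := Real.log_le_sub_one_of_pos (div_pos hy h0)
  rw [Real.log_div hy.ne' h0.ne'] at h1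
  linarith

theorem concave_nonneg {α β lo hi p : ℝ} (h1 : lo ≤ p) (h2 : p ≤ hi)
    (h3 : 0 ≤ α + β * lo - lo ^ 2) (h4 : 0 ≤ α + β * hi - hi ^ 2) : 0 ≤ α + β * p - p ^ 2 := by
  by_cases h : 0 ≤ β - lo - p
  · nlinarith [mul_nonneg (sub_nonneg.mpr h1) h]
  · have h' : 0 ≤ hi + p - β := by linarith
    nlinarith [mul_nonneg (sub_nonneg.mpr h2) h']

theorem lg1 : Real.log (4403 / 500) ≤ 2176013 / 1000000 := by
  have := log_le_of 4403 500 4098176013 4096000000 (by norm_num) (by norm_num) (by norm_num)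
    (by decide +kernel)
  push_cast at this
  linarith
theorem lg2 : Real.log (173 / 200) ≤ -72511 / 500000 := by
  have := log_le_of 173 200 2047927489 2048000000 (by norm_num) (by norm_num) (by norm_num)
    (by decide +kernel)
  push_cast at this
  linarith
theorem lg3 : Real.log (79 / 100) ≤ -117857 / 500000 := by
  have := log_le_of 79 100 2047882143 2048000000 (by norm_num) (by norm_num) (by norm_num)
    (by decide +kernel)
  push_cast at this
  linarith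
theorem lg4 : Real.log (91 / 100) ≤ -23577 / 250000 := by
  have := log_le_of 91 100 1023976423 1024000000 (by norm_num) (by norm_num) (by norm_num)
    (by decide +kernel)
  push_cast at this
  linarith
theorem lg5 : Real.log (47 / 20) ≤ 427253 / 500000 := by
  have := log_le_of 47 20 2048427253 2048000000 (by norm_num) (by norm_num) (by norm_num)
    (by decide +kernel)
  push_cast at this
  linarith
theorem lg6 : Real.log (44 / 5) ≤ 2175331 / 1000000 := by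
  have := log_le_of 44 5 4098175331 4096000000 (by norm_num) (by norm_num) (by norm_num)
    (by decide +kernel)
  push_cast at this
  linarith

theorem pointwise {p : ℝ} (h0 : 0 < p) (h1 : p ≤ 4043 / 10000) :
    p ^ 2 ≤ -23711 / 1000000 + 5673 / 10000 * p - 969 / 50000 * Real.log (2178 / 100 * p) := by
  have hy : 0 < 2178 / 100 * p := by positivity
  rcases le_total p (39 / 1000) with a | a
  · have t := log_tangent (by norm_num) lg3 hy
    have := concave_nonneg (α := -23711 / 1000000 - 969 / 50000 * (-117857 / 500000 - 1))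
      (β := 5673 / 10000 - 969 / 50000 * (2178 / 100 / (79 / 100))) h0.le a
      (by norm_num) (by norm_num)
    linarith
  rcases le_total p (81 / 1250) with b | b
  · have t := log_tangent (by norm_num) lg4 hy
    have := concave_nonneg (α := -23711 / 1000000 - 969 / 50000 * (-23577 / 250000 - 1))
      (β := 5673 / 10000 - 969 / 50000 * (2178 / 100 / (91 / 100))) a b
      (by norm_num) (by norm_num)
    linarith
  rcases le_total p (323 / 1000) with c | c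
  · have t := log_tangent (by norm_num) lg5 hy
    have := concave_nonneg (α := -23711 / 1000000 - 969 / 50000 * (427253 / 500000 - 1))
      (β := 5673 / 10000 - 969 / 50000 * (2178 / 100 / (47 / 20))) b c
      (by norm_num) (by norm_num)
    linarith
  · have t := log_tangent (by norm_num) lg6 hy
    have := concave_nonneg (α := -23711 / 1000000 - 969 / 50000 * (2175331 / 1000000 - 1))
      (β := 5673 / 10000 - 969 / 50000 * (2178 / 100 / (44 / 5))) c h1
      (by norm_num) (by norm_num)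
    linarith

theorem sumsq_le (p : ℕ → ℝ) (h0 : ∀ i ∈ range 16, 0 < p i) (h1 : ∑ i ∈ range 16, p i ≤ 1)
    (h2 : 1 ≤ (2178 / 100 : ℝ) ^ 16 * ∏ i ∈ range 16, p i) :
    ∑ i ∈ range 16, p i ^ 2 ≤ 187924 / 1000000 := by
  have hl : 0 ≤ ∑ i ∈ range 16, Real.log (2178 / 100 * p i) := by
    rw [← Real.log_prod (fun i hi => by have := h0 i hi; positivity), prod_mul_distrib,
      prod_const, card_range]
    exact Real.log_nonneg h2
  have hc : ∀ i ∈ range 16, p i ≤ 4043 / 10000 := by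
    intro i hi
    rw [← add_sum_erase _ _ hi] at hl h1
    have t1 := log_tangent (by norm_num) lg1 (show 0 < 2178 / 100 * p i by
      have := h0 i hi; positivity)
    have t2 : ∑ k ∈ (range 16).erase i, Real.log (2178 / 100 * p k) ≤
        ∑ k ∈ (range 16).erase i, ((-72511 / 500000 - 1) + 2178 / 100 / (173 / 200) * p k) :=
      sum_le_sum fun k hk => by
        have := log_tangent (by norm_num) lg2 (show 0 < 2178 / 100 * p k by
          have := h0 k (mem_of_mem_erase hk); positivity)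
        linarith
    rw [sum_add_distrib, sum_const, card_erase_of_mem hi, card_range, ← mul_sum] at t2
    simp only [nsmul_eq_mul] at t2
    norm_num at t2
    linarith
  have t : ∑ i ∈ range 16, p i ^ 2 ≤ ∑ i ∈ range 16, (-23711 / 1000000 + 5673 / 10000 * p i -
      969 / 50000 * Real.log (2178 / 100 * p i)) :=
    sum_le_sum fun i hi => pointwise (h0 i hi) (hc i hi)
  rw [sum_sub_distrib, sum_add_distrib, sum_const, card_range, ← mul_sum, ← mul_sum] at t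
  simp only [nsmul_eq_mul] at t
  norm_num at t
  linarith

theorem amin_bound {n : ℕ} (a ζ : ℕ → ℝ) (Z : ℝ) (hZ : 0 < Z) (ha : ∀ i ∈ range n, 0 < a i)
    (hs : ∑ i ∈ range n, a i = 1)
    (hb : ∑ i ∈ range n, ζ i ^ 2 / a i ≤ Z ^ 2) (i : ℕ) (hi : i ∈ range n) (m : ℝ) (hm0 : 0 < m)
    (hm : m ≤ ζ i)
    (hc : (Z - m) * (m * Z - ζ i ^ 2) < m * (∑ k ∈ range n, ζ k - ζ i) ^ 2) : m ≤ Z * a i := by
  by_contra hcon
  push Not at hcon
  have hai := ha i hi
  have cs : (∑ k ∈ (range n).erase i, ζ k) ^ 2 ≤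
      (∑ k ∈ (range n).erase i, a k) * ∑ k ∈ (range n).erase i, ζ k ^ 2 / a k :=
    sum_sq_le_sum_mul_sum_of_sq_le_mul _ (fun k hk => (ha k (mem_of_mem_erase hk)).le)
      (fun k hk => by have := ha k (mem_of_mem_erase hk); positivity)
      (fun k hk => by have := ha k (mem_of_mem_erase hk); apply le_of_eq; field_simp)
  rw [← add_sum_erase _ _ hi] at hs hb hc
  have e : ζ i + ∑ k ∈ (range n).erase i, ζ k - ζ i = ∑ k ∈ (range n).erase i, ζ k := by ring
  rw [e] at hc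
  obtain ⟨M, hM⟩ : ∃ M, M = (∑ k ∈ (range n).erase i, ζ k) ^ 2 := ⟨_, rfl⟩
  obtain ⟨A, hA⟩ : ∃ A, A = ∑ k ∈ (range n).erase i, a k := ⟨_, rfl⟩
  obtain ⟨B, hB⟩ : ∃ B, B = ∑ k ∈ (range n).erase i, ζ k ^ 2 / a k := ⟨_, rfl⟩
  have hA0 : 0 ≤ A := hA ▸ sum_nonneg fun k hk => (ha k (mem_of_mem_erase hk)).le
  rw [← hM, ← hA, ← hB] at cs
  rw [← hA] at hs
  rw [← hB] at hb
  rw [← hM] at hc
  obtain ⟨y, hy⟩ : ∃ y, y = Z * a i := ⟨_, rfl⟩
  have hy0 : 0 < y := hy ▸ mul_pos hZ hai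
  rw [← hy] at hcon
  have h1 : M ≤ (1 - a i) * (Z ^ 2 - ζ i ^ 2 / a i) := by
    have : A = 1 - a i := by linarith
    rw [← this]
    exact cs.trans (mul_le_mul_of_nonneg_left (by linarith) hA0)
  have h2 : (1 - a i) * (Z ^ 2 - ζ i ^ 2 / a i) * y = (Z - y) * (y * Z - ζ i ^ 2) * Z / Z := by
    rw [hy]; field_simp
  have h2' : (1 - a i) * (Z ^ 2 - ζ i ^ 2 / a i) * y = (Z - y) * (y * Z - ζ i ^ 2) := by
    rw [h2]; field_simp
  have h3 : M * y ≤ (Z - y) * (y * Z - ζ i ^ 2) := by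
    rw [← h2']; exact mul_le_mul_of_nonneg_right h1 hy0.le
  have h4 : y * m ≤ ζ i ^ 2 := by nlinarith
  have h5 : (Z - y) * (y * Z - ζ i ^ 2) * m ≤ (Z - m) * (m * Z - ζ i ^ 2) * y := by
    have : (Z - m) * (m * Z - ζ i ^ 2) * y - (Z - y) * (y * Z - ζ i ^ 2) * m =
        Z * ((m - y) * (ζ i ^ 2 - y * m)) := by ring
    have h6 : 0 ≤ Z * ((m - y) * (ζ i ^ 2 - y * m)) :=
      mul_nonneg hZ.le (mul_nonneg (by linarith) (by linarith))
    linarith
  have h6 : M * y * m ≤ (Z - y) * (y * Z - ζ i ^ 2) * m := mul_le_mul_of_nonneg_right h3 hm0.le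
  have h7 : (Z - m) * (m * Z - ζ i ^ 2) * y < m * M * y := mul_lt_mul_of_pos_right hc hy0
  nlinarith

theorem cs_bound {n : ℕ} (a ζ v γ σ : ℕ → ℝ) (Z P K R Θ : ℝ) (ha : ∀ i ∈ range n, 0 < a i)
    (hs : ∑ i ∈ range n, a i = 1) (hb : ∑ i ∈ range n, ζ i ^ 2 / a i ≤ Z ^ 2)
    (hv : ∑ i ∈ range n, a i * v i ^ 2 ≤ K) (hK : 0 < K) (hΘ0 : 0 < Θ)
    (hg : ∀ i ∈ range n, γ i ^ 2 + σ i ^ 2 ≤ P ^ 2) (hΘ : P ^ 2 * Z ^ 2 * (K + R ^ 2) ≤ Θ ^ 2) :
    ∑ i ∈ range n, ζ i * (γ i * v i + σ i * R) ≤ Θ := by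
  obtain ⟨κ, hκ⟩ : ∃ κ, κ = Θ / (K + R ^ 2) := ⟨_, rfl⟩
  have hKR : 0 < K + R ^ 2 := by positivity
  have hκ0 : 0 < κ := hκ ▸ div_pos hΘ0 hKR
  have h1 : ∑ i ∈ range n, ζ i * (γ i * v i + σ i * R) ≤ ∑ i ∈ range n,
      (κ / 2 * (a i * v i ^ 2) + κ / 2 * R ^ 2 * a i + P ^ 2 / (2 * κ) * (ζ i ^ 2 / a i)) := by
    refine sum_le_sum fun i hi => ?_
    have hai := ha i hi
    have t1 : (γ i ^ 2 + σ i ^ 2) / (2 * κ) * (ζ i ^ 2 / a i) ≤
        P ^ 2 / (2 * κ) * (ζ i ^ 2 / a i) := by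
      have := hg i hi
      gcongr
    have t2 : κ / 2 * (a i * v i ^ 2) + κ / 2 * R ^ 2 * a i +
        (γ i ^ 2 + σ i ^ 2) / (2 * κ) * (ζ i ^ 2 / a i) - ζ i * (γ i * v i + σ i * R) =
        ((κ * a i * v i - ζ i * γ i) ^ 2 + (κ * a i * R - ζ i * σ i) ^ 2) / (2 * κ * a i) := by
      field_simp; ring
    have t3 : 0 ≤ ((κ * a i * v i - ζ i * γ i) ^ 2 + (κ * a i * R - ζ i * σ i) ^ 2) /
        (2 * κ * a i) := by positivity
    linarith
  rw [sum_add_distrib, sum_add_distrib, ← mul_sum, ← mul_sum, ← mul_sum, hs] at h1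
  have h2 : κ / 2 * ∑ i ∈ range n, a i * v i ^ 2 ≤ κ / 2 * K := by gcongr
  have h3 : P ^ 2 / (2 * κ) * ∑ i ∈ range n, ζ i ^ 2 / a i ≤ P ^ 2 / (2 * κ) * Z ^ 2 := by gcongr
  have h4 : κ / 2 * K + κ / 2 * R ^ 2 * 1 = Θ / 2 := by rw [hκ]; field_simp
  have h5 : P ^ 2 / (2 * κ) * Z ^ 2 ≤ Θ / 2 := by
    have : P ^ 2 / (2 * κ) * Z ^ 2 = P ^ 2 * Z ^ 2 * (K + R ^ 2) / (2 * Θ) := by
      rw [hκ]; field_simp
    rw [this, div_le_iff₀ (by positivity)]
    nlinarith
  linarith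

theorem c2_bound {n : ℕ} (a ζ d N A' B' : ℕ → ℝ) (Z K Dn μ1 μ2 μ3 ν : ℝ) (hZ : 0 < Z)
    (ha : ∀ i ∈ range n, 0 < a i) (hs : ∑ i ∈ range n, a i = 1)
    (hb : ∑ i ∈ range n, ζ i ^ 2 / a i ≤ Z ^ 2)
    (hv : ∑ i ∈ range n, a i * d i ^ 2 - (∑ i ∈ range n, a i * d i) ^ 2 ≤ K)
    (hp : 1 ≤ Dn * ∏ i ∈ range n, a i) (hN : ∀ i ∈ range n, 0 < N i)
    (h2 : 0 ≤ μ2) (h3 : 0 ≤ μ3) (hν : 0 ≤ ν)
    (hA : ∀ i ∈ range n, 0 ≤ A' i ∧ 0 ≤ B' i ∧ A' i ≤ μ1 * N i ∧ B' i * N i ≤ μ2 * ζ i ^ 2 ∧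
      B' i = A' i + (μ3 * (N i * ((∑ j ∈ range n, N j) * d i ^ 2 -
        2 * d i * (∑ j ∈ range n, N j * d j) + ∑ j ∈ range n, N j * d j ^ 2)) - ν)) :
    (∑ i ∈ range n, (A' i + B' i) + μ3 * ((∑ j ∈ range n, N j) * (∑ j ∈ range n, N j * d j ^ 2) -
      (∑ j ∈ range n, N j * d j) ^ 2) + ν) * Z ^ n - ν * (Dn * ∏ i ∈ range n, N i) ≤
      (μ1 * Z + μ2 * Z + μ3 * Z ^ 2 * K) * Z ^ n := by
  obtain ⟨s, hse⟩ : ∃ s : ℕ → ℝ, s = fun i => Real.log (Z * a i / N i) := ⟨_, rfl⟩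
  have hy : ∀ i ∈ range n, Z * a i = N i * Real.exp (s i) := by
    intro i hi
    have := ha i hi
    have := hN i hi
    rw [hse, Real.exp_log (by positivity)]; field_simp
  obtain ⟨G, hG⟩ : ∃ G : ℕ → ℝ, G = fun i => N i * ((∑ j ∈ range n, N j) * d i ^ 2 -
        2 * d i * (∑ j ∈ range n, N j * d j) + ∑ j ∈ range n, N j * d j ^ 2) := ⟨_, rfl⟩
  obtain ⟨C, hC⟩ : ∃ C, C = (∑ j ∈ range n, N j) * (∑ j ∈ range n, N j * d j ^ 2) -
      (∑ j ∈ range n, N j * d j) ^ 2 := ⟨_, rfl⟩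
  rw [← hC]
  have q1 : ∑ i ∈ range n, (A' i + B' i) + ∑ i ∈ range n, (ν - μ3 * G i) * s i ≤
      μ1 * Z + μ2 * Z := by
    have t : ∑ i ∈ range n, (A' i + B' i + (ν - μ3 * G i) * s i) ≤
        ∑ i ∈ range n, (μ1 * Z * a i + μ2 / Z * (ζ i ^ 2 / a i)) := by
      refine sum_le_sum fun i hi => ?_
      obtain ⟨a1, a2, a3, a4, a5⟩ := hA i hi
      have e : ν - μ3 * G i = A' i - B' i := by rw [a5, hG]; ring
      have hai := ha i hi
      have hNi := hN i hi
      have e1 := Real.add_one_le_exp (s i)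
      have e2 := Real.add_one_le_exp (-s i)
      have e3 : A' i * Real.exp (s i) ≤ μ1 * Z * a i := by
        rw [mul_assoc, hy i hi, ← mul_assoc]
        exact mul_le_mul_of_nonneg_right a3 (Real.exp_pos _).le
      have e4 : B' i * Real.exp (-s i) ≤ μ2 / Z * (ζ i ^ 2 / a i) := by
        have : μ2 / Z * (ζ i ^ 2 / a i) = μ2 * ζ i ^ 2 / N i * Real.exp (-s i) := by
          have : μ2 / Z * (ζ i ^ 2 / a i) = μ2 * ζ i ^ 2 / (Z * a i) := by field_simp
          rw [this, hy i hi, Real.exp_neg]; field_simp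
        rw [this]
        exact mul_le_mul_of_nonneg_right ((le_div_iff₀ hNi).mpr a4) (Real.exp_pos _).le
      rw [e]
      nlinarith [mul_le_mul_of_nonneg_left e1 a1, mul_le_mul_of_nonneg_left e2 a2]
    rw [sum_add_distrib, sum_add_distrib (f := fun i => μ1 * Z * a i), ← mul_sum, ← mul_sum,
      hs] at t
    have t2 : μ2 / Z * ∑ i ∈ range n, ζ i ^ 2 / a i ≤ μ2 / Z * Z ^ 2 := by gcongr
    have t3 : μ2 / Z * Z ^ 2 = μ2 * Z := by field_simp
    linarith
  have lag : ∀ y : ℕ → ℝ, 2 * ((∑ j ∈ range n, y j) * (∑ j ∈ range n, y j * d j ^ 2) -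
      (∑ j ∈ range n, y j * d j) ^ 2) =
      ∑ i ∈ range n, ∑ j ∈ range n, y i * y j * (d i - d j) ^ 2 := by
    intro y
    have e1 : (∑ j ∈ range n, y j) * (∑ j ∈ range n, y j * d j ^ 2) =
        ∑ i ∈ range n, ∑ j ∈ range n, y i * (y j * d j ^ 2) := sum_mul_sum _ _ _ _
    have e2 : (∑ j ∈ range n, y j) * (∑ j ∈ range n, y j * d j ^ 2) =
        ∑ i ∈ range n, ∑ j ∈ range n, y i * d i ^ 2 * y j := by
      rw [mul_comm]; exact sum_mul_sum _ _ _ _
    have e3 : (∑ j ∈ range n, y j * d j) ^ 2 =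
        ∑ i ∈ range n, ∑ j ∈ range n, y i * d i * (y j * d j) := by
      rw [sq]; exact sum_mul_sum _ _ _ _
    have e4 : ∑ i ∈ range n, ∑ j ∈ range n, y i * y j * (d i - d j) ^ 2 =
        ∑ i ∈ range n, ∑ j ∈ range n, y i * (y j * d j ^ 2) +
        ∑ i ∈ range n, ∑ j ∈ range n, y i * d i ^ 2 * y j -
        2 * ∑ i ∈ range n, ∑ j ∈ range n, y i * d i * (y j * d j) := by
      simp only [mul_sum, ← sum_add_distrib, ← sum_sub_distrib]
      exact sum_congr rfl fun i _ => sum_congr rfl fun j _ => by ring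
    rw [e4, ← e1, ← e2, ← e3]; ring
  have q2 : C + ∑ i ∈ range n, G i * s i ≤ Z ^ 2 * K := by
    have t1 := lag (fun i => Z * a i)
    have t2 := lag N
    have t3 : ∑ i ∈ range n, ∑ j ∈ range n, N i * N j * (d i - d j) ^ 2 * (1 + s i + s j) ≤
        ∑ i ∈ range n, ∑ j ∈ range n, Z * a i * (Z * a j) * (d i - d j) ^ 2 := by
      refine sum_le_sum fun i hi => sum_le_sum fun j hj => ?_
      have := hN i hi
      have := hN j hj
      have e := Real.add_one_le_exp (s i + s j)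
      rw [hy i hi, hy j hj]
      calc _ ≤ N i * N j * (d i - d j) ^ 2 * Real.exp (s i + s j) :=
            mul_le_mul_of_nonneg_left (by linarith) (by positivity)
        _ = _ := by rw [Real.exp_add]; ring
    have gi : ∀ i, G i = ∑ j ∈ range n, N i * N j * (d i - d j) ^ 2 := by
      intro i
      rw [hG]
      simp only [sum_mul, mul_sum, ← sum_add_distrib, ← sum_sub_distrib]
      exact sum_congr rfl fun j _ => by ring
    have t4 : ∑ i ∈ range n, ∑ j ∈ range n, N i * N j * (d i - d j) ^ 2 * (1 + s i + s j) =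
        ∑ i ∈ range n, ∑ j ∈ range n, N i * N j * (d i - d j) ^ 2 +
          2 * ∑ i ∈ range n, G i * s i := by
      have u1 : ∑ i ∈ range n, G i * s i =
          ∑ i ∈ range n, ∑ j ∈ range n, N i * N j * (d i - d j) ^ 2 * s i :=
        sum_congr rfl fun i _ => by rw [gi, sum_mul]
      have u2 : ∑ i ∈ range n, G i * s i =
          ∑ i ∈ range n, ∑ j ∈ range n, N i * N j * (d i - d j) ^ 2 * s j := by
        rw [u1, sum_comm]
        exact sum_congr rfl fun i _ => sum_congr rfl fun j _ => by ring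
      rw [two_mul]
      nth_rewrite 1 [u1]
      rw [u2]
      simp only [← sum_add_distrib]
      exact sum_congr rfl fun i _ => sum_congr rfl fun j _ => by ring
    have t5 : (∑ j ∈ range n, Z * a j) * (∑ j ∈ range n, Z * a j * d j ^ 2) -
        (∑ j ∈ range n, Z * a j * d j) ^ 2 =
        Z ^ 2 * (∑ i ∈ range n, a i * d i ^ 2 - (∑ i ∈ range n, a i * d i) ^ 2) := by
      simp only [mul_assoc, ← mul_sum, hs]; ring
    have t6 : Z ^ 2 * (∑ i ∈ range n, a i * d i ^ 2 - (∑ i ∈ range n, a i * d i) ^ 2) ≤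
        Z ^ 2 * K := by gcongr
    rw [← hC] at t2
    linarith
  have q3 : Z ^ n - Dn * ∏ i ∈ range n, N i ≤ (∑ i ∈ range n, s i) * Z ^ n := by
    have hPN : 0 < ∏ i ∈ range n, N i := prod_pos hN
    have hPa : 0 < ∏ i ∈ range n, a i := prod_pos ha
    have e1 : Z ^ n * ∏ i ∈ range n, a i = (∏ i ∈ range n, N i) *
        Real.exp (∑ i ∈ range n, s i) := by
      rw [Real.exp_sum, ← prod_mul_distrib, ← prod_congr rfl hy, prod_mul_distrib, prod_const,
        card_range]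
    have e2 := Real.add_one_le_exp (-∑ i ∈ range n, s i)
    have e3 : (∏ i ∈ range n, N i) = Z ^ n * (∏ i ∈ range n, a i) *
        Real.exp (-∑ i ∈ range n, s i) := by
      rw [e1, Real.exp_neg]; field_simp
    have e4 : Z ^ n * Real.exp (-∑ i ∈ range n, s i) ≤ Dn * ∏ i ∈ range n, N i := by
      rw [e3]
      have : 0 < Z ^ n * Real.exp (-∑ i ∈ range n, s i) := by positivity
      nlinarith
    have e5 : 0 < Z ^ n := by positivity
    nlinarith
  have q4 : ∑ i ∈ range n, (ν - μ3 * G i) * s i =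
      ν * ∑ i ∈ range n, s i - μ3 * ∑ i ∈ range n, G i * s i := by
    simp only [mul_sum, ← sum_sub_distrib]
    exact sum_congr rfl fun i _ => by ring
  have q5 := mul_le_mul_of_nonneg_left q2 h3
  have q6 := mul_le_mul_of_nonneg_left q3 hν
  have e5 : 0 < Z ^ n := by positivity
  have q7 : ∑ i ∈ range n, (A' i + B' i) + μ3 * C + ν * ∑ i ∈ range n, s i ≤
      μ1 * Z + μ2 * Z + μ3 * Z ^ 2 * K := by linarith
  have q8 := mul_le_mul_of_nonneg_right q7 e5.le
  nlinarith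

theorem ratio_appr {p q S0 : ℝ} {pt qt A S Eu : ℤ} (hS : 0 ≤ S) (hS0 : 0 < S0)
    (hp : |S0 * p - pt| ≤ Eu) (hq : |S0 * q - qt| ≤ Eu) (hq0 : q ≠ 0)
    (h : |A * qt - S * pt| + (|A| + S) * Eu ≤ |qt| - Eu) : |S * (p / q) - A| ≤ 1 := by
  have h' : |(A : ℝ) * qt - S * pt| + (|(A : ℝ)| + S) * Eu ≤ |(qt : ℝ)| - Eu := by
    exact_mod_cast h
  have hS' : (0 : ℝ) ≤ S := by exact_mod_cast hS
  have e : S * (p / q) - A = (S * (S0 * p - pt) - A * (S0 * q - qt) - (A * qt - S * pt)) /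
      (S0 * q) := by field_simp; ring
  have h1 : |(qt : ℝ)| - Eu ≤ |S0 * q| := by
    have := abs_sub_abs_le_abs_sub (qt : ℝ) (S0 * q)
    rw [abs_sub_comm] at this; linarith
  rw [e, abs_div, div_le_one (abs_pos.mpr (mul_ne_zero hS0.ne' hq0))]
  have t1 : |S * (S0 * p - pt)| ≤ S * Eu := by
    rw [abs_mul, abs_of_nonneg hS']; exact mul_le_mul_of_nonneg_left hp hS'
  have t2 : |A * (S0 * q - qt)| ≤ |(A : ℝ)| * Eu := by
    rw [abs_mul]; exact mul_le_mul_of_nonneg_left hq (abs_nonneg _)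
  have t3 := abs_sub (S * (S0 * p - pt) - A * (S0 * q - qt)) ((A : ℝ) * qt - S * pt)
  have t4 := abs_sub (S * (S0 * p - pt)) (A * (S0 * q - qt))
  linarith

end Pool.Agent.MP_2877d0_al
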