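import Pool.Agent.MP_2877d0_al.Lat

namespace Pool.Agent.MP_2877d0_al

open Finset

theorem ivt_mul (g : ℝ → ℝ) (hg : Continuous g) {lo hi : ℝ} (h : lo ≤ hi)
    (hs : g lo * g hi ≤ 0) : ∃ x, lo ≤ x ∧ x ≤ hi ∧ g x = 0 := by
  rcases mul_nonpos_iff.mp hs with ⟨h1, h2⟩ | ⟨h1, h2⟩
  · obtain ⟨x, hx, hx'⟩ := intermediate_value_Icc' h hg.continuousOn ⟨h2, h1⟩
    exact ⟨x, hx.1, hx.2, hx'⟩
  · obtain ⟨x, hx, hx'⟩ := intermediate_value_Icc h hg.continuousOn ⟨h1, h2⟩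
    exact ⟨x, hx.1, hx.2, hx'⟩

def fl : List ℤ := [-1, 4, 2, -18, 4, 16, -7, -2, 1]
def tl : List ℤ := [2, -4, -10, 7, 9, -7, -1, 1]
def ml : List ℤ := [-3, 8, 5, -15, -2, 8, 0, -1]

def fI (S x : ℤ) : ℤ := ∑ a ∈ range 9, fl.getD a 0 * x ^ a * S ^ (8 - a)

def gI (S : ℤ) (r : List ℤ) (x : ℤ) : ℤ :=
  x ^ 2 - (∑ a ∈ range 8, tl.getD a 0 * r.getD a 0) * x +
    S * ∑ a ∈ range 8, ml.getD a 0 * r.getD a 0

def RowOK (S Ew EB : ℤ) (r : List ℤ) : Prop :=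
  fI S (r.getD 1 0 - 1) * fI S (r.getD 1 0 + 1) ≤ 0 ∧ |r.getD 1 0| + 1 ≤ 3 * S ∧
  (∀ a, a < 8 → |r.getD a 0 * S ^ a - S * r.getD 1 0 ^ a| ≤ S ^ a) ∧
  |r.getD 8 0| + Ew ≤ 8 * S ∧
  ((gI S r (r.getD 8 0 - Ew) ≤ -(6000000 * S) ∧ 6000000 * S ≤ gI S r (r.getD 8 0 + Ew)) ∨
    (6000000 * S ≤ gI S r (r.getD 8 0 - Ew) ∧ gI S r (r.getD 8 0 + Ew) ≤ -(6000000 * S))) ∧
  (∀ a, a < 8 → |r.getD (8 + a) 0 * S - r.getD a 0 * r.getD 8 0| + 5104 * 8 * S +
    |r.getD a 0| * Ew ≤ EB * S) ∧ 0 < S ∧ 0 ≤ Ew ∧ 5104 ≤ EB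

instance (S Ew EB : ℤ) (r : List ℤ) : Decidable (RowOK S Ew EB r) := by
  unfold RowOK; infer_instance

theorem row_exists {S Ew EB : ℤ} {r : List ℤ} (h : RowOK S Ew EB r) :
    ∃ θ ω : ℝ, ∑ a ∈ range 9, (fl.getD a 0 : ℝ) * θ ^ a = 0 ∧
      ω ^ 2 = (∑ a ∈ range 8, (tl.getD a 0 : ℝ) * θ ^ a) * ω -
        ∑ a ∈ range 8, (ml.getD a 0 : ℝ) * θ ^ a ∧
      ∀ j, j < 16 → |S * (θ ^ (j % 8) * ω ^ (j / 8)) - r.getD j 0| ≤ EB := by
  obtain ⟨h1, h2, h3, h4, h5, h6, hS, hE, hEB⟩ := h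
  have hS' : (0 : ℝ) < S := by exact_mod_cast hS
  have hE' : (0 : ℝ) ≤ Ew := by exact_mod_cast hE
  obtain ⟨t0, ht0⟩ : ∃ t0, t0 = r.getD 1 0 := ⟨_, rfl⟩
  obtain ⟨w0, hw0⟩ : ∃ w0, w0 = r.getD 8 0 := ⟨_, rfl⟩
  rw [← ht0] at h1 h2 h3
  rw [← hw0] at h4 h5 h6
  have ef : ∀ x : ℤ, (fI S x : ℝ) =
      S ^ 8 * ∑ a ∈ range 9, (fl.getD a 0 : ℝ) * ((x : ℝ) / S) ^ a := by
    intro x
    unfold fI; push_cast
    rw [mul_sum]
    refine sum_congr rfl fun a ha => ?_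
    have : (S : ℝ) ^ 8 = S ^ (8 - a) * S ^ a := by
      rw [← pow_add]; congr 1; have := mem_range.mp ha; omega
    rw [this, div_pow]; field_simp
  obtain ⟨θ, a1, a2, a3⟩ := ivt_mul (fun x => ∑ a ∈ range 9, (fl.getD a 0 : ℝ) * x ^ a)
    (by fun_prop) (lo := ((t0 - 1 : ℤ) : ℝ) / S) (hi := ((t0 + 1 : ℤ) : ℝ) / S)
    (by push_cast; gcongr; linarith) (by
      have t := (Int.cast_le (R := ℝ)).mpr h1
      rw [Int.cast_mul, ef, ef, Int.cast_zero, mul_mul_mul_comm] at t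
      exact nonpos_of_mul_nonpos_right t (by positivity) |> fun h => h)
  push_cast at a1 a2
  rw [div_le_iff₀ hS'] at a1
  rw [le_div_iff₀ hS'] at a2
  have h2' : |(t0 : ℝ)| + 1 ≤ 3 * S := by exact_mod_cast h2
  have b1 : |θ - t0 / S| ≤ 1 / S := by
    have : θ - t0 / S = (θ * S - t0) / S := by field_simp
    rw [this, abs_div, abs_of_pos hS']
    gcongr
    rw [abs_le]; constructor <;> linarith
  have b2 : |(t0 : ℝ) / S| ≤ 3 := by
    rw [abs_div, abs_of_pos hS', div_le_iff₀ hS']; linarith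
  have b3 : |θ| ≤ 3 := by
    have := abs_le.mp (show |(t0 : ℝ)| ≤ 3 * S - 1 by linarith)
    rw [abs_le]; constructor <;> nlinarith
  have hp : ∀ a, a < 8 → |S * θ ^ a - r.getD a 0| ≤ 5104 := by
    intro a ha
    have c1 := abs_pow_sub_pow_le θ ((t0 : ℝ) / S) a
    have c2 : max |θ| |(t0 : ℝ) / S| ^ (a - 1) ≤ 3 ^ 6 :=
      (pow_le_pow_left₀ (le_max_of_le_left (abs_nonneg _)) (max_le b3 b2) _).trans
        (pow_le_pow_right₀ (by norm_num) (by omega))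
    have c3 : (a : ℝ) ≤ 7 := by exact_mod_cast (show a ≤ 7 by omega)
    have c4 : |θ ^ a - ((t0 : ℝ) / S) ^ a| ≤ 1 / S * 7 * 3 ^ 6 := by
      refine c1.trans ?_
      gcongr
    have c5 : |(r.getD a 0 : ℝ) * S ^ a - S * t0 ^ a| ≤ S ^ a := by exact_mod_cast h3 a ha
    have c6 : |(r.getD a 0 : ℝ) - S * ((t0 : ℝ) / S) ^ a| ≤ 1 := by
      have : (r.getD a 0 : ℝ) - S * ((t0 : ℝ) / S) ^ a =
          ((r.getD a 0 : ℝ) * S ^ a - S * t0 ^ a) / S ^ a := by rw [div_pow]; field_simp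
      rw [this, abs_div, abs_of_pos (pow_pos hS' a), div_le_one (pow_pos hS' a)]
      exact c5
    have c7 : |S * (θ ^ a - ((t0 : ℝ) / S) ^ a)| ≤ 5103 := by
      rw [abs_mul, abs_of_pos hS']
      calc _ ≤ (S : ℝ) * (1 / S * 7 * 3 ^ 6) := by gcongr
        _ = 5103 := by field_simp; norm_num
    have c8 := abs_sub (S * (θ ^ a - ((t0 : ℝ) / S) ^ a))
      ((r.getD a 0 : ℝ) - S * ((t0 : ℝ) / S) ^ a)
    have e : S * (θ ^ a - ((t0 : ℝ) / S) ^ a) - ((r.getD a 0 : ℝ) - S * ((t0 : ℝ) / S) ^ a) =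
        S * θ ^ a - r.getD a 0 := by ring
    rw [e] at c8; linarith
  have lin : ∀ cl : List ℤ, (∀ a, a < 8 → |cl.getD a 0| ≤ 15) →
      |S * ∑ a ∈ range 8, (cl.getD a 0 : ℝ) * θ ^ a -
        ((∑ a ∈ range 8, cl.getD a 0 * r.getD a 0 : ℤ) : ℝ)| ≤ 8 * (15 * 5104) := by
    intro cl hcl
    push_cast
    rw [mul_sum, ← sum_sub_distrib]
    refine (abs_sum_le_sum_abs _ _).trans ?_
    refine (sum_le_card_nsmul _ _ (15 * 5104) fun a ha => ?_).trans (by simp)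
    have e : S * ((cl.getD a 0 : ℝ) * θ ^ a) - cl.getD a 0 * r.getD a 0 =
        cl.getD a 0 * (S * θ ^ a - r.getD a 0) := by ring
    have : |(cl.getD a 0 : ℝ)| ≤ 15 := by exact_mod_cast hcl a (mem_range.mp ha)
    rw [e, abs_mul]
    exact mul_le_mul this (hp a (mem_range.mp ha)) (abs_nonneg _) (by norm_num)
  have l1 := lin tl (by decide)
  have l2 := lin ml (by decide)
  obtain ⟨T, hT⟩ : ∃ T, T = ∑ a ∈ range 8, (tl.getD a 0 : ℝ) * θ ^ a := ⟨_, rfl⟩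
  obtain ⟨M, hM⟩ : ∃ M, M = ∑ a ∈ range 8, (ml.getD a 0 : ℝ) * θ ^ a := ⟨_, rfl⟩
  rw [← hT] at l1
  rw [← hM] at l2
  have h4' : |(w0 : ℝ)| + Ew ≤ 8 * S := by exact_mod_cast h4
  have eg : ∀ x : ℤ, |(x : ℝ)| ≤ 8 * S →
      |S ^ 2 * (((x : ℝ) / S) ^ 2 - T * (x / S) + M) - gI S r x| ≤ 6000000 * S := by
    intro x hx
    have e : S ^ 2 * (((x : ℝ) / S) ^ 2 - T * (x / S) + M) - gI S r x =
        S * (S * M - ((∑ a ∈ range 8, ml.getD a 0 * r.getD a 0 : ℤ) : ℝ)) -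
        x * (S * T - ((∑ a ∈ range 8, tl.getD a 0 * r.getD a 0 : ℤ) : ℝ)) := by
      unfold gI
      rw [Int.cast_add, Int.cast_sub, Int.cast_mul, Int.cast_mul, Int.cast_pow]
      field_simp; ring
    rw [e]
    refine (abs_sub _ _).trans ?_
    rw [abs_mul, abs_mul, abs_of_pos hS']
    have t1 := mul_le_mul_of_nonneg_left l2 hS'.le
    have t2 := mul_le_mul hx l1 (abs_nonneg _) (by positivity)
    linarith
  have hw := abs_le.mp (show |(w0 : ℝ)| ≤ 8 * S - Ew by linarith)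
  have g1 := abs_le.mp (eg (w0 - Ew) (by push_cast; rw [abs_le]; constructor <;> linarith))
  have g2 := abs_le.mp (eg (w0 + Ew) (by push_cast; rw [abs_le]; constructor <;> linarith))
  obtain ⟨ω, d1, d2, d3⟩ := ivt_mul (fun x => S ^ 2 * (x ^ 2 - T * x + M))
    (by fun_prop) (lo := ((w0 - Ew : ℤ) : ℝ) / S) (hi := ((w0 + Ew : ℤ) : ℝ) / S)
    (by push_cast; gcongr; linarith) (by
      rcases h5 with ⟨k1, k2⟩ | ⟨k1, k2⟩
      · have k1' := (Int.cast_le (R := ℝ)).mpr k1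
        have k2' := (Int.cast_le (R := ℝ)).mpr k2
        simp only [Int.cast_neg, Int.cast_mul, Int.cast_ofNat] at k1' k2'
        exact mul_nonpos_of_nonpos_of_nonneg (by linarith [g1.2]) (by linarith [g2.1])
      · have k1' := (Int.cast_le (R := ℝ)).mpr k1
        have k2' := (Int.cast_le (R := ℝ)).mpr k2
        simp only [Int.cast_neg, Int.cast_mul, Int.cast_ofNat] at k1' k2'
        exact mul_nonpos_of_nonneg_of_nonpos (by linarith [g1.1]) (by linarith [g2.2]))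
  push_cast at d1 d2
  rw [div_le_iff₀ hS'] at d1
  rw [le_div_iff₀ hS'] at d2
  have d4 : ω ^ 2 - T * ω + M = 0 := (mul_eq_zero.mp d3).resolve_left (by positivity)
  have d5 : |S * ω - w0| ≤ Ew := by rw [abs_le]; constructor <;> linarith
  have d6 : |S * ω| ≤ 8 * S := by rw [abs_le]; constructor <;> linarith
  refine ⟨θ, ω, a3, by rw [← hT, ← hM]; linarith, fun j hj => ?_⟩
  have hEB' : (5104 : ℝ) ≤ EB := by exact_mod_cast hEB
  rcases lt_or_ge j 8 with hj8 | hj8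
  · rw [Nat.mod_eq_of_lt hj8, Nat.div_eq_of_lt hj8, pow_zero, mul_one]
    exact (hp j hj8).trans hEB'
  · obtain ⟨a, rfl⟩ : ∃ a, j = 8 + a := ⟨j - 8, by omega⟩
    have ha : a < 8 := by omega
    rw [show (8 + a) % 8 = a by omega, show (8 + a) / 8 = 1 by omega, pow_one]
    have c1 : |(r.getD (8 + a) 0 : ℝ) * S - r.getD a 0 * w0| + 5104 * 8 * S +
        |(r.getD a 0 : ℝ)| * Ew ≤ EB * S := by exact_mod_cast h6 a ha
    have e : S * (θ ^ a * ω) - r.getD (8 + a) 0 = ((S * θ ^ a - r.getD a 0) * (S * ω) +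
        r.getD a 0 * (S * ω - w0) - ((r.getD (8 + a) 0 : ℝ) * S - r.getD a 0 * w0)) / S := by
      field_simp; ring
    rw [e, abs_div, abs_of_pos hS', div_le_iff₀ hS']
    have t1 : |(S * θ ^ a - r.getD a 0) * (S * ω)| ≤ 5104 * (8 * S) := by
      rw [abs_mul]; exact mul_le_mul (hp a ha) d6 (abs_nonneg _) (by norm_num)
    have t2 : |r.getD a 0 * (S * ω - w0)| ≤ |(r.getD a 0 : ℝ)| * Ew := by
      rw [abs_mul]; exact mul_le_mul_of_nonneg_left d5 (abs_nonneg _)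
    have t3 := abs_sub ((S * θ ^ a - r.getD a 0) * (S * ω) + r.getD a 0 * (S * ω - w0))
      ((r.getD (8 + a) 0 : ℝ) * S - r.getD a 0 * w0)
    have t4 := abs_add_le ((S * θ ^ a - r.getD a 0) * (S * ω)) (r.getD a 0 * (S * ω - w0))
    linarith

noncomputable def allSub (test : ℕ → ℕ → Bool) (l : List ℕ) : ℕ → ℕ → Bool :=
  List.rec test (fun a _ ih c s => Bool.rec false (ih (Nat.succ c) (Nat.add s a)) (ih c s)) l

theorem allSub_cons (test : ℕ → ℕ → Bool) (a : ℕ) (l : List ℕ) (c s : ℕ) :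
    allSub test (a :: l) c s = true ↔
      allSub test l c s = true ∧ allSub test l (c + 1) (s + a) = true := by
  show (Bool.rec false (allSub test l (c + 1) (s + a)) (allSub test l c s) : Bool) = true ↔ _
  cases allSub test l c s <;> simp

theorem allSub_sound (test : ℕ → ℕ → Bool) (l : List ℕ) : ∀ c s, allSub test l c s = true →
    ∀ p : ℕ → Prop, ∀ [DecidablePred p],
      test (c + ∑ i ∈ range l.length, if p i then 1 else 0)
        (s + ∑ i ∈ range l.length, if p i then l.getD i 0 else 0) = true := by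
  induction l with
  | nil => intro c s h p _; exact h
  | cons a l ih =>
    intro c s h p _
    rw [allSub_cons] at h
    simp only [List.length_cons, sum_range_succ', List.getD_cons_succ, List.getD_cons_zero]
    by_cases h0 : p 0
    · have := ih _ _ h.2 (fun i => p (i + 1))
      rw [if_pos h0, if_pos h0]
      rw [add_assoc, add_assoc] at this
      simpa only [add_comm] using this
    · have := ih _ _ h.1 (fun i => p (i + 1))
      rw [if_neg h0, if_neg h0]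
      exact this

noncomputable def subTest (n S E : ℕ) (c s : ℕ) : Bool :=
  Bool.rec (Bool.rec (Nat.beq c n) true (Nat.beq c 0)) true
    (Nat.blt (Nat.add E E) (Nat.mod (Nat.add s E) S))

theorem subTest_sound {n S E c s : ℕ} (h : subTest n S E c s = true) :
    c = 0 ∨ c = n ∨ E + E < (s + E) % S := by
  unfold subTest at h
  rw [← Nat.blt_eq, ← Nat.beq_eq, ← Nat.beq_eq]
  change (Bool.rec (Bool.rec (Nat.beq c n) true (Nat.beq c 0)) true
    (Nat.blt (E + E) ((s + E) % S)) : Bool) = true at h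
  revert h
  cases Nat.blt (E + E) ((s + E) % S) <;> cases Nat.beq c 0 <;> simp

end Pool.Agent.MP_2877d0_al
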