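import Pool.Agent.MP_2877d0_al.Data0
import Pool.Agent.MP_2877d0_al.Data1
import Pool.Agent.MP_2877d0_al.Row

set_option maxRecDepth 100000

namespace Pool.Agent.MP_2877d0_al

open Finset

theorem ck_rows : ∀ i, i < 16 → RowOK (2 ^ 128) (2 ^ 27) (2 ^ 37) (Bt.getD i []) := by
  decide +kernel

theorem ck_B : ∀ i, i < 16 → ∀ j, j < 16 → |ent Bt i j| ≤ 2 ^ 141 ∧ |ent Ht i j| ≤ 2 ^ 28 := by
  decide +kernel

theorem ck_G : ∀ j, j < 16 → ∀ k, k < 16 →
    |∑ i ∈ range 16, ent Bt i j * ent Bt i k - 2 ^ 256 * ent Gt j k| ≤ 2 ^ 190 := by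
  decide +kernel

theorem ck_H : ∀ j, j < 16 → ∀ k, k < 16 →
    ∑ l ∈ range 16, ent Gt j l * ent Ht l k = if j = k then 780 else 0 := by
  decide +kernel

theorem ck_T : (∀ k, k < 16 → ∀ j, j < 16 → (k < j → ent Tt k j = 0) ∧
    (j < k → ∑ l ∈ range 16, ent Tt k l * ent Gt l j = 0)) ∧
    ∏ k ∈ range 16, ∑ l ∈ range 16, ent Tt k l * ent Gt l k =
      2562271012454400000000 * ∏ k ∈ range 16, ent Tt k k ∧
    ∏ k ∈ range 16, ent Tt k k ≠ 0 := by
  decide +kernel

theorem ck_K : ∀ l, l < 15 → ∀ c, c < 16 →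
    ∑ j ∈ range 15, ent Vt l j * ent Kt j c = ent Ht c (l + 1) ∧ |ent Kt l c| ≤ 2 ^ 16 ∧
    |780 * 2 ^ 64 * ent rows1 l c - ∑ d ∈ range 16, ent Kt l d * ent Bt c d| ≤ 2 ^ 73 := by
  decide +kernel

theorem ck_eta : etaL.length = 16 ∧
    ∀ i, i < 16 → (etaL.getD i 0 : ℤ) = ent Bt i 8 + 8 * 2 ^ 128 := by
  decide +kernel

theorem ck_sub0 : allSub (subTest 16 340282366920938463463374607431768211456 2199023255552)
    (etaL.drop 2) 0 0 = true := by decide +kernel
theorem ck_sub1 : allSub (subTest 16 340282366920938463463374607431768211456 2199023255552)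
    (etaL.drop 2) 1 (0 + etaL.getD 1 0) = true := by decide +kernel
theorem ck_sub2 : allSub (subTest 16 340282366920938463463374607431768211456 2199023255552)
    (etaL.drop 2) 1 (0 + etaL.getD 0 0) = true := by decide +kernel
theorem ck_sub3 : allSub (subTest 16 340282366920938463463374607431768211456 2199023255552)
    (etaL.drop 2) 2 (0 + etaL.getD 0 0 + etaL.getD 1 0) = true := by decide +kernel

theorem ck_sub : allSub (subTest 16 340282366920938463463374607431768211456 2199023255552)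
    etaL 0 0 = true := by
  have e : etaL = etaL.getD 0 0 :: etaL.getD 1 0 :: etaL.drop 2 := by decide +kernel
  rw [e, allSub_cons, allSub_cons, allSub_cons]
  exact ⟨⟨ck_sub0, ck_sub1⟩, ck_sub2, ck_sub3⟩

end Pool.Agent.MP_2877d0_al
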