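import Mathlib

namespace Pool.Agent.MP_2877d0_al

open Finset

noncomputable def loop (k : ℕ → ℕ → Bool) (P D rem : ℕ) (st : ℕ → ℕ) (fuel : ℕ) :
    ℕ → ℕ → Bool :=
  Nat.rec (fun _ _ => false) (fun _ ih t St =>
    (fun q => Bool.rec true (Bool.rec false (ih (Nat.add t P) (st St)) (k St (Nat.sub rem q)))
      (Nat.ble q rem)) (Nat.mul D (Nat.mul t t))) fuel

theorem loop_succ (k : ℕ → ℕ → Bool) (P D rem : ℕ) (st : ℕ → ℕ) (f t St : ℕ) :
    loop k P D rem st (f + 1) t St = true ↔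
      (D * (t * t) ≤ rem → k St (rem - D * (t * t)) = true ∧
        loop k P D rem st f (t + P) (st St) = true) := by
  show (Bool.rec true (Bool.rec false (loop k P D rem st f (t + P) (st St))
    (k St (rem - D * (t * t)))) (Nat.ble (D * (t * t)) rem) : Bool) = true ↔ _
  rw [← Nat.ble_eq]
  cases Nat.ble (D * (t * t)) rem <;> cases k St (rem - D * (t * t)) <;> simp

theorem loop_sound (k : ℕ → ℕ → Bool) (P D rem : ℕ) (st : ℕ → ℕ) (f : ℕ) :
    ∀ t St m, loop k P D rem st f t St = true → D * ((t + m * P) * (t + m * P)) ≤ rem →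
      m < f ∧ k (st^[m] St) (rem - D * ((t + m * P) * (t + m * P))) = true := by
  induction f with
  | zero => intro t St m h; exact absurd h (by simp [loop])
  | succ f ih =>
    intro t St m h hm
    rw [loop_succ] at h
    have h0 : D * (t * t) ≤ rem :=
      le_trans (Nat.mul_le_mul_left _ (Nat.mul_le_mul (by omega) (by omega))) hm
    obtain ⟨h1, h2⟩ := h h0
    cases m with
    | zero => exact ⟨Nat.succ_pos _, by simpa using h1⟩
    | succ m =>
      have e : t + (m + 1) * P = t + P + m * P := by ring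
      rw [e] at hm ⊢
      obtain ⟨h3, h4⟩ := ih _ _ m h2 hm
      exact ⟨Nat.succ_lt_succ h3, h4⟩

theorem loop_merge {ι : Type} [Nonempty ι] (k : ι → ℕ → ℕ → Bool) (k' : ℕ → ℕ → Bool)
    (hk : ∀ St rem, (∀ i, k i St rem = true) → k' St rem = true) (P D rem : ℕ) (st : ℕ → ℕ)
    (f : ℕ) : ∀ t St, (∀ i, loop (k i) P D rem st f t St = true) →
      loop k' P D rem st f t St = true := by
  induction f with
  | zero => intro t St h; exact absurd (h (Classical.arbitrary ι)) (by simp [loop])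
  | succ f ih =>
    intro t St h
    simp only [loop_succ] at h ⊢
    intro h0
    exact ⟨hk _ _ fun i => (h i h0).1, ih _ _ fun i => (h i h0).2⟩

noncomputable def node (W P YX X2 X F : ℕ) (k : ℕ → ℕ → Bool) (D sh V St rem : ℕ) : Bool :=
  (fun c => (fun q ρ => Bool.rec false (Bool.rec false
    ((fun S0 => Bool.rec false
      (loop k P D rem (fun s => Nat.sub s V) F (Nat.sub P ρ) (Nat.sub S0 V))
      (loop k P D rem (fun s => Nat.add s V) F ρ S0))
      (Nat.sub (Nat.add St (Nat.mul (Nat.sub YX q) V)) (Nat.mul X V)))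
    (Nat.ble (Nat.sub YX q) X2)) (Nat.ble q YX)) (Nat.div c P) (Nat.mod c P))
    (Nat.mod (Nat.shiftRight St sh) W)

theorem node_iff (W P YX X2 X F : ℕ) (k : ℕ → ℕ → Bool) (D sh V St rem : ℕ) :
    node W P YX X2 X F k D sh V St rem = true ↔
      (St >>> sh % W / P ≤ YX ∧ YX - St >>> sh % W / P ≤ X2 ∧
      loop k P D rem (fun s => s + V) F (St >>> sh % W % P)
        (St + (YX - St >>> sh % W / P) * V - X * V) = true ∧
      loop k P D rem (fun s => s - V) F (P - St >>> sh % W % P)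
        (St + (YX - St >>> sh % W / P) * V - X * V - V) = true) := by
  show (Bool.rec false (Bool.rec false (Bool.rec false
      (loop k P D rem (fun s => s - V) F (P - St >>> sh % W % P)
        (St + (YX - St >>> sh % W / P) * V - X * V - V))
      (loop k P D rem (fun s => s + V) F (St >>> sh % W % P)
        (St + (YX - St >>> sh % W / P) * V - X * V)))
    (Nat.ble (YX - St >>> sh % W / P) X2)) (Nat.ble (St >>> sh % W / P) YX) : Bool) = true ↔ _
  rw [← Nat.ble_eq, ← Nat.ble_eq]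
  cases Nat.ble (St >>> sh % W / P) YX <;> cases Nat.ble (YX - St >>> sh % W / P) X2 <;>
    cases loop k P D rem (fun s => s + V) F (St >>> sh % W % P)
        (St + (YX - St >>> sh % W / P) * V - X * V) <;> simp

noncomputable def go (W P YX X2 X F : ℕ) (leaf : Bool → ℕ → ℕ → Bool)
    (lv : List (ℕ × ℕ × ℕ)) : Bool → ℕ → ℕ → Bool :=
  List.rec leaf (fun l _ ih z St rem =>
    Bool.rec (node W P YX X2 X F (ih false) l.1 l.2.1 l.2.2 St rem)
      (Bool.rec false (loop (ih false) P l.1 rem (fun s => Nat.add s l.2.2) F P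
        (Nat.add St l.2.2)) (ih true St rem)) z) lv

theorem go_false (W P YX X2 X F : ℕ) (leaf : Bool → ℕ → ℕ → Bool) (l : ℕ × ℕ × ℕ)
    (lv : List (ℕ × ℕ × ℕ)) (St rem : ℕ) :
    go W P YX X2 X F leaf (l :: lv) false St rem =
      node W P YX X2 X F (go W P YX X2 X F leaf lv false) l.1 l.2.1 l.2.2 St rem := rfl

theorem go_true (W P YX X2 X F : ℕ) (leaf : Bool → ℕ → ℕ → Bool) (l : ℕ × ℕ × ℕ)
    (lv : List (ℕ × ℕ × ℕ)) (St rem : ℕ) :
    go W P YX X2 X F leaf (l :: lv) true St rem = true ↔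
      (go W P YX X2 X F leaf lv true St rem = true ∧
      loop (go W P YX X2 X F leaf lv false) P l.1 rem (fun s => s + l.2.2) F P
        (St + l.2.2) = true) := by
  show (Bool.rec false (loop (go W P YX X2 X F leaf lv false) P l.1 rem (fun s => s + l.2.2) F P
        (St + l.2.2)) (go W P YX X2 X F leaf lv true St rem) : Bool) = true ↔ _
  cases go W P YX X2 X F leaf lv true St rem <;> simp

theorem go_append (W P YX X2 X F : ℕ) (leaf : Bool → ℕ → ℕ → Bool)
    (l1 l2 : List (ℕ × ℕ × ℕ)) :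
    go W P YX X2 X F leaf (l1 ++ l2) = go W P YX X2 X F (go W P YX X2 X F leaf l2) l1 := by
  induction l1 with
  | nil => rfl
  | cons l l1 ih =>
    exact congrArg (fun g => go W P YX X2 X F g [l]) ih

theorem go_merge {ι : Type} [Nonempty ι] (W P YX X2 X F : ℕ) (k : ι → Bool → ℕ → ℕ → Bool)
    (k' : Bool → ℕ → ℕ → Bool)
    (hk : ∀ z St rem, (∀ i, k i z St rem = true) → k' z St rem = true)
    (lv : List (ℕ × ℕ × ℕ)) : ∀ z St rem, (∀ i, go W P YX X2 X F (k i) lv z St rem = true) →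
      go W P YX X2 X F k' lv z St rem = true := by
  induction lv with
  | nil => exact hk
  | cons l lv ih =>
    intro z St rem h
    cases z with
    | false =>
      simp only [go_false, node_iff] at h ⊢
      obtain ⟨h1, h2, -⟩ := h (Classical.arbitrary ι)
      exact ⟨h1, h2, loop_merge _ _ (ih false) _ _ _ _ _ _ _ fun i => (h i).2.2.1,
        loop_merge _ _ (ih false) _ _ _ _ _ _ _ fun i => (h i).2.2.2⟩
    | true =>
      simp only [go_true] at h ⊢
      exact ⟨ih true _ _ fun i => (h i).1,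
        loop_merge _ _ (ih false) _ _ _ _ _ _ _ fun i => (h i).2⟩

/-- run only the subtrees whose state is `i` modulo `m` -/
noncomputable def filt (m i : ℕ) (k : Bool → ℕ → ℕ → Bool) (z : Bool) (St rem : ℕ) : Bool :=
  Bool.rec true (k z St rem) (Nat.beq (Nat.mod St m) i)

theorem go_split (W P YX X2 X F : ℕ) (leaf : Bool → ℕ → ℕ → Bool)
    (lv : List (ℕ × ℕ × ℕ)) (c m : ℕ) (hm : 0 < m) (z : Bool) (St rem : ℕ)
    (h : ∀ i, i < m → go W P YX X2 X F
      (filt m i (go W P YX X2 X F leaf (lv.drop c))) (lv.take c) z St rem = true) :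
    go W P YX X2 X F leaf lv z St rem = true := by
  have : Nonempty (Fin m) := ⟨⟨0, hm⟩⟩
  rw [← List.take_append_drop c lv, go_append]
  refine go_merge (ι := Fin m) W P YX X2 X F
    (fun i => filt m i (go W P YX X2 X F leaf (lv.drop c))) _ ?_ _ _ _ _ fun i => h i i.2
  intro z St rem h
  have := h ⟨St % m, Nat.mod_lt _ hm⟩
  unfold filt at this
  have e : Nat.beq (Nat.mod St m) (St % m) = true := Nat.beq_refl _
  rw [e] at this
  exact this

theorem digit_eq (W : ℤ) (hW : 0 < W) (i : ℕ) : ∀ (m : ℕ) (s : ℕ → ℤ), i < m →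
    (∀ f, f < m → 0 ≤ s f ∧ s f < W) → (∑ f ∈ range m, s f * W ^ f) / W ^ i % W = s i := by
  induction i with
  | zero =>
    intro m s hm hs
    obtain ⟨m, rfl⟩ : ∃ k, m = k + 1 := ⟨m - 1, by omega⟩
    have e : ∑ f ∈ range (m + 1), s f * W ^ f =
        s 0 + W * ∑ f ∈ range m, s (f + 1) * W ^ f := by
      rw [sum_range_succ', mul_sum, add_comm]
      congr 1
      · simp
      · exact sum_congr rfl fun f _ => by ring
    rw [e, pow_zero, Int.ediv_one, Int.add_mul_emod_self_left]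
    exact Int.emod_eq_of_lt (hs 0 hm).1 (hs 0 hm).2
  | succ i ih =>
    intro m s hm hs
    obtain ⟨m, rfl⟩ : ∃ k, m = k + 1 := ⟨m - 1, by omega⟩
    have e : ∑ f ∈ range (m + 1), s f * W ^ f =
        s 0 + W * ∑ f ∈ range m, s (f + 1) * W ^ f := by
      rw [sum_range_succ', mul_sum, add_comm]
      congr 1
      · simp
      · exact sum_congr rfl fun f _ => by ring
    rw [e, pow_succ', ← Int.ediv_ediv_of_nonneg hW.le,
      Int.add_mul_ediv_left _ _ hW.ne', Int.ediv_eq_zero_of_lt (hs 0 (by omega)).1 (hs 0 (by omega)).2,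
      zero_add]
    exact ih m (fun f => s (f + 1)) (by omega) fun f hf => hs (f + 1) (by omega)

/-- the state `St` has the fields `s`, all within `B` of the bias -/
def Rep (w m : ℕ) (β : ℤ) (St : ℕ) (s : ℕ → ℤ) (B : ℤ) : Prop :=
  (St : ℤ) = ∑ f ∈ range m, s f * (2 ^ w) ^ f ∧ ∀ f, f < m → |s f - β| ≤ B

theorem Rep.digit {w m : ℕ} {β : ℤ} {St : ℕ} {s : ℕ → ℤ} {B : ℤ} (h : Rep w m β St s B)
    (hB : B < β) (hβ : 2 * β ≤ 2 ^ w) {i : ℕ} (hi : i < m) :
    ((St >>> (w * i) % 2 ^ w : ℕ) : ℤ) = s i := by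
  rw [Nat.shiftRight_eq_div_pow, pow_mul]
  push_cast
  rw [h.1]
  refine digit_eq _ (by positivity) i m s hi fun f hf => ?_
  have := abs_le.mp (h.2 f hf)
  constructor <;> linarith [this.1, this.2]

theorem Rep.step {w m : ℕ} {β : ℤ} {St : ℕ} {s : ℕ → ℤ} {B : ℤ} (h : Rep w m β St s B)
    {V : ℕ} {v : ℕ → ℤ} {b : ℤ} (hV : (V : ℤ) = ∑ f ∈ range m, v f * (2 ^ w) ^ f)
    (hv : ∀ f, f < m → |v f| ≤ b) {x Xm : ℤ} (hx : |x| ≤ Xm) (hB : B + Xm * b < β) :
    0 ≤ (St : ℤ) + x * V ∧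
      ∀ S' : ℕ, (S' : ℤ) = St + x * V → Rep w m β S' (fun f => s f + x * v f) (B + Xm * b) := by
  have e : (St : ℤ) + x * V = ∑ f ∈ range m, (s f + x * v f) * (2 ^ w) ^ f := by
    rw [h.1, hV, mul_sum, ← sum_add_distrib]
    exact sum_congr rfl fun f _ => by ring
  have hb : ∀ f, f < m → |s f + x * v f - β| ≤ B + Xm * b := by
    intro f hf
    have h1 := h.2 f hf
    have h2 : |x * v f| ≤ Xm * b := by
      rw [abs_mul]
      exact mul_le_mul hx (hv f hf) (abs_nonneg _) (le_trans (abs_nonneg _) hx)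
    have h3 := abs_add_le (s f - β) (x * v f)
    have e2 : s f + x * v f - β = s f - β + x * v f := by ring
    rw [e2]; linarith
  refine ⟨?_, fun S' hS => ⟨by rw [hS, e], hb⟩⟩
  rw [e]
  refine sum_nonneg fun f hf => mul_nonneg ?_ (by positivity)
  have := abs_le.mp (hb f (mem_range.mp hf))
  linarith [this.1]

def mkLev (lev : ℕ → ℕ × ℕ × ℕ) (a : ℕ) : ℕ → List (ℕ × ℕ × ℕ)
  | 0 => []
  | c + 1 => lev (a + c) :: mkLev lev a c

def qf (D fld : ℕ → ℕ) (v : ℕ → ℕ → ℤ) (P β : ℤ) (x : ℕ → ℤ) (a : ℕ) : ℕ → (ℕ → ℤ) → ℤ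
  | 0, _ => 0
  | c + 1, s => D (a + c) * (P * x (a + c) + (s (fld (a + c)) - β)) ^ 2 +
      qf D fld v P β x a c (fun f => s f + x (a + c) * v (a + c) f)

theorem qf_nonneg (D fld : ℕ → ℕ) (v : ℕ → ℕ → ℤ) (P β : ℤ) (x : ℕ → ℤ) (a c : ℕ) :
    ∀ s, 0 ≤ qf D fld v P β x a c s := by
  induction c with
  | zero => intro s; exact le_rfl
  | succ c ih => intro s; exact add_nonneg (by positivity) (ih _)

def lexNN (x : ℕ → ℤ) (a : ℕ) : ℕ → Prop
  | 0 => True
  | c + 1 => 0 < x (a + c) ∨ (x (a + c) = 0 ∧ lexNN x a c)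

theorem lexNN_or (x : ℕ → ℤ) (a c : ℕ) : lexNN x a c ∨ lexNN (fun j => -x j) a c := by
  induction c with
  | zero => exact Or.inl trivial
  | succ c ih =>
    rcases lt_trichotomy (x (a + c)) 0 with h | h | h
    · exact Or.inr (Or.inl (by simpa using h))
    · rcases ih with ih | ih
      · exact Or.inl (Or.inr ⟨h, ih⟩)
      · exact Or.inr (Or.inr ⟨by simpa using h, ih⟩)
    · exact Or.inl (Or.inl h)

theorem iter_add (V m S : ℕ) : (fun s => s + V)^[m] S = S + m * V := by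
  induction m with
  | zero => simp
  | succ m ih => rw [Function.iterate_succ_apply', ih]; ring

theorem iter_sub (V m S : ℕ) : (fun s => s - V)^[m] S = S - m * V := by
  induction m with
  | zero => simp
  | succ m ih => rw [Function.iterate_succ_apply', ih, Nat.sub_sub, Nat.succ_mul]

theorem node_sound {w m : ℕ} {P Y X F : ℕ} (hP : 0 < P) {St : ℕ} {s : ℕ → ℤ} {B : ℤ}
    (h : Rep w m (Y * P : ℕ) St s B) (hβ : 2 * ((Y * P : ℕ) : ℤ) ≤ 2 ^ w)
    {V : ℕ} {v : ℕ → ℤ} {b : ℤ} (hb : 0 ≤ b)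
    (hV : (V : ℤ) = ∑ f ∈ range m, v f * (2 ^ w) ^ f)
    (hv : ∀ f, f < m → |v f| ≤ b) (hB : B + (X + F : ℕ) * b < (Y * P : ℕ))
    {k : ℕ → ℕ → Bool} {D i rem : ℕ} (hi : i < m)
    (hn : node (2 ^ w) P (Y + X) (2 * X) X F k D (w * i) V St rem = true) (x : ℤ)
    (hq : D * (P * x + (s i - (Y * P : ℕ))) ^ 2 ≤ (rem : ℤ)) :
    |x| ≤ (X + F : ℕ) ∧ ∃ S' r' : ℕ, k S' r' = true ∧ (S' : ℤ) = St + x * V ∧
      (r' : ℤ) = rem - D * (P * x + (s i - (Y * P : ℕ))) ^ 2 := by
  have hXb : (0 : ℤ) ≤ (X + F : ℕ) * b := by positivity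
  have hd := h.digit (by linarith) hβ hi
  rw [node_iff] at hn
  obtain ⟨c, hc⟩ : ∃ c, c = St >>> (w * i) % 2 ^ w := ⟨_, rfl⟩
  rw [← hc] at hn hd
  obtain ⟨h1, h2, h3, h4⟩ := hn
  obtain ⟨q, hq'⟩ : ∃ q, q = c / P := ⟨_, rfl⟩
  obtain ⟨ρ, hρ⟩ : ∃ ρ, ρ = c % P := ⟨_, rfl⟩
  rw [← hq'] at h1 h2 h3 h4
  rw [← hρ] at h3 h4
  have hcq : c = P * q + ρ := by rw [hq', hρ, Nat.div_add_mod]
  have hρP : ρ < P := hρ ▸ Nat.mod_lt _ hP
  have hs : s i = P * q + ρ := by rw [← hd, hcq]; push_cast; ring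
  obtain ⟨u, hu⟩ : ∃ u, u = Y + X - q := ⟨_, rfl⟩
  rw [← hu] at h2 h3 h4
  have huz : (u : ℤ) = Y + X - q := by rw [hu]; push_cast [h1]; ring
  have hx0 : |(u : ℤ) - X| ≤ (X + F : ℕ) := by
    rw [abs_le]; push_cast; constructor <;> omega
  have n0 := (h.step hV hv hx0 hB).1
  have e0 : ((St + u * V - X * V : ℕ) : ℤ) = St + (u - X) * V := by
    rw [Nat.cast_sub (by zify; linarith)]; push_cast; ring
  by_cases hx : (u : ℤ) - X ≤ x
  · obtain ⟨j, hj⟩ := Int.eq_ofNat_of_zero_le (sub_nonneg.mpr hx)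
    have ex : x = u - X + j := by linarith
    have et : (P : ℤ) * x + (s i - (Y * P : ℕ)) = ((ρ + j * P : ℕ) : ℤ) := by
      rw [ex, hs, huz]; push_cast; ring
    rw [et] at hq ⊢
    have hq2 : D * ((ρ + j * P) * (ρ + j * P)) ≤ rem := by
      rw [sq] at hq; exact_mod_cast hq
    obtain ⟨g1, g2⟩ := loop_sound _ _ _ _ _ _ _ _ j h3 hq2
    rw [iter_add] at g2
    refine ⟨?_, _, _, g2, ?_, ?_⟩
    · rw [abs_le]; push_cast; constructor <;> omega
    · rw [Nat.cast_add, e0, ex]; push_cast; ring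
    · rw [Nat.cast_sub hq2]; push_cast; ring
  · obtain ⟨j, hj⟩ := Int.eq_ofNat_of_zero_le (show (0 : ℤ) ≤ u - X - 1 - x by omega)
    have ex : x = u - X - 1 - j := by linarith
    have et : (P : ℤ) * x + (s i - (Y * P : ℕ)) = -((P - ρ + j * P : ℕ) : ℤ) := by
      rw [ex, hs, huz]; push_cast [hρP.le]; ring
    rw [et, neg_sq] at hq ⊢
    have hq2 : D * ((P - ρ + j * P) * (P - ρ + j * P)) ≤ rem := by
      rw [sq] at hq; exact_mod_cast hq
    obtain ⟨g1, g2⟩ := loop_sound _ _ _ _ _ _ _ _ j h4 hq2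
    rw [iter_sub] at g2
    have hxb : |x| ≤ (X + F : ℕ) := by
      rw [abs_le]; push_cast; constructor <;> omega
    have n1 := (h.step hV hv hxb hB).1
    refine ⟨hxb, _, _, g2, ?_, ?_⟩
    · rw [Nat.sub_sub _ V, Nat.cast_sub, e0, ex]
      · push_cast; ring
      · zify; rw [ex] at n1
        rw [e0]; linarith
    · rw [Nat.cast_sub hq2]; push_cast; ring

theorem go_sound {w m : ℕ} {P Y X F : ℕ} (hP : 0 < P) (hβ : 2 * ((Y * P : ℕ) : ℤ) ≤ 2 ^ w)
    {D fld V : ℕ → ℕ} {v : ℕ → ℕ → ℤ} {b : ℤ} (hb : 0 ≤ b) {a : ℕ}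
    {leaf : Bool → ℕ → ℕ → Bool} (x : ℕ → ℤ) (c : ℕ) :
    (∀ j, j < c → fld (a + j) < m ∧
      (V (a + j) : ℤ) = ∑ f ∈ range m, v (a + j) f * (2 ^ w) ^ f ∧
      ∀ f, f < m → |v (a + j) f| ≤ b) →
    ∀ (z : Bool) (St rem : ℕ) (s : ℕ → ℤ) (B : ℤ), Rep w m (Y * P : ℕ) St s B →
      B + c * ((X + F : ℕ) * b) < (Y * P : ℕ) →
      (z = true → (∀ j, j < c → s (fld (a + j)) = (Y * P : ℕ)) ∧ lexNN x a c) →
      qf D fld v P (Y * P : ℕ) x a c s ≤ rem →
      go (2 ^ w) P (Y + X) (2 * X) X F leaf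
        (mkLev (fun j => (D j, w * fld j, V j)) a c) z St rem = true →
      (∀ j, j < c → |x (a + j)| ≤ (X + F : ℕ)) ∧ ∃ z' S' r', leaf z' S' r' = true ∧
        (z' = true → z = true ∧ ∀ j, j < c → x (a + j) = 0) ∧
        Rep w m (Y * P : ℕ) S' (fun f => s f + ∑ j ∈ range c, x (a + j) * v (a + j) f)
          (B + c * ((X + F : ℕ) * b)) := by
  induction c with
  | zero =>
    intro _ z St rem s B hR _ _ _ hgo
    exact ⟨fun j hj => absurd hj (by omega), z, St, rem, hgo,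
      fun h => ⟨h, fun j hj => absurd hj (by omega)⟩, by simpa using hR⟩
  | succ c ih =>
    intro hL z St rem s B hR hB hz hq hgo
    obtain ⟨l1, l2, l3⟩ := hL c (Nat.lt_succ_self c)
    have hXb : (0 : ℤ) ≤ (X + F : ℕ) * b := by positivity
    have hB1 : B + (X + F : ℕ) * b < (Y * P : ℕ) := by
      have : (0 : ℤ) ≤ c * ((X + F : ℕ) * b) := by positivity
      push_cast at hB this ⊢; linarith
    have hB2 : B + (X + F : ℕ) * b + c * ((X + F : ℕ) * b) < (Y * P : ℕ) := by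
      push_cast at hB ⊢; linarith
    rw [qf] at hq
    have hq0 := qf_nonneg D fld v P (Y * P : ℕ) x a c (fun f => s f + x (a + c) * v (a + c) f)
    have fin : ∀ (z1 : Bool) (S1 r1 : ℕ), |x (a + c)| ≤ (X + F : ℕ) →
        (S1 : ℤ) = St + x (a + c) * V (a + c) →
        (r1 : ℤ) = rem - D (a + c) * (P * x (a + c) + (s (fld (a + c)) - (Y * P : ℕ))) ^ 2 →
        (z1 = true → z = true ∧ x (a + c) = 0 ∧ lexNN x a c) →
        go (2 ^ w) P (Y + X) (2 * X) X F leaf
          (mkLev (fun j => (D j, w * fld j, V j)) a c) z1 S1 r1 = true →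
        (∀ j, j < c + 1 → |x (a + j)| ≤ (X + F : ℕ)) ∧ ∃ z' S' r', leaf z' S' r' = true ∧
        (z' = true → z = true ∧ ∀ j, j < c + 1 → x (a + j) = 0) ∧
        Rep w m (Y * P : ℕ) S' (fun f => s f + ∑ j ∈ range (c + 1), x (a + j) * v (a + j) f)
          (B + (c + 1 : ℕ) * ((X + F : ℕ) * b)) := by
      intro z1 S1 r1 hx hS hr hz1 hg
      have hR1 := (hR.step l2 l3 hx hB1).2 S1 hS
      obtain ⟨g1, z', S', r', g2, g3, g4⟩ := ih (fun j hj => hL j (by omega)) z1 S1 r1 _ _ hR1 hB2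
        (fun h => by
          obtain ⟨k1, k2, k3⟩ := hz1 h
          refine ⟨fun j hj => ?_, k3⟩
          simp only [k2, zero_mul, add_zero]
          exact (hz k1).1 j (by omega)) (by linarith) hg
      refine ⟨fun j hj => ?_, z', S', r', g2, fun h => ?_, ?_⟩
      · rcases Nat.lt_succ_iff_lt_or_eq.mp hj with h | h
        · exact g1 j h
        · rw [h]; exact hx
      · obtain ⟨k1, k2⟩ := g3 h
        obtain ⟨k3, k4, -⟩ := hz1 k1
        refine ⟨k3, fun j hj => ?_⟩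
        rcases Nat.lt_succ_iff_lt_or_eq.mp hj with h | h
        · exact k2 j h
        · rw [h]; exact k4
      · convert g4 using 1
        · funext f; rw [sum_range_succ]; ring
        · push_cast; ring
    cases z with
    | false =>
      rw [mkLev, go_false] at hgo
      obtain ⟨g1, S1, r1, g2, g3, g4⟩ := node_sound hP hR hβ hb l2 l3 hB1 l1 hgo (x (a + c))
        (by linarith)
      exact fin false S1 r1 g1 g3 g4 (fun h => absurd h (by simp)) g2
    | true =>
      rw [mkLev, go_true] at hgo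
      obtain ⟨hz1, hz2⟩ := hz rfl
      have hs := hz1 c (Nat.lt_succ_self c)
      rcases hz2 with hx | ⟨hx, hz2⟩
      · obtain ⟨j, hj⟩ := Int.eq_ofNat_of_zero_le (show (0 : ℤ) ≤ x (a + c) - 1 by omega)
        have ex : x (a + c) = j + 1 := by linarith
        have et : (P : ℤ) * x (a + c) + (s (fld (a + c)) - (Y * P : ℕ)) =
            ((P + j * P : ℕ) : ℤ) := by rw [ex, hs]; push_cast; ring
        have hq2 : D (a + c) * ((P + j * P) * (P + j * P)) ≤ rem := by
          rw [et, sq] at hq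
          have : (D (a + c) : ℤ) * (((P + j * P : ℕ) : ℤ) * ((P + j * P : ℕ) : ℤ)) ≤ rem := by
            linarith
          exact_mod_cast this
        obtain ⟨g1, g2⟩ := loop_sound _ _ _ _ _ _ _ _ j hgo.2 hq2
        rw [iter_add] at g2
        refine fin false _ _ ?_ ?_ ?_ (fun h => absurd h (by simp)) g2
        · rw [abs_le]; push_cast; constructor <;> omega
        · rw [ex]; push_cast; ring
        · rw [et, Nat.cast_sub hq2]; push_cast; ring
      · refine fin true St rem ?_ ?_ ?_ (fun _ => ⟨rfl, hx, hz2⟩) hgo.1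
        · rw [hx]; simp; positivity
        · rw [hx]; simp
        · rw [hx, hs]; simp

theorem qf_closed (D fld : ℕ → ℕ) (v : ℕ → ℕ → ℤ) (P β : ℤ) (x : ℕ → ℤ) (a c : ℕ) :
    ∀ s, qf D fld v P β x a c s = ∑ j ∈ range c, D (a + j) * (P * x (a + j) +
      (s (fld (a + j)) - β) +
        ∑ k ∈ range c, if j < k then x (a + k) * v (a + k) (fld (a + j)) else 0) ^ 2 := by
  induction c with
  | zero => intro s; rfl
  | succ c ih =>
    intro s
    rw [qf, ih, sum_range_succ, add_comm]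
    congr 1
    · refine sum_congr rfl fun j hj => ?_
      rw [sum_range_succ, if_pos (mem_range.mp hj)]; ring
    · rw [sum_eq_zero, add_zero]
      intro k hk
      rw [if_neg (by have := mem_range.mp hk; omega)]

theorem gram_bound (m n : ℕ) (α : ℕ → ℕ → ℝ) (A L : ℕ → ℕ → ℤ) (wt D : ℕ → ℕ) (S : ℝ)
    (b c0 η ε : ℤ) (hA : ∀ k, k < m → ∀ i, i < n → |S * α k i - A k i| ≤ 1 ∧ |A k i| ≤ b)
    (hG : ∀ k, k < m → ∀ l, l < m → |∑ i ∈ range n, wt i * A k i * A l i -
      c0 * ∑ j ∈ range m, D j * L k j * L l j - (if k = l then η else 0)| +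
        (∑ i ∈ range n, (wt i : ℤ)) * (2 * b + 1) ≤ ε)
    (hη : m * ε ≤ η) (ξ : ℕ → ℝ) :
    (c0 : ℝ) * ∑ j ∈ range m, D j * (∑ k ∈ range m, ξ k * L k j) ^ 2 ≤
      S ^ 2 * ∑ i ∈ range n, wt i * (∑ k ∈ range m, ξ k * α k i) ^ 2 := by
  obtain ⟨Fm, hF⟩ : ∃ Fm : ℕ → ℕ → ℝ, Fm = fun k l =>
      ∑ i ∈ range n, wt i * (S * α k i) * (S * α l i) -
      c0 * ∑ j ∈ range m, (D j : ℝ) * L k j * L l j - (if k = l then (η : ℝ) else 0) := ⟨_, rfl⟩
  have h1 : ∀ k, k < m → ∀ l, l < m → |Fm k l| ≤ ε := by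
    intro k hk l hl
    have g1 : ((|∑ i ∈ range n, wt i * A k i * A l i -
      c0 * ∑ j ∈ range m, D j * L k j * L l j - (if k = l then η else 0)| +
        (∑ i ∈ range n, (wt i : ℤ)) * (2 * b + 1) : ℤ) : ℝ) ≤ ε := by exact_mod_cast hG k hk l hl
    push_cast at g1
    have g2 : |∑ i ∈ range n, wt i * (S * α k i) * (S * α l i) -
        ∑ i ∈ range n, (wt i : ℝ) * A k i * A l i| ≤ (∑ i ∈ range n, (wt i : ℝ)) * (2 * b + 1) := by
      rw [← sum_sub_distrib, sum_mul]
      refine (abs_sum_le_sum_abs _ _).trans (sum_le_sum fun i hi => ?_)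
      obtain ⟨a1, a2⟩ := hA k hk i (mem_range.mp hi)
      obtain ⟨a3, a4⟩ := hA l hl i (mem_range.mp hi)
      have a2' : |(A k i : ℝ)| ≤ b := by exact_mod_cast a2
      have a4' : |(A l i : ℝ)| ≤ b := by exact_mod_cast a4
      have e : wt i * (S * α k i) * (S * α l i) - (wt i : ℝ) * A k i * A l i =
          wt i * ((S * α k i - A k i) * (S * α l i - A l i) + (S * α k i - A k i) * A l i +
            A k i * (S * α l i - A l i)) := by ring
      rw [e, abs_mul, Nat.abs_cast]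
      refine mul_le_mul_of_nonneg_left ?_ (Nat.cast_nonneg _)
      have t1 : |(S * α k i - A k i) * (S * α l i - A l i)| ≤ 1 := by
        rw [abs_mul]; exact mul_le_one₀ a1 (abs_nonneg _) a3
      have t2 : |(S * α k i - A k i) * A l i| ≤ b := by
        rw [abs_mul]; nlinarith [abs_nonneg (S * α k i - A k i), abs_nonneg (A l i : ℝ)]
      have t3 : |A k i * (S * α l i - A l i)| ≤ b := by
        rw [abs_mul]; nlinarith [abs_nonneg (S * α l i - A l i), abs_nonneg (A k i : ℝ)]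
      have t4 := abs_add_three ((S * α k i - A k i) * (S * α l i - A l i))
        ((S * α k i - A k i) * A l i) (A k i * (S * α l i - A l i))
      linarith
    have e : Fm k l = (∑ i ∈ range n, wt i * (S * α k i) * (S * α l i) -
        ∑ i ∈ range n, (wt i : ℝ) * A k i * A l i) + (∑ i ∈ range n, (wt i : ℝ) * A k i * A l i -
        c0 * ∑ j ∈ range m, (D j : ℝ) * L k j * L l j - (if k = l then (η : ℝ) else 0)) := by
      rw [hF]; ring
    rw [e]
    refine (abs_add_le _ _).trans ?_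
    split_ifs at g1 ⊢ <;> linarith
  have h2 : S ^ 2 * ∑ i ∈ range n, wt i * (∑ k ∈ range m, ξ k * α k i) ^ 2 -
      (c0 : ℝ) * ∑ j ∈ range m, D j * (∑ k ∈ range m, ξ k * L k j) ^ 2 =
      ∑ k ∈ range m, ∑ l ∈ range m, ξ k * ξ l * Fm k l + η * ∑ k ∈ range m, ξ k ^ 2 := by
    have e1 : S ^ 2 * ∑ i ∈ range n, wt i * (∑ k ∈ range m, ξ k * α k i) ^ 2 =
        ∑ k ∈ range m, ∑ l ∈ range m, ξ k * ξ l *
          ∑ i ∈ range n, wt i * (S * α k i) * (S * α l i) := by
      simp only [sq, sum_mul_sum]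
      simp only [mul_sum]
      rw [sum_comm]
      refine sum_congr rfl fun k _ => ?_
      rw [sum_comm]
      exact sum_congr rfl fun l _ => sum_congr rfl fun i _ => by ring
    have e2 : (c0 : ℝ) * ∑ j ∈ range m, D j * (∑ k ∈ range m, ξ k * L k j) ^ 2 =
        ∑ k ∈ range m, ∑ l ∈ range m, ξ k * ξ l *
          (c0 * ∑ j ∈ range m, (D j : ℝ) * L k j * L l j) := by
      simp only [sq, sum_mul_sum]
      simp only [mul_sum]
      rw [sum_comm]
      refine sum_congr rfl fun k _ => ?_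
      rw [sum_comm]
      exact sum_congr rfl fun l _ => sum_congr rfl fun i _ => by ring
    have e3 : (η : ℝ) * ∑ k ∈ range m, ξ k ^ 2 =
        ∑ k ∈ range m, ∑ l ∈ range m, ξ k * ξ l * (if k = l then (η : ℝ) else 0) := by
      rw [mul_sum]
      refine sum_congr rfl fun k hk => ?_
      simp only [mul_ite, mul_zero, sum_ite_eq, hk, if_true]; ring
    rw [e1, e2, e3, ← sum_sub_distrib, ← sum_add_distrib]
    refine sum_congr rfl fun k _ => ?_
    rw [← sum_sub_distrib, ← sum_add_distrib]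
    exact sum_congr rfl fun l _ => by rw [hF]; ring
  have h3 : -(ε * (∑ k ∈ range m, |ξ k|) ^ 2) ≤
      ∑ k ∈ range m, ∑ l ∈ range m, ξ k * ξ l * Fm k l := by
    rw [sq, sum_mul_sum, mul_sum, ← sum_neg_distrib]
    refine sum_le_sum fun k hk => ?_
    rw [mul_sum, ← sum_neg_distrib]
    refine sum_le_sum fun l hl => ?_
    have := h1 k (mem_range.mp hk) l (mem_range.mp hl)
    have t : |ξ k * ξ l * Fm k l| ≤ ε * (|ξ k| * |ξ l|) := by
      rw [abs_mul, abs_mul, mul_comm]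
      exact mul_le_mul_of_nonneg_right this (by positivity)
    linarith [neg_abs_le (ξ k * ξ l * Fm k l)]
  have h4 : (∑ k ∈ range m, |ξ k|) ^ 2 ≤ m * ∑ k ∈ range m, ξ k ^ 2 := by
    have := sq_sum_le_card_mul_sum_sq (s := range m) (f := fun k => |ξ k|)
    simpa using this
  rcases Nat.eq_zero_or_pos m with hm | hm
  · subst hm; simp
  have hε : (0 : ℝ) ≤ ε := le_trans (abs_nonneg _) (h1 0 hm 0 hm)
  have hη' : (m : ℝ) * ε ≤ η := by exact_mod_cast hη
  have h5 : 0 ≤ ∑ k ∈ range m, ξ k ^ 2 := sum_nonneg fun k _ => sq_nonneg _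
  nlinarith

end Pool.Agent.MP_2877d0_al
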