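import Pool.Agent.MP_2877d0_al.Enum

namespace Pool.Agent.MP_2877d0_al

open Finset

/-- entry of a matrix given as a list of rows -/
def ent (M : List (List ℤ)) (k f : ℕ) : ℤ := (M.getD k []).getD f 0

def LatOK (w nf m n a c P Y X F bias : ℕ) (b c0 η ε : ℤ) (rows : List (List ℤ))
    (Dl wt : List ℕ) (lev : List (ℕ × ℕ × ℕ)) : Prop :=
  (a + c = m ∧ 0 < P ∧ 0 ≤ b ∧ 0 < c0 ∧ n + m ≤ nf ∧ 2 * ((Y * P : ℕ) : ℤ) ≤ 2 ^ w ∧
    c * ((X + F : ℕ) * b) < (Y * P : ℕ) ∧ m * ε ≤ η ∧
    (bias : ℤ) = ∑ f ∈ range nf, ((Y * P : ℕ) : ℤ) * (2 ^ w) ^ f) ∧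
  (∀ k, k < m → (∀ f, f < nf → |ent rows k f| ≤ b) ∧
    0 ≤ ∑ f ∈ range nf, ent rows k f * (2 ^ w) ^ f) ∧
  (∀ k, k < m → ent rows k (n + k) = P ∧ ∀ j, j < m → k < j → ent rows k (n + j) = 0) ∧
  (∀ k, k < m → ∀ l, l < k + 1 →
    |∑ i ∈ range n, wt.getD i 0 * ent rows k i * ent rows l i -
      c0 * ∑ j ∈ range (l + 1), Dl.getD j 0 * ent rows k (n + j) * ent rows l (n + j) -
      (if k = l then η else 0)| + (∑ i ∈ range n, (wt.getD i 0 : ℤ)) * (2 * b + 1) ≤ ε) ∧
  mkLev (fun j => (Dl.getD j 0, w * (n + j),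
    (∑ f ∈ range nf, ent rows j f * (2 ^ w) ^ f).toNat)) a c = lev

instance (w nf m n a c P Y X F bias : ℕ) (b c0 η ε : ℤ) (rows : List (List ℤ))
    (Dl wt : List ℕ) (lev : List (ℕ × ℕ × ℕ)) :
    Decidable (LatOK w nf m n a c P Y X F bias b c0 η ε rows Dl wt lev) := by
  unfold LatOK; infer_instance

theorem lattice_sound {w nf m n a c P Y X F bias : ℕ} {b c0 η ε : ℤ} {rows : List (List ℤ)}
    {Dl wt : List ℕ} {lev : List (ℕ × ℕ × ℕ)}
    (h : LatOK w nf m n a c P Y X F bias b c0 η ε rows Dl wt lev)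
    {leaf : Bool → ℕ → ℕ → Bool} {R : ℕ}
    (hgo : go (2 ^ w) P (Y + X) (2 * X) X F leaf lev true bias R = true)
    (α : ℕ → ℕ → ℝ) (S : ℝ) (hA : ∀ k, k < m → ∀ i, i < n → |S * α k i - ent rows k i| ≤ 1)
    (ξ : ℕ → ℝ) (x : ℕ → ℤ) (hx : ∀ j, a ≤ j → j < m → ξ j = x j)
    (hq : S ^ 2 * ∑ i ∈ range n, wt.getD i 0 * (∑ k ∈ range m, ξ k * α k i) ^ 2 ≤ c0 * R) :
    (∀ j, j < c → x (a + j) = 0) ∨ ∃ σ : ℤ, (σ = 1 ∨ σ = -1) ∧
      (∀ j, j < c → |x (a + j)| ≤ (X + F : ℕ)) ∧ ∃ St r, leaf false St r = true ∧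
        ∀ f, f < nf → ((St >>> (w * f) % 2 ^ w : ℕ) : ℤ) =
          (Y * P : ℕ) + ∑ j ∈ range c, σ * x (a + j) * ent rows (a + j) f := by
  obtain ⟨⟨hm, hP, hb, hc0, hnf, hβ, hB, hη, hbias⟩, h1, h2, h3, h4⟩ := h
  have hG0 : ∀ k, k < m → ∀ l, l ≤ k →
      |∑ i ∈ range n, wt.getD i 0 * ent rows k i * ent rows l i -
      c0 * ∑ j ∈ range m, Dl.getD j 0 * ent rows k (n + j) * ent rows l (n + j) -
      (if k = l then η else 0)| + (∑ i ∈ range n, (wt.getD i 0 : ℤ)) * (2 * b + 1) ≤ ε := by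
    intro k hk l hl
    have e : ∑ j ∈ range m, Dl.getD j 0 * ent rows k (n + j) * ent rows l (n + j) =
        ∑ j ∈ range (l + 1), (Dl.getD j 0 : ℤ) * ent rows k (n + j) * ent rows l (n + j) := by
      symm
      refine sum_subset (range_subset_range.mpr (by omega)) fun j hj hj' => ?_
      rw [(h2 l (by omega)).2 j (mem_range.mp hj) (by simpa using hj'), mul_zero]
    rw [e]; exact h3 k hk l (by omega)
  have hG : ∀ k, k < m → ∀ l, l < m →
      |∑ i ∈ range n, wt.getD i 0 * ent rows k i * ent rows l i -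
      c0 * ∑ j ∈ range m, Dl.getD j 0 * ent rows k (n + j) * ent rows l (n + j) -
      (if k = l then η else 0)| + (∑ i ∈ range n, (wt.getD i 0 : ℤ)) * (2 * b + 1) ≤ ε := by
    intro k hk l hl
    rcases le_total l k with hkl | hkl
    · exact hG0 k hk l hkl
    · have := hG0 l hl k hkl
      simp only [mul_right_comm _ (ent rows l _) (ent rows k _), eq_comm (a := l) (b := k)] at this
      exact this
  have gb := gram_bound m n α (ent rows) (fun k j => ent rows k (n + j)) (fun i => wt.getD i 0)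
    (fun j => Dl.getD j 0) S b c0 η ε
    (fun k hk i hi => ⟨hA k hk i hi, (h1 k hk).1 i (by omega)⟩) hG hη ξ
  have hc0' : (0 : ℝ) < c0 := by exact_mod_cast hc0
  have g1 : ∑ j ∈ range m, (Dl.getD j 0 : ℝ) * (∑ k ∈ range m, ξ k * ent rows k (n + j)) ^ 2 ≤ R :=
    le_of_mul_le_mul_left (gb.trans hq) hc0'
  have key : ∀ σ : ℤ, (σ = 1 ∨ σ = -1) → lexNN (fun j => σ * x j) a c →
      (∀ j, j < c → x (a + j) = 0) ∨
      (∀ j, j < c → |x (a + j)| ≤ (X + F : ℕ)) ∧ ∃ St r, leaf false St r = true ∧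
        ∀ f, f < nf → ((St >>> (w * f) % 2 ^ w : ℕ) : ℤ) =
          (Y * P : ℕ) + ∑ j ∈ range c, σ * x (a + j) * ent rows (a + j) f := by
    intro σ hσ hlex
    have hσ2 : σ ^ 2 = 1 := by rcases hσ with h | h <;> rw [h] <;> norm_num
    have hσa : ∀ t : ℤ, |σ * t| = |t| := by
      intro t; rcases hσ with h | h <;> rw [h] <;> simp
    have hqf : qf (fun j => Dl.getD j 0) (fun j => n + j) (ent rows) P (Y * P : ℕ)
        (fun j => σ * x j) a c (fun _ => (Y * P : ℕ)) ≤ R := by
      rw [qf_closed]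
      have e1 : ∀ j ∈ range c, ((((Dl.getD (a + j) 0 : ℕ) : ℤ) * (P * (σ * x (a + j)) +
          (((Y * P : ℕ) : ℤ) - (Y * P : ℕ)) + ∑ k ∈ range c,
          if j < k then σ * x (a + k) * ent rows (a + k) (n + (a + j)) else 0) ^ 2 : ℤ) : ℝ) =
          (Dl.getD (a + j) 0 : ℝ) * (∑ k ∈ range m, ξ k * ent rows k (n + (a + j))) ^ 2 := by
        intro j hj
        have hj' := mem_range.mp hj
        have e2 : ∑ k ∈ range m, ξ k * ent rows k (n + (a + j)) =
            ∑ k ∈ range c, (x (a + k) : ℝ) * ent rows (a + k) (n + (a + j)) := by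
          rw [← hm, sum_range_add, sum_eq_zero, zero_add]
          · exact sum_congr rfl fun k hk => by
              rw [hx _ (by omega) (by have := mem_range.mp hk; omega)]
          · intro k hk
            have := mem_range.mp hk
            rw [(h2 k (by omega)).2 (a + j) (by omega) (by omega)]; simp
        have e3 : P * (σ * x (a + j)) + (((Y * P : ℕ) : ℤ) - (Y * P : ℕ)) + ∑ k ∈ range c,
            (if j < k then σ * x (a + k) * ent rows (a + k) (n + (a + j)) else 0) =
            σ * ∑ k ∈ range c, x (a + k) * ent rows (a + k) (n + (a + j)) := by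
          have e4 : P * (σ * x (a + j)) = ∑ k ∈ range c,
              if k = j then P * (σ * x (a + j)) else 0 := by
            rw [sum_ite_eq' (range c) j, if_pos hj]
          rw [e4, sub_self, add_zero, ← sum_add_distrib, mul_sum]
          refine sum_congr rfl fun k hk => ?_
          have hk' := mem_range.mp hk
          rcases lt_trichotomy k j with h | h | h
          · rw [if_neg h.ne, if_neg (by omega),
              (h2 (a + k) (by omega)).2 (a + j) (by omega) (by omega)]; simp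
          · subst h
            rw [if_pos rfl, if_neg (lt_irrefl _), (h2 (a + k) (by omega)).1]; ring
          · rw [if_neg h.ne', if_pos h]; ring
        rw [e2, e3, mul_pow, hσ2]; push_cast; ring
      have g2 : ∑ j ∈ range c, (Dl.getD (a + j) 0 : ℝ) *
          (∑ k ∈ range m, ξ k * ent rows k (n + (a + j))) ^ 2 ≤ R := by
        refine le_trans ?_ g1
        have : ∑ j ∈ range m, (Dl.getD j 0 : ℝ) * (∑ k ∈ range m, ξ k * ent rows k (n + j)) ^ 2 =
            ∑ j ∈ range (a + c), (Dl.getD j 0 : ℝ) *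
              (∑ k ∈ range m, ξ k * ent rows k (n + j)) ^ 2 := by rw [hm]
        rw [this, sum_range_add]
        exact le_add_of_nonneg_left (sum_nonneg fun j _ => by positivity)
      rw [← sum_congr rfl e1] at g2
      exact_mod_cast g2
    obtain ⟨g3, z', S', r', g4, g5, g6⟩ := go_sound (w := w) (m := nf) (X := X) (F := F) hP hβ
      (D := fun j => Dl.getD j 0) (fld := fun j => n + j)
      (V := fun j => (∑ f ∈ range nf, ent rows j f * (2 ^ w) ^ f).toNat) (v := ent rows) hb
      (a := a) (leaf := leaf) (fun j => σ * x j) c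
      (fun j hj => ⟨by omega, Int.toNat_of_nonneg (h1 (a + j) (by omega)).2,
        (h1 (a + j) (by omega)).1⟩) true bias R (fun _ => (Y * P : ℕ)) 0
      ⟨hbias, fun f _ => by simp⟩ (by rw [zero_add]; exact hB) (fun _ => ⟨fun _ _ => rfl, hlex⟩)
      hqf (by rw [h4]; exact hgo)
    cases z' with
    | true =>
      refine Or.inl fun j hj => ?_
      have := (g5 rfl).2 j hj
      rw [← abs_eq_zero, ← hσa, this, abs_zero]
    | false =>
      refine Or.inr ⟨fun j hj => by rw [← hσa]; exact g3 j hj, S', r', g4, fun f hf => ?_⟩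
      exact g6.digit (by rw [zero_add]; exact hB) hβ hf
  rcases lexNN_or x a c with hl | hl
  · rcases key 1 (Or.inl rfl) (by simpa using hl) with h | h
    · exact Or.inl h
    · exact Or.inr ⟨1, Or.inl rfl, h⟩
  · rcases key (-1) (Or.inr rfl) (by simpa using hl) with h | h
    · exact Or.inl h
    · exact Or.inr ⟨-1, Or.inr rfl, h⟩

theorem digit_err {c : ℕ} (x : ℕ → ℤ) (A : ℕ → ℤ) (α : ℕ → ℝ) (S : ℝ) (Xm : ℤ)
    (hx : ∀ j, j < c → |x j| ≤ Xm) (hA : ∀ j, j < c → |S * α j - A j| ≤ 1) :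
    |S * ∑ j ∈ range c, x j * α j - ((∑ j ∈ range c, x j * A j : ℤ) : ℝ)| ≤ c * Xm := by
  push_cast
  rw [mul_sum, ← sum_sub_distrib]
  refine (abs_sum_le_sum_abs _ _).trans ?_
  have : ∑ j ∈ range c, |S * (x j * α j) - x j * A j| ≤ ∑ _j ∈ range c, (Xm : ℝ) := by
    refine sum_le_sum fun j hj => ?_
    have e : S * (x j * α j) - x j * A j = x j * (S * α j - A j) := by ring
    have h1 : |(x j : ℝ)| ≤ Xm := by exact_mod_cast hx j (mem_range.mp hj)
    have h2 := hA j (mem_range.mp hj)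
    rw [e, abs_mul]
    nlinarith [abs_nonneg (x j : ℝ), abs_nonneg (S * α j - A j)]
  simpa using this

noncomputable def digs (w W k : ℕ) : ℕ → List ℕ :=
  Nat.rec (fun _ => []) (fun _ ih A => Nat.mod A W :: ih (Nat.shiftRight A w)) k

theorem digs_getD (w W k : ℕ) : ∀ A i, i < k → (digs w W k A).getD i 0 = A >>> (w * i) % W := by
  induction k with
  | zero => intro A i hi; omega
  | succ k ih =>
    intro A i hi
    show (A % W :: digs w W k (A >>> w)).getD i 0 = _
    cases i with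
    | zero => simp
    | succ i =>
      rw [List.getD_cons_succ, ih _ _ (by omega), ← Nat.shiftRight_add]
      congr 2; ring

theorem digs_length (w W k : ℕ) : ∀ A, (digs w W k A).length = k := by
  induction k with
  | zero => intro A; rfl
  | succ k ih =>
    intro A
    show (A % W :: digs w W k (A >>> w)).length = _
    rw [List.length_cons, ih]

noncomputable def anyB {α : Type} (p : α → Bool) (l : List α) : Bool :=
  List.rec false (fun a _ ih => Bool.rec ih true (p a)) l

theorem anyB_sound {α : Type} (p : α → Bool) (l : List α) (h : anyB p l = true) :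
    ∃ a ∈ l, p a = true := by
  induction l with
  | nil => exact absurd h (by simp [anyB])
  | cons a l ih =>
    have h' : (Bool.rec (anyB p l) true (p a) : Bool) = true := h
    cases hp : p a with
    | true => exact ⟨a, List.mem_cons_self, hp⟩
    | false =>
      rw [hp] at h'
      obtain ⟨b, hb, hb'⟩ := ih h'
      exact ⟨b, List.mem_cons_of_mem _ hb, hb'⟩

noncomputable def sumAbs (β : ℕ) (l : List ℕ) : ℕ :=
  List.rec 0 (fun d _ ih => Nat.add (Nat.add (Nat.sub d β) (Nat.sub β d)) ih) l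

theorem sumAbs_eq (β : ℕ) (l : List ℕ) :
    (sumAbs β l : ℤ) = ∑ i ∈ range l.length, |(l.getD i 0 : ℤ) - β| := by
  induction l with
  | nil => rfl
  | cons d l ih =>
    show (((d - β) + (β - d) + sumAbs β l : ℕ) : ℤ) = _
    rw [List.length_cons, sum_range_succ', Nat.cast_add, ih, add_comm]
    simp only [List.getD_cons_succ, List.getD_cons_zero]
    congr 1
    rcases le_total d β with h | h
    · rw [abs_of_nonpos (by omega)]; omega
    · rw [abs_of_nonneg (by omega)]; omega

noncomputable def leaf1 (n w W β T : ℕ) (keys : List ℕ) (z : Bool) (St _rem : ℕ) : Bool :=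
  Bool.rec (Bool.rec true (anyB (Nat.beq St) keys) (Nat.ble (sumAbs β (digs w W n St)) T)) true z

theorem rec_leaf (A B : Bool) (h : (Bool.rec (Bool.rec true A B) true false : Bool) = true) :
    B = false ∨ A = true := by
  cases A <;> cases B <;> simp_all

theorem leaf1_sound {n w W β T : ℕ} {keys : List ℕ} {St r : ℕ}
    (h : leaf1 n w W β T keys false St r = true) :
    (T : ℤ) < ∑ i ∈ range n, |((St >>> (w * i) % W : ℕ) : ℤ) - β| ∨ St ∈ keys := by
  unfold leaf1 at h
  rcases rec_leaf _ _ h with hb | h'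
  · left
    have h1 : T < sumAbs β (digs w W n St) := by
      by_contra hc
      rw [Nat.ble_eq_true_of_le (not_lt.mp hc)] at hb
      exact absurd hb (by simp)
    have h2 := sumAbs_eq β (digs w W n St)
    rw [digs_length] at h2
    rw [← sum_congr rfl fun i hi => by rw [← digs_getD w W n St i (mem_range.mp hi)], ← h2]
    exact_mod_cast h1
  · obtain ⟨k, hk, hk'⟩ := anyB_sound _ _ h'
    exact Or.inr (Nat.eq_of_beq_eq_true hk' ▸ hk)

end Pool.Agent.MP_2877d0_al
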