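import Pool.Agent.MP_2877d0_al.Lat
import Pool.Agent.MP_2877d0_al.Anal

namespace Pool.Agent.MP_2877d0_al

open Finset

noncomputable def csAcc (PG R : ℕ) (fin : ℕ → ℕ → ℕ → Bool) (zl : List ℕ) :
    List ℕ → List (ℕ × ℕ) → ℕ → ℕ → ℕ → Bool :=
  List.rec (fun _ _ X T Y => fin X T Y) (fun z _ ih dl gs X T Y =>
    List.rec false (fun d dl' _ => List.rec false (fun p gs' _ =>
      Bool.rec false
        (ih dl' gs' (Nat.add X (Nat.mul z (Nat.add (Nat.mul p.1 d) (Nat.mul p.2 R))))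
          (Nat.add T (Nat.mul z p.1)) (Nat.add Y (Nat.mul z d)))
        (Nat.ble (Nat.add (Nat.mul p.1 p.1) (Nat.mul p.2 p.2))
          (Nat.mul (Nat.add PG PG) p.1))) gs) dl) zl

theorem csAcc_sound (PG R : ℕ) (fin : ℕ → ℕ → ℕ → Bool) (zl : List ℕ) :
    ∀ (dl : List ℕ) (gs : List (ℕ × ℕ)) (X T Y : ℕ), csAcc PG R fin zl dl gs X T Y = true →
      ∃ g s : ℕ → ℕ, (∀ i, i < zl.length → g i * g i + s i * s i ≤ (PG + PG) * g i) ∧
        fin (X + ∑ i ∈ range zl.length, zl.getD i 0 * (g i * dl.getD i 0 + s i * R))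
          (T + ∑ i ∈ range zl.length, zl.getD i 0 * g i)
          (Y + ∑ i ∈ range zl.length, zl.getD i 0 * dl.getD i 0) = true := by
  induction zl with
  | nil => intro dl gs X T Y h; exact ⟨fun _ => 0, fun _ => 0, by simp, h⟩
  | cons z zl ih =>
    intro dl gs X T Y h
    cases dl with
    | nil => exact absurd h (by simp [csAcc])
    | cons d dl =>
      cases gs with
      | nil => exact absurd h (by simp [csAcc])
      | cons p gs =>
        have h' : (Bool.rec false (csAcc PG R fin zl dl gs (X + z * (p.1 * d + p.2 * R))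
          (T + z * p.1) (Y + z * d)) (Nat.ble (p.1 * p.1 + p.2 * p.2) ((PG + PG) * p.1)) : Bool)
          = true := h
        cases hb : Nat.ble (p.1 * p.1 + p.2 * p.2) ((PG + PG) * p.1) with
        | false => rw [hb] at h'; exact absurd h' (by simp)
        | true =>
          rw [hb] at h'
          obtain ⟨g, s, h1, h2⟩ := ih _ _ _ _ _ h'
          refine ⟨fun i => Nat.casesOn i p.1 g, fun i => Nat.casesOn i p.2 s, ?_, ?_⟩
          · intro i hi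
            cases i with
            | zero => exact Nat.le_of_ble_eq_true hb
            | succ i => exact h1 i (by simpa using hi)
          · simp only [List.length_cons, sum_range_succ', List.getD_cons_succ,
              List.getD_cons_zero, Nat.rec_zero]
            rw [add_assoc, add_assoc, add_assoc] at h2
            simpa only [add_comm] using h2

noncomputable def dotN (zl : List ℕ) : List ℕ → ℕ :=
  List.rec (fun _ => 0) (fun z _ ih dl =>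
    List.rec 0 (fun d dl' _ => Nat.add (Nat.mul z d) (ih dl')) dl) zl

noncomputable def dotF (zl : List ℕ) : List (ℕ × ℕ) → ℕ :=
  List.rec (fun _ => 0) (fun z _ ih dl =>
    List.rec 0 (fun d dl' _ => Nat.add (Nat.mul z d.1) (ih dl')) dl) zl

noncomputable def mapR {α β : Type} (f : α → β) (l : List α) : List β :=
  List.rec [] (fun a _ ih => f a :: ih) l

/-- heuristic choice of unit vectors -/
noncomputable def heur (PG R Lz : ℕ) (zl dl : List ℕ) : List (ℕ × ℕ) :=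
  (fun c => (fun l1 => (fun tau => mapR (fun p : ℕ × ℕ =>
      (fun g => (fun q s0 =>
        (g, Nat.div q (Nat.succ (Nat.div (Nat.add s0 (Nat.div q s0)) 2))))
        (Nat.sub (Nat.mul (Nat.add PG PG) g) (Nat.mul g g)) (Nat.div (Nat.mul R PG) p.2))
        (Nat.sub (Nat.add p.1 PG) tau)) l1) (Nat.div (dotF zl l1) Lz))
    (mapR (fun a => (fun up un => (fun u => (fun q m0 => (fun m1 => (fun m2 =>
      (Nat.sub (Nat.add PG (Nat.div (Nat.mul up PG) m2)) (Nat.div (Nat.mul un PG) m2), m2))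
      (Nat.div (Nat.add m1 (Nat.div q m1)) 2)) (Nat.div (Nat.add m0 (Nat.div q m0)) 2))
      (Nat.add (Nat.mul u u) (Nat.mul R R)) (Nat.add u R)) (Nat.add up un))
      (Nat.sub a c) (Nat.sub c a)) dl)) (Nat.div (dotN zl dl) Lz)

noncomputable def csTest (PG W Lz : ℕ) (zl dl : List ℕ) (p : ℕ × ℕ) : Bool :=
  csAcc PG p.1 (fun X T Y => Nat.blt
    (Nat.add (Nat.add (Nat.mul PG Y) (Nat.mul W (Nat.sub T (Nat.mul PG Lz)))) p.2) X)
    zl dl (heur PG p.1 Lz zl dl) 0 0 0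

theorem csTest_sound {PG W Lz : ℕ} {zl dl : List ℕ} {p : ℕ × ℕ} {n : ℕ} (hn : zl.length = n)
    (hL : Lz = ∑ i ∈ range n, zl.getD i 0) {Z K : ℕ} (hK : 0 < K) (hp0 : 0 < p.2)
    (hp : PG ^ 2 * Z ^ 2 * (K + p.1 ^ 2) ≤ p.2 ^ 2) (hd : ∀ i, i < n → dl.getD i 0 ≤ W)
    (a : ℕ → ℝ) (ha : ∀ i ∈ range n, 0 < a i) (hs : ∑ i ∈ range n, a i = 1)
    (hb : ∑ i ∈ range n, (zl.getD i 0 : ℝ) ^ 2 / a i ≤ (Z : ℝ) ^ 2)
    (hv : ∑ i ∈ range n, a i * (dl.getD i 0 : ℝ) ^ 2 -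
      (∑ i ∈ range n, a i * (dl.getD i 0 : ℝ)) ^ 2 ≤ K) : csTest PG W Lz zl dl p ≠ true := by
  intro h
  obtain ⟨g, s, h1, h2⟩ := csAcc_sound _ _ _ _ _ _ _ _ _ h
  rw [hn] at h1 h2
  simp only [zero_add, Nat.blt_eq] at h2
  obtain ⟨μ, hμ⟩ : ∃ μ, μ = ∑ i ∈ range n, a i * (dl.getD i 0 : ℝ) := ⟨_, rfl⟩
  have hμ0 : 0 ≤ μ := hμ ▸ sum_nonneg fun i hi => mul_nonneg (ha i hi).le (Nat.cast_nonneg _)
  have hμ1 : μ ≤ W := by
    calc μ ≤ ∑ i ∈ range n, a i * W := hμ ▸ sum_le_sum fun i hi =>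
          mul_le_mul_of_nonneg_left (by exact_mod_cast hd i (mem_range.mp hi)) (ha i hi).le
      _ = W := by rw [← sum_mul, hs, one_mul]
  have hv' : ∑ i ∈ range n, a i * ((dl.getD i 0 : ℝ) - μ) ^ 2 ≤ K := by
    have e : ∑ i ∈ range n, a i * ((dl.getD i 0 : ℝ) - μ) ^ 2 =
        ∑ i ∈ range n, a i * (dl.getD i 0 : ℝ) ^ 2 -
          2 * μ * ∑ i ∈ range n, a i * (dl.getD i 0 : ℝ) + μ ^ 2 * ∑ i ∈ range n, a i := by
      simp only [mul_sum, ← sum_add_distrib, ← sum_sub_distrib]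
      exact sum_congr rfl fun i _ => by ring
    rw [e, hs, ← hμ]; rw [← hμ] at hv; linarith
  have cb := cs_bound a (fun i => (zl.getD i 0 : ℝ)) (fun i => (dl.getD i 0 : ℝ) - μ)
    (fun i => (g i : ℝ) - PG) (fun i => (s i : ℝ)) Z PG K p.1 p.2 ha hs hb hv'
    (by exact_mod_cast hK) (by exact_mod_cast hp0)
    (fun i hi => by
      have : (g i : ℝ) * g i + s i * s i ≤ (PG + PG) * g i := by
        exact_mod_cast h1 i (mem_range.mp hi)
      nlinarith) (by exact_mod_cast hp)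
  obtain ⟨T, hT⟩ : ∃ T, T = ∑ i ∈ range n, zl.getD i 0 * g i := ⟨_, rfl⟩
  obtain ⟨Y, hY⟩ : ∃ Y, Y = ∑ i ∈ range n, zl.getD i 0 * dl.getD i 0 := ⟨_, rfl⟩
  obtain ⟨X, hX⟩ : ∃ X, X = ∑ i ∈ range n, zl.getD i 0 * (g i * dl.getD i 0 + s i * p.1) :=
    ⟨_, rfl⟩
  rw [← hT, ← hY, ← hX] at h2
  have h3 : PG * Y + W * (T - PG * Lz) + p.2 < X := h2
  have h4 : (PG : ℝ) * Y + W * ((T - PG * Lz : ℕ) : ℝ) + p.2 < X := by exact_mod_cast h3
  have e : ∑ i ∈ range n, (zl.getD i 0 : ℝ) * (((g i : ℝ) - PG) * ((dl.getD i 0 : ℝ) - μ) +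
      (s i : ℝ) * p.1) = X - PG * Y - μ * (T - PG * Lz) := by
    rw [hX, hY, hT, hL]; push_cast
    simp only [mul_sub, mul_sum, ← sum_sub_distrib]
    exact sum_congr rfl fun i _ => by ring
  rw [e] at cb
  have h5 : (T : ℝ) - PG * Lz ≤ ((T - PG * Lz : ℕ) : ℝ) := by
    have : T ≤ T - PG * Lz + PG * Lz := by omega
    have : (T : ℝ) ≤ ((T - PG * Lz : ℕ) : ℝ) + PG * Lz := by exact_mod_cast this
    linarith
  have h6 : (0 : ℝ) ≤ ((T - PG * Lz : ℕ) : ℝ) := Nat.cast_nonneg _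
  nlinarith

/-- a hint: key, reference point, multipliers -/
structure Hint where
  key : ℕ
  N : List ℤ
  m1 : ℤ
  m2 : ℤ
  m3 : ℤ
  nu : ℤ

def c2g (n : ℕ) (dl : List ℕ) (h : Hint) (i : ℕ) : ℤ :=
  h.m3 * (h.N.getD i 0 * ((∑ j ∈ range n, h.N.getD j 0) * (dl.getD i 0 : ℤ) ^ 2 -
    2 * (dl.getD i 0 : ℤ) * (∑ j ∈ range n, h.N.getD j 0 * (dl.getD j 0 : ℤ)) +
    ∑ j ∈ range n, h.N.getD j 0 * (dl.getD j 0 : ℤ) ^ 2)) - h.nu

def c2a (n : ℕ) (zl dl : List ℕ) (h : Hint) (i : ℕ) : ℤ :=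
  min (h.m1 * h.N.getD i 0) (h.m2 * (zl.getD i 0 : ℤ) ^ 2 / h.N.getD i 0 - c2g n dl h i)

def C2OK (n Z K Dn : ℕ) (zl dl : List ℕ) (h : Hint) : Prop :=
  0 ≤ h.m2 ∧ 0 ≤ h.m3 ∧ 0 ≤ h.nu ∧
  (∀ i, i < n → 0 < h.N.getD i 0 ∧ 0 ≤ c2a n zl dl h i ∧ 0 ≤ c2a n zl dl h i + c2g n dl h i) ∧
  (h.m1 * Z + h.m2 * Z + h.m3 * Z ^ 2 * K) * Z ^ n <
    (∑ i ∈ range n, (c2a n zl dl h i + (c2a n zl dl h i + c2g n dl h i)) +
      h.m3 * ((∑ j ∈ range n, h.N.getD j 0) * (∑ j ∈ range n, h.N.getD j 0 * (dl.getD j 0 : ℤ) ^ 2)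
        - (∑ j ∈ range n, h.N.getD j 0 * (dl.getD j 0 : ℤ)) ^ 2) + h.nu) * Z ^ n -
      h.nu * (Dn * ∏ i ∈ range n, h.N.getD i 0)

instance (n Z K Dn : ℕ) (zl dl : List ℕ) (h : Hint) : Decidable (C2OK n Z K Dn zl dl h) := by
  unfold C2OK; infer_instance

theorem c2_sound {n Z K Dn : ℕ} {zl dl : List ℕ} {h : Hint} (hZ : 0 < Z)
    (a : ℕ → ℝ) (ha : ∀ i ∈ range n, 0 < a i) (hs : ∑ i ∈ range n, a i = 1)
    (hb : ∑ i ∈ range n, (zl.getD i 0 : ℝ) ^ 2 / a i ≤ (Z : ℝ) ^ 2)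
    (hv : ∑ i ∈ range n, a i * (dl.getD i 0 : ℝ) ^ 2 -
      (∑ i ∈ range n, a i * (dl.getD i 0 : ℝ)) ^ 2 ≤ K)
    (hp : 1 ≤ (Dn : ℝ) * ∏ i ∈ range n, a i) : ¬ C2OK n Z K Dn zl dl h := by
  rintro ⟨h2, h3, hν, h4, h5⟩
  have cb := c2_bound a (fun i => (zl.getD i 0 : ℝ)) (fun i => (dl.getD i 0 : ℝ))
    (fun i => (h.N.getD i 0 : ℝ)) (fun i => (c2a n zl dl h i : ℝ))
    (fun i => ((c2a n zl dl h i + c2g n dl h i : ℤ) : ℝ)) Z K Dn h.m1 h.m2 h.m3 h.nu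
    (by exact_mod_cast hZ) ha hs hb hv hp
    (fun i hi => by exact_mod_cast (h4 i (mem_range.mp hi)).1)
    (by exact_mod_cast h2) (by exact_mod_cast h3) (by exact_mod_cast hν)
    (fun i hi => by
      obtain ⟨k1, k2, k3⟩ := h4 i (mem_range.mp hi)
      refine ⟨by exact_mod_cast k2, by exact_mod_cast k3, ?_, ?_, ?_⟩
      · have : c2a n zl dl h i ≤ h.m1 * h.N.getD i 0 := min_le_left _ _
        exact_mod_cast this
      · have e1 : c2a n zl dl h i ≤ h.m2 * (zl.getD i 0 : ℤ) ^ 2 / h.N.getD i 0 - c2g n dl h i :=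
          min_le_right _ _
        have e2 := Int.ediv_mul_le (h.m2 * (zl.getD i 0 : ℤ) ^ 2) k1.ne'
        have e3 : (c2a n zl dl h i + c2g n dl h i) * h.N.getD i 0 ≤
            h.m2 * (zl.getD i 0 : ℤ) ^ 2 :=
          le_trans (mul_le_mul_of_nonneg_right (by linarith) k1.le) e2
        exact_mod_cast e3
      · simp only [c2g]; push_cast; ring)
  have h6 := (Int.cast_lt (R := ℝ)).mpr h5
  push_cast at h6 cb
  linarith

noncomputable def leaf2 (n w W PG Lz Z K Dn : ℕ) (zl : List ℕ) (seq : List (ℕ × ℕ))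
    (hints : List Hint) (z : Bool) (St _rem : ℕ) : Bool :=
  Bool.rec ((fun dl => Bool.rec
    (anyB (fun h => Bool.rec false (decide (C2OK n Z K Dn zl dl h))
      (Nat.beq (Nat.mod St W) h.key)) hints) true (anyB (csTest PG W Lz zl dl) seq))
      (digs w W n St)) true z

theorem rec_leaf2 (A B : Bool) (h : (Bool.rec (Bool.rec A true B) true false : Bool) = true) :
    B = true ∨ A = true := by
  cases A <;> cases B <;> simp_all

theorem rec_and (A B : Bool) (h : (Bool.rec false A B : Bool) = true) : A = true := by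
  cases A <;> cases B <;> simp_all

theorem leaf2_sound {n w W PG Lz Z K Dn : ℕ} {zl : List ℕ} {seq : List (ℕ × ℕ)}
    {hints : List Hint} {St r : ℕ} (hn : zl.length = n) (hW : 0 < W) (hZ : 0 < Z)
    (hL : Lz = ∑ i ∈ range n, zl.getD i 0) (hK : 0 < K)
    (hseq : ∀ p ∈ seq, 0 < p.2 ∧ PG ^ 2 * Z ^ 2 * (K + p.1 ^ 2) ≤ p.2 ^ 2)
    (a : ℕ → ℝ) (ha : ∀ i ∈ range n, 0 < a i) (hs : ∑ i ∈ range n, a i = 1)
    (hb : ∑ i ∈ range n, (zl.getD i 0 : ℝ) ^ 2 / a i ≤ (Z : ℝ) ^ 2)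
    (hv : ∑ i ∈ range n, a i * ((St >>> (w * i) % W : ℕ) : ℝ) ^ 2 -
      (∑ i ∈ range n, a i * ((St >>> (w * i) % W : ℕ) : ℝ)) ^ 2 ≤ K)
    (hp : 1 ≤ (Dn : ℝ) * ∏ i ∈ range n, a i) :
    leaf2 n w W PG Lz Z K Dn zl seq hints false St r ≠ true := by
  intro h
  have hv' : ∑ i ∈ range n, a i * ((digs w W n St).getD i 0 : ℝ) ^ 2 -
      (∑ i ∈ range n, a i * ((digs w W n St).getD i 0 : ℝ)) ^ 2 ≤ K := by
    rw [sum_congr rfl fun i hi => by rw [digs_getD w W n St i (mem_range.mp hi)],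
      sum_congr (f := fun i => a i * ((digs w W n St).getD i 0 : ℝ)) rfl fun i hi => by
        rw [digs_getD w W n St i (mem_range.mp hi)]]
    exact hv
  unfold leaf2 at h
  rcases rec_leaf2 _ _ h with h | h
  · obtain ⟨p, hp1, hp2⟩ := anyB_sound _ _ h
    exact csTest_sound hn hL hK (hseq p hp1).1 (hseq p hp1).2
      (fun i hi => by rw [digs_getD w W n St i hi]; exact (Nat.mod_lt _ hW).le) a ha hs hb hv' hp2
  · obtain ⟨p, -, hp2⟩ := anyB_sound _ _ h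
    exact c2_sound hZ a ha hs hb hv' hp (of_decide_eq_true (rec_and _ _ hp2))

theorem var_digits {n : ℕ} (a u d : ℕ → ℝ) (c S E : ℝ) (hS : 0 ≤ S)
    (ha : ∀ i ∈ range n, 0 < a i)
    (hs : ∑ i ∈ range n, a i = 1) (hu : ∑ i ∈ range n, a i * u i ^ 2 = 1)
    (hd : ∀ i ∈ range n, |d i - (c + S * u i)| ≤ E) :
    ∑ i ∈ range n, a i * d i ^ 2 - (∑ i ∈ range n, a i * d i) ^ 2 ≤ (S + E) ^ 2 := by
  have h1 : ∑ i ∈ range n, a i * (d i - c) ^ 2 ≤
      ∑ i ∈ range n, ((S ^ 2 + S * E) * (a i * u i ^ 2) + (S * E + E ^ 2) * a i) := by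
    refine sum_le_sum fun i hi => ?_
    have hai := ha i hi
    obtain ⟨e, he⟩ : ∃ e, e = d i - (c + S * u i) := ⟨_, rfl⟩
    have h2 := hd i hi
    rw [← he] at h2
    have e1 : d i - c = S * u i + e := by rw [he]; ring
    have h3 : e ^ 2 ≤ E ^ 2 := by
      rw [← sq_abs e]; exact pow_le_pow_left₀ (abs_nonneg _) h2 2
    have h4 : 2 * (u i * e) ≤ E * (u i ^ 2 + 1) := by
      have t1 : u i * e ≤ |u i| * E := by
        refine (le_abs_self _).trans ?_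
        rw [abs_mul]; exact mul_le_mul_of_nonneg_left h2 (abs_nonneg _)
      have t2 : 0 ≤ E := (abs_nonneg _).trans h2
      have t3 : 2 * |u i| ≤ u i ^ 2 + 1 := by nlinarith [sq_abs (u i), sq_nonneg (|u i| - 1)]
      nlinarith
    have h5 : (S * u i + e) ^ 2 ≤ (S ^ 2 + S * E) * u i ^ 2 + (S * E + E ^ 2) := by
      nlinarith [mul_le_mul_of_nonneg_left h4 hS]
    rw [e1]
    nlinarith [mul_le_mul_of_nonneg_left h5 hai.le]
  rw [sum_add_distrib, ← mul_sum, ← mul_sum, hs, hu] at h1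
  have e : ∑ i ∈ range n, a i * (d i - c) ^ 2 = ∑ i ∈ range n, a i * d i ^ 2 -
      2 * c * ∑ i ∈ range n, a i * d i + c ^ 2 * ∑ i ∈ range n, a i := by
    simp only [mul_sum, ← sum_add_distrib, ← sum_sub_distrib]
    exact sum_congr rfl fun i _ => by ring
  rw [e, hs] at h1
  nlinarith [sq_nonneg (∑ i ∈ range n, a i * d i - c)]

end Pool.Agent.MP_2877d0_al
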