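import Pool.Agent.MP_2877d0_al.Leaf

namespace Pool.Agent.MP_2877d0_al

open Finset

structure Cfg (e : ℕ → ℕ → ℝ) (Dn : ℕ) (a z z' : ℕ → ℝ) (μ : ℝ) : Prop where
  apos : ∀ i ∈ range 16, 0 < a i
  zne : ∀ i ∈ range 16, z i ≠ 0
  suma : ∑ i ∈ range 16, a i = 1
  sumb : ∑ i ∈ range 16, z i ^ 2 / a i = 1
  mean : ∑ i ∈ range 16, a i * (z' i / z i - μ) = 0
  var : ∑ i ∈ range 16, a i * (z' i / z i - μ) ^ 2 = 1
  proda : 1 ≤ (Dn : ℝ) * ∏ i ∈ range 16, a i
  prodb : 1 ≤ (Dn : ℝ) * ∏ i ∈ range 16, z i ^ 2 / a i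
  zl : ∃ x : ℕ → ℤ, ∀ i, i < 16 → z i = ∑ j ∈ range 15, x j * e j i
  zl' : ∃ x : ℕ → ℤ, ∀ i, i < 16 → z' i = ∑ j ∈ range 15, x j * e j i

theorem Cfg.neg {e : ℕ → ℕ → ℝ} {Dn : ℕ} {a z z' : ℕ → ℝ} {μ : ℝ} (h : Cfg e Dn a z z' μ) :
    Cfg e Dn a (fun i => -z i) (fun i => -z' i) μ where
  apos := h.apos
  zne := fun i hi => neg_ne_zero.mpr (h.zne i hi)
  suma := h.suma
  sumb := by simpa using h.sumb
  mean := by simpa only [neg_div_neg_eq] using h.mean
  var := by simpa only [neg_div_neg_eq] using h.var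
  proda := h.proda
  prodb := by simpa using h.prodb
  zl := by
    obtain ⟨x, hx⟩ := h.zl
    exact ⟨fun j => -x j, fun i hi => by simp [hx i hi]⟩
  zl' := by
    obtain ⟨x, hx⟩ := h.zl'
    exact ⟨fun j => -x j, fun i hi => by simp [hx i hi]⟩

def Killed (e : ℕ → ℕ → ℝ) (Dn key : ℕ) : Prop :=
  ∀ a z z' μ, Cfg e Dn a z z' μ → (∀ i, i < 16 → z i = ∑ j ∈ range 15,
    (((key >>> (80 * (31 + j)) % 2 ^ 80 : ℕ) - 2 ^ 79 : ℤ) : ℝ) * e j i) → False

def ep (Et U : List (List ℤ)) (k i : ℕ) : ℤ := ∑ j ∈ range 15, ent U k j * ent Et j i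

def Z2OK (Et U V rows : List (List ℤ)) (zeta amin : List ℕ) (key Lz : ℕ)
    (seq : List (ℕ × ℕ)) : Prop :=
  (∀ k, k < 15 → ∀ j, j < 15 → |ent U k j| ≤ 64 ∧
    ∑ l ∈ range 15, ent V k l * ent U l j = if k = j then 1 else 0) ∧
  (∀ k, k < 15 → ∀ i, i < 16 → |ent rows k i * ep Et U 0 i - 2 ^ 30 * ep Et U k i| +
    (|ent rows k i| + 2 ^ 30) * 960 ≤ |ep Et U 0 i| - 960) ∧
  (∀ i, i < 16 → (zeta.getD i 0 : ℤ) * 2 ^ 34 + 960 ≤ |ep Et U 0 i| ∧ 0 < amin.getD i 0 ∧
    amin.getD i 0 ≤ zeta.getD i 0 ∧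
    ((2 : ℤ) ^ 30 - amin.getD i 0) * (amin.getD i 0 * 2 ^ 30 - (zeta.getD i 0 : ℤ) ^ 2) <
      amin.getD i 0 * ((Lz : ℤ) - zeta.getD i 0) ^ 2) ∧
  zeta.length = 16 ∧ Lz = ∑ i ∈ range 16, zeta.getD i 0 ∧
  (∀ j, j < 15 → ((key >>> (80 * (31 + j)) % 2 ^ 80 : ℕ) - 2 ^ 79 : ℤ) = ent U 0 j) ∧
  (∀ p ∈ seq, 0 < p.2 ∧
    (2 ^ 48) ^ 2 * (2 ^ 30) ^ 2 * ((2 ^ 30 + 448) ^ 2 + p.1 ^ 2) ≤ p.2 ^ 2)

instance (Et U V rows : List (List ℤ)) (zeta amin : List ℕ) (key Lz : ℕ)
    (seq : List (ℕ × ℕ)) : Decidable (Z2OK Et U V rows zeta amin key Lz seq) := by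
  unfold Z2OK; infer_instance

noncomputable def lf2 (Lz Dn : ℕ) (zeta : List ℕ) (seq : List (ℕ × ℕ)) (hints : List Hint) :
    Bool → ℕ → ℕ → Bool :=
  leaf2 16 48 281474976710656 281474976710656 Lz 1073741824 1152922466679721984 Dn zeta seq hints

noncomputable def go2 (leaf : Bool → ℕ → ℕ → Bool) (lev : List (ℕ × ℕ × ℕ)) :
    Bool → ℕ → ℕ → Bool :=
  go 281474976710656 1048576 134217744 32 16 16 leaf lev

theorem level2 {e : ℕ → ℕ → ℝ} {Dn : ℕ} {Et U V rows : List (List ℤ)} {zeta amin Dl : List ℕ}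
    {key Lz bias : ℕ} {seq : List (ℕ × ℕ)} {hints : List Hint} {η ε : ℤ}
    {lev : List (ℕ × ℕ × ℕ)}
    (he : ∀ j, j < 15 → ∀ i, i < 16 → |2 ^ 64 * e j i - ent Et j i| ≤ 1)
    (h1 : Z2OK Et U V rows zeta amin key Lz seq)
    (h2 : LatOK 48 32 15 16 1 14 1048576 134217728 16 16 bias (2 ^ 36) (2 ^ 28) η ε rows Dl amin
      lev)
    (h3 : go2 (lf2 Lz Dn zeta seq hints) lev true bias 4611686018427387904 = true) :
    Killed e Dn key := by
  intro a z z' μ hc hz
  obtain ⟨k1, k2, k3, k4, k5, k6, k7⟩ := h1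
  obtain ⟨x', hx'⟩ := hc.zl'
  obtain ⟨E, hE⟩ : ∃ E : ℕ → ℕ → ℝ, E = fun k i => ∑ j ∈ range 15, (ent U k j : ℝ) * e j i :=
    ⟨_, rfl⟩
  have hz0 : ∀ i, i < 16 → z i = E 0 i := by
    intro i hi
    rw [hz i hi, hE]
    exact sum_congr rfl fun j hj => by rw [k6 j (mem_range.mp hj)]
  have hEa : ∀ k, k < 15 → ∀ i, i < 16 → |2 ^ 64 * E k i - ep Et U k i| ≤ ((960 : ℤ) : ℝ) := by
    intro k hk i hi
    have := digit_err (c := 15) (ent U k) (fun j => ent Et j i) (fun j => e j i) (2 ^ 64) 64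
      (fun j hj => (k1 k hk j hj).1) (fun j hj => he j hj i hi)
    rw [hE]; unfold ep
    refine this.trans (by norm_num)
  have hA : ∀ k, k < 15 → ∀ i, i < 16 → |2 ^ 30 * (E k i / z i) - ent rows k i| ≤ 1 := by
    intro k hk i hi
    have := ratio_appr (p := E k i) (q := z i) (S0 := 2 ^ 64) (S := 2 ^ 30) (Eu := 960)
      (A := ent rows k i) (by norm_num) (by norm_num) (hEa k hk i hi)
      (by rw [hz0 i hi]; exact hEa 0 (by norm_num) i hi) (hc.zne i (mem_range.mpr hi))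
      (k2 k hk i hi)
    exact_mod_cast this
  have hb : ∑ i ∈ range 16, (zeta.getD i 0 : ℝ) ^ 2 / a i ≤ ((1073741824 : ℕ) : ℝ) ^ 2 := by
    rw [← mul_one (((1073741824 : ℕ) : ℝ) ^ 2), ← hc.sumb, mul_sum]
    refine sum_le_sum fun i hi => ?_
    have hi' := mem_range.mp hi
    have t1 : (zeta.getD i 0 : ℝ) * 2 ^ 34 + 960 ≤ |(ep Et U 0 i : ℝ)| := by
      exact_mod_cast (k3 i hi').1
    have t2 := hEa 0 (by norm_num) i hi'
    rw [← hz0 i hi'] at t2
    have t3 := abs_sub_abs_le_abs_sub (ep Et U 0 i : ℝ) (2 ^ 64 * z i)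
    rw [abs_sub_comm, abs_mul, abs_of_pos (show (0 : ℝ) < 2 ^ 64 by norm_num)] at t3
    push_cast at t2 ⊢
    have t4 : (zeta.getD i 0 : ℝ) ≤ 1073741824 * |z i| := by linarith
    have t5 : (zeta.getD i 0 : ℝ) ^ 2 ≤ (1073741824 * |z i|) ^ 2 :=
      pow_le_pow_left₀ (Nat.cast_nonneg _) t4 2
    rw [mul_pow, sq_abs] at t5
    rw [← mul_div_assoc]
    exact div_le_div_of_nonneg_right t5 (hc.apos i hi).le
  have ham : ∀ i ∈ range 16, (amin.getD i 0 : ℝ) ≤ ((1073741824 : ℕ) : ℝ) * a i := by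
    intro i hi
    obtain ⟨-, t1, t2, t3⟩ := k3 i (mem_range.mp hi)
    refine amin_bound a (fun i => (zeta.getD i 0 : ℝ)) _ (by norm_num) hc.apos hc.suma hb i hi _
      (by exact_mod_cast t1) (by exact_mod_cast t2) ?_
    have t4 := (Int.cast_lt (R := ℝ)).mpr t3
    rw [k5] at t4
    push_cast at t4 ⊢
    norm_num at t4 ⊢
    exact t4
  obtain ⟨y, hy⟩ : ∃ y : ℕ → ℤ, y = fun k => ∑ j ∈ range 15, x' j * ent V j k := ⟨_, rfl⟩
  have hz' : ∀ i, i < 16 → z' i = ∑ k ∈ range 15, y k * E k i := by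
    intro i hi
    rw [hx' i hi, hy, hE]
    push_cast
    simp only [sum_mul]
    simp only [mul_sum]
    rw [sum_comm]
    refine sum_congr rfl fun j hj => ?_
    rw [sum_comm]
    have t : ∀ l ∈ range 15, ∑ k ∈ range 15, (x' j : ℝ) * ent V j k * (ent U k l * e l i) =
        if j = l then x' j * e l i else 0 := by
      intro l hl
      have t1 := (k1 j (mem_range.mp hj) l (mem_range.mp hl)).2
      have t2 : ∑ k ∈ range 15, (ent V j k : ℝ) * ent U k l = if j = l then 1 else 0 := by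
        have := congrArg (Int.cast : ℤ → ℝ) t1
        push_cast at this; exact this
      calc _ = x' j * e l i * ∑ k ∈ range 15, (ent V j k : ℝ) * ent U k l := by
            rw [mul_sum]; exact sum_congr rfl fun k _ => by ring
        _ = _ := by rw [t2]; split_ifs <;> simp
    rw [sum_congr rfl t, sum_ite_eq, if_pos hj]
  have hu : ∀ i, i < 16 → z' i / z i - μ =
      (y 0 - μ) + ∑ j ∈ range 14, y (1 + j) * (E (1 + j) i / z i) := by
    intro i hi
    have := hc.zne i (mem_range.mpr hi)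
    rw [hz' i hi, show (15 : ℕ) = 1 + 14 from rfl, sum_range_add, sum_range_one, ← hz0 i hi,
      add_div, sum_div, mul_div_assoc, div_self this]
    simp only [mul_div_assoc]; ring
  have h3' : go (2 ^ 48) 1048576 (134217728 + 16) (2 * 16) 16 16 (lf2 Lz Dn zeta seq hints) lev
      true bias 4611686018427387904 = true := h3
  rcases lattice_sound h2 h3' (fun k i => E k i / z i) (2 ^ 30) hA
    (fun k => if k = 0 then y 0 - μ else y k) y
    (fun j hj _ => if_neg (by omega)) (by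
      have t1 : ∑ i ∈ range 16, (amin.getD i 0 : ℝ) * (∑ k ∈ range 15,
          (if k = 0 then y 0 - μ else y k) * (E k i / z i)) ^ 2 ≤
          ∑ i ∈ range 16, ((1073741824 : ℕ) : ℝ) * (a i * (z' i / z i - μ) ^ 2) := by
        refine sum_le_sum fun i hi => ?_
        have hi' := mem_range.mp hi
        rw [hu i hi', show (15 : ℕ) = 1 + 14 from rfl, sum_range_add, sum_range_one, if_pos rfl,
          ← hz0 i hi', div_self (hc.zne i hi), mul_one, ← mul_assoc,
          sum_congr rfl fun j _ => by rw [if_neg (show 1 + j ≠ 0 by omega)]]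
        exact mul_le_mul_of_nonneg_right (ham i hi) (sq_nonneg _)
      rw [← mul_sum, hc.var] at t1
      push_cast at t1 ⊢
      linarith) with h0 | ⟨σ, hσ, hX, St, r, hl, hd⟩
  · have t : ∀ i ∈ range 16, z' i / z i - μ = y 0 - μ := by
      intro i hi
      rw [hu i (mem_range.mp hi), sum_eq_zero, add_zero]
      intro j hj
      rw [h0 j (mem_range.mp hj)]; simp
    have m1 := hc.mean
    have m2 := hc.var
    rw [sum_congr rfl fun i hi => by rw [t i hi], ← sum_mul, hc.suma, one_mul] at m1 m2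
    rw [m1] at m2; norm_num at m2
  · have hσ2 : (σ : ℝ) ^ 2 = 1 := by rcases hσ with h | h <;> rw [h] <;> norm_num
    have hσa : ∀ t : ℤ, |σ * t| = |t| := by
      intro t; rcases hσ with h | h <;> rw [h] <;> simp
    have hv := var_digits a (fun i => σ * (z' i / z i - μ))
      (fun i => ((St >>> (48 * i) % 281474976710656 : ℕ) : ℝ))
      (2 ^ 47 - 2 ^ 30 * (σ * (y 0 - μ))) (2 ^ 30) 448 (by norm_num) hc.apos hc.suma
      (by simp only [mul_pow, hσ2, one_mul]; exact hc.var)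
      (fun i hi => by
        have hi' := mem_range.mp hi
        have t1 := digit_err (c := 14) (fun j => σ * y (1 + j)) (fun j => ent rows (1 + j) i)
          (fun j => E (1 + j) i / z i) (2 ^ 30) 32
          (fun j hj => by rw [hσa]; exact hX j hj) (fun j hj => hA _ (by omega) i hi')
        have t2 := congrArg (Int.cast : ℤ → ℝ) (hd i (by omega))
        rw [Int.cast_natCast, Int.cast_add] at t2
        have t3 : ((St >>> (48 * i) % 281474976710656 : ℕ) : ℝ) =
            ((St >>> (48 * i) % 2 ^ 48 : ℕ) : ℝ) := by norm_num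
        have t4 : (σ : ℝ) * (z' i / z i - μ) = σ * (y 0 - μ) +
            ∑ j ∈ range 14, ((σ * y (1 + j) : ℤ) : ℝ) * (E (1 + j) i / z i) := by
          rw [hu i hi', mul_add, mul_sum]
          push_cast
          simp only [mul_assoc]
        simp only [t3, t2, t4]
        rw [abs_sub_comm] at t1
        refine le_trans (le_of_eq (congrArg abs ?_)) (t1.trans (by norm_num))
        norm_num; ring)
    refine leaf2_sound (K := 1152922466679721984) (Z := 1073741824) (PG := 281474976710656)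
      k4 (by norm_num) (by norm_num) k5 (by norm_num)
      (fun p hp => by have := k7 p hp; norm_num at this ⊢; exact this) a hc.apos hc.suma hb
      (hv.trans (by norm_num)) hc.proda hl

def Z1OK (rows : List (List ℤ)) : Prop :=
  ∀ k, k < 15 → ∀ j, j < 15 → ent rows k (31 + j) = if k = j then 1 else 0

instance (rows : List (List ℤ)) : Decidable (Z1OK rows) := by unfold Z1OK; infer_instance

noncomputable def lf1 (keys : List ℕ) : Bool → ℕ → ℕ → Bool :=
  leaf1 16 80 1208925819614629174706176 604462909807314587353088 18446744073709559296 keys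

noncomputable def go1 (leaf : Bool → ℕ → ℕ → Bool) (lev : List (ℕ × ℕ × ℕ)) :
    Bool → ℕ → ℕ → Bool :=
  go 1208925819614629174706176 1048576 576460752303423504 32 16 16 leaf lev

theorem level1 {e : ℕ → ℕ → ℝ} {Dn : ℕ} {rows : List (List ℤ)} {Dl keys : List ℕ}
    {bias : ℕ} {η ε : ℤ} {lev : List (ℕ × ℕ × ℕ)} (hD : (Dn : ℝ) ≤ (2178 / 100) ^ 16)
    (he : ∀ j, j < 15 → ∀ i, i < 16 → |2 ^ 64 * e j i - ent rows j i| ≤ 1)
    (h1 : Z1OK rows)
    (h2 : LatOK 80 47 15 16 0 15 1048576 576460752303423488 16 16 bias (2 ^ 64) (2 ^ 66) η ε rows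
      Dl (List.replicate 16 1) lev)
    (h3 : go1 (lf1 keys) lev true bias 866646483326948450 = true)
    (h4 : ∀ key ∈ keys, Killed e Dn key) {a z z' : ℕ → ℝ} {μ : ℝ} : ¬ Cfg e Dn a z z' μ := by
  intro hc
  obtain ⟨x, hx⟩ := hc.zl
  have l1 : ∑ i ∈ range 16, |z i| ≤ 1 := by
    have : ∑ i ∈ range 16, |z i| ≤ ∑ i ∈ range 16, (a i / 2 + z i ^ 2 / a i / 2) := by
      refine sum_le_sum fun i hi => ?_
      have h0 := hc.apos i hi
      have e1 : a i / 2 + z i ^ 2 / a i / 2 - |z i| = (a i - |z i|) ^ 2 / (2 * a i) := by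
        rw [← sq_abs (z i)]; field_simp; ring
      have : 0 ≤ (a i - |z i|) ^ 2 / (2 * a i) := by positivity
      linarith
    rw [sum_add_distrib, ← sum_div, ← sum_div, hc.suma, hc.sumb] at this
    linarith
  have l2 : 1 ≤ (2178 / 100 : ℝ) ^ 16 * ∏ i ∈ range 16, |z i| := by
    have p0 : 0 ≤ ∏ i ∈ range 16, |z i| := prod_nonneg fun i _ => abs_nonneg _
    have p1 : ((Dn : ℝ) * ∏ i ∈ range 16, |z i|) ^ 2 =
        ((Dn : ℝ) * ∏ i ∈ range 16, a i) * ((Dn : ℝ) * ∏ i ∈ range 16, z i ^ 2 / a i) := by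
      rw [mul_pow, ← prod_pow, mul_mul_mul_comm, ← prod_mul_distrib, sq (Dn : ℝ)]
      refine congrArg _ ?_
      exact prod_congr rfl fun i hi => by
        have := hc.apos i hi
        rw [sq_abs]; field_simp
    have p2 : 1 ≤ ((Dn : ℝ) * ∏ i ∈ range 16, |z i|) ^ 2 := by
      rw [p1]; exact one_le_mul_of_one_le_of_one_le hc.proda hc.prodb
    have p3 : 1 ≤ (Dn : ℝ) * ∏ i ∈ range 16, |z i| :=
      (one_le_sq_iff₀ (by positivity)).mp p2
    exact p3.trans (mul_le_mul_of_nonneg_right hD p0)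
  have l3 := sumsq_le (fun i => |z i|) (fun i hi => abs_pos.mpr (hc.zne i hi)) l1 l2
  simp only [sq_abs] at l3
  have h3' : go (2 ^ 80) 1048576 (576460752303423488 + 16) (2 * 16) 16 16 (lf1 keys) lev
      true bias 866646483326948450 = true := h3
  rcases lattice_sound h2 h3' e (2 ^ 64) he (fun k => x k) x (fun _ _ _ => rfl) (by
      have t1 : ∑ i ∈ range 16, ((List.replicate 16 1).getD i 0 : ℕ) *
          (∑ k ∈ range 15, (x k : ℝ) * e k i) ^ 2 = ∑ i ∈ range 16, z i ^ 2 := by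
        refine sum_congr rfl fun i hi => ?_
        rw [← hx i (mem_range.mp hi), List.getD_replicate _ (mem_range.mp hi)]; simp
      rw [t1]
      push_cast
      linarith) with h0 | ⟨σ, hσ, hX, St, r, hl, hd⟩
  · apply hc.zne 0 (by simp)
    rw [hx 0 (by norm_num), sum_eq_zero]
    intro j hj
    have := h0 j (mem_range.mp hj)
    rw [zero_add] at this
    rw [this]; simp
  · simp only [zero_add] at hX hd
    have hσa : ∀ t : ℤ, |σ * t| = |t| := by
      intro t; rcases hσ with h | h <;> rw [h] <;> simp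
    have hσz : ∀ i, i < 16 → σ * z i = ∑ j ∈ range 15, ((σ * x j : ℤ) : ℝ) * e j i := by
      intro i hi
      rw [hx i hi, mul_sum]; push_cast; simp only [mul_assoc]
    rcases leaf1_sound hl with hs | hk
    · have t1 : ∑ i ∈ range 16, (|((St >>> (80 * i) % 1208925819614629174706176 : ℕ) : ℝ) -
          604462909807314587353088|) ≤ ∑ i ∈ range 16, (2 ^ 64 * |z i| + 480) := by
        refine sum_le_sum fun i hi => ?_
        have hi' := mem_range.mp hi
        have t1 := digit_err (c := 15) (fun j => σ * x j) (fun j => ent rows j i)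
          (fun j => e j i) (2 ^ 64) 32
          (fun j hj => by rw [hσa]; exact hX j hj) (fun j hj => he _ hj i hi')
        rw [← hσz i hi'] at t1
        have t2 := congrArg (Int.cast : ℤ → ℝ) (hd i (by omega))
        rw [Int.cast_natCast, Int.cast_add] at t2
        have t3 : ((St >>> (80 * i) % 1208925819614629174706176 : ℕ) : ℝ) =
            ((St >>> (80 * i) % 2 ^ 80 : ℕ) : ℝ) := by norm_num
        have t4 : |2 ^ 64 * (σ * z i)| = 2 ^ 64 * |z i| := by
          rcases hσ with h | h <;> rw [h] <;> simp [abs_mul]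
        have t5 := abs_sub_abs_le_abs_sub
          ((∑ j ∈ range 15, σ * x j * ent rows j i : ℤ) : ℝ) (2 ^ 64 * (σ * z i))
        rw [abs_sub_comm, t4] at t5
        rw [t3, t2]
        have t6 : ((((576460752303423488 * 1048576 : ℕ) : ℤ) : ℝ) +
            ((∑ j ∈ range 15, σ * x j * ent rows j i : ℤ) : ℝ) - 604462909807314587353088) =
            ((∑ j ∈ range 15, σ * x j * ent rows j i : ℤ) : ℝ) := by norm_num
        rw [t6]
        norm_num at t1 t5 ⊢
        linarith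
      rw [sum_add_distrib, ← mul_sum] at t1
      have t2 := (Int.cast_lt (R := ℝ)).mpr hs
      simp only [Int.cast_sum, Int.cast_abs, Int.cast_sub, Int.cast_natCast] at t2
      norm_num at t1 t2
      linarith
    · have hkey : ∀ i, i < 16 → σ * z i = ∑ j ∈ range 15,
          (((St >>> (80 * (31 + j)) % 2 ^ 80 : ℕ) - 2 ^ 79 : ℤ) : ℝ) * e j i := by
        intro i hi
        rw [hσz i hi]
        refine sum_congr rfl fun j hj => ?_
        have hj' := mem_range.mp hj
        rw [hd (31 + j) (by omega), sum_congr rfl fun k hk => by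
          rw [h1 k (mem_range.mp hk) j hj']]
        simp only [mul_ite, mul_one, mul_zero, sum_ite_eq', hj, if_true]
        refine congrArg (fun t : ℤ => (t : ℝ) * e j i) ?_
        norm_num
      rcases hσ with h | h
      · exact h4 St hk a z z' μ hc fun i hi => by rw [← hkey i hi, h]; simp
      · exact h4 St hk a _ _ μ hc.neg fun i hi => by rw [← hkey i hi, h]; simp

end Pool.Agent.MP_2877d0_al
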