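import Pool.Agent.MP_2877d0_al.Order
import Pool.Agent.MP_2877d0_al.Check0
import Pool.Agent.MP_2877d0_al.Run1
import Pool.Agent.MP_2877d0_al.Z0
import Pool.Agent.MP_2877d0_al.Z1
import Pool.Agent.MP_2877d0_al.Z2
import Pool.Agent.MP_2877d0_al.Z3
import Pool.Agent.MP_2877d0_al.Z4
import Pool.Agent.MP_2877d0_al.Z5
import Pool.Agent.MP_2877d0_al.Z6
import Pool.Agent.MP_2877d0_al.Z7
import Pool.Agent.MP_2877d0_al.Z8
import Pool.Agent.MP_2877d0_al.Z9
import Pool.Agent.MP_2877d0_al.Z10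
import Pool.Agent.MP_2877d0_al.Z11
import Pool.Agent.MP_2877d0_al.Z12
import Pool.Agent.MP_2877d0_al.Z13
import Pool.Agent.MP_2877d0_al.Z14
import Pool.Agent.MP_2877d0_al.Z15
import Pool.Agent.MP_2877d0_al.Z16
import Pool.Agent.MP_2877d0_al.Z17
import Pool.Agent.MP_2877d0_al.Z18
import Pool.Agent.MP_2877d0_al.Z19

namespace Pool.Agent.MP_2877d0_al

open Finset Matrix

theorem InO.sum {n : ℕ} {B : Matrix (Fin n) (Fin n) ℝ} {ι : Type} (s : Finset ι)
    (f : ι → Fin n → ℝ) (h : ∀ k ∈ s, InO B (f k)) : InO B (fun i => ∑ k ∈ s, f k i) := by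
  classical
  induction s using Finset.induction_on with
  | empty => simp only [sum_empty]; exact InO.zero B
  | insert a s ha ih =>
    simp only [sum_insert ha]
    exact (h a (mem_insert_self a s)).add (ih fun k hk => h k (mem_insert_of_mem hk))

theorem InO.of_cols {n : ℕ} {B : Matrix (Fin n) (Fin n) ℝ} {y : Fin n → ℝ}
    (h : ∀ j, InO B (fun i => y i * B i j)) {x : Fin n → ℝ} (hx : InO B x) :
    InO B (fun i => y i * x i) := by
  obtain ⟨v, rfl⟩ := hx
  have e : (fun i => y i * (B *ᵥ fun j => (v j : ℝ)) i) =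
      fun i => ∑ j, (v j : ℝ) * (y i * B i j) := by
    funext i
    simp only [mulVec, dotProduct, mul_sum]
    exact sum_congr rfl fun j _ => by ring
  rw [e]
  exact InO.sum _ _ fun j _ => (h j).zsmul (v j)

theorem closed_mul {B : Matrix (Fin 16) (Fin 16) ℝ} {θ ω : Fin 16 → ℝ}
    (hB : ∀ i j, B i j = θ i ^ (j.val % 8) * ω i ^ (j.val / 8))
    (hf : ∀ i, ∑ a ∈ range 9, (fl.getD a 0 : ℝ) * θ i ^ a = 0)
    (hω : ∀ i, ω i ^ 2 = (∑ a ∈ range 8, (tl.getD a 0 : ℝ) * θ i ^ a) * ω i -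
      ∑ a ∈ range 8, (ml.getD a 0 : ℝ) * θ i ^ a) :
    InO B 1 ∧ ∀ x y, InO B x → InO B y → InO B (x * y) := by
  have col : ∀ a, a < 8 → ∀ b, b < 2 → InO B (fun i => θ i ^ a * ω i ^ b) := by
    intro a ha b hb
    have := InO.col B ⟨a + 8 * b, by omega⟩
    simp only [hB] at this
    rwa [show (a + 8 * b) % 8 = a by omega, show (a + 8 * b) / 8 = b by omega] at this
  have poly : ∀ (c : ℕ → ℤ) (b : ℕ), b < 2 →
      InO B (fun i => ∑ a ∈ range 8, (c a : ℝ) * (θ i ^ a * ω i ^ b)) := fun c b hb =>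
    InO.sum _ _ fun a ha => (col a (mem_range.mp ha) b hb).zsmul (c a)
  have mθ : ∀ x, InO B x → InO B (fun i => θ i * x i) := by
    intro x hx
    refine InO.of_cols (fun j => ?_) hx
    simp only [hB]
    have hb : j.val / 8 < 2 := by omega
    rcases Nat.lt_or_ge (j.val % 8) 7 with h | h
    · have := col (j.val % 8 + 1) (by omega) _ hb
      simpa only [pow_succ', mul_assoc] using this
    · have h7 : j.val % 8 = 7 := by omega
      have e : (fun i => θ i * (θ i ^ (j.val % 8) * ω i ^ (j.val / 8))) = fun i =>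
          ∑ a ∈ range 8, ((-fl.getD a 0 : ℤ) : ℝ) * (θ i ^ a * ω i ^ (j.val / 8)) := by
        funext i
        have := hf i
        rw [sum_range_succ] at this
        have e8 : (fl.getD 8 0 : ℝ) = 1 := by simp [fl]
        rw [e8] at this
        simp only [Int.cast_neg, neg_mul, ← mul_assoc, sum_neg_distrib, ← sum_mul, h7]
        linear_combination ω i ^ (j.val / 8) * this
      rw [e]
      exact poly _ _ hb
  have mθa : ∀ (a : ℕ) x, InO B x → InO B (fun i => θ i ^ a * x i) := by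
    intro a x hx
    induction a with
    | zero => simpa using hx
    | succ a ih => simpa only [pow_succ', mul_assoc] using mθ _ ih
  have w2 : InO B (fun i => ω i ^ 2) := by
    have e : (fun i => ω i ^ 2) =
        (fun i => ∑ a ∈ range 8, (tl.getD a 0 : ℝ) * (θ i ^ a * ω i ^ 1)) +
        fun i => ∑ a ∈ range 8, ((-ml.getD a 0 : ℤ) : ℝ) * (θ i ^ a * ω i ^ 0) := by
      funext i
      rw [hω i]
      simp only [Pi.add_apply, Int.cast_neg, neg_mul, ← mul_assoc, sum_neg_distrib, ← sum_mul,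
        pow_one, pow_zero, mul_one]
      ring
    rw [e]
    exact (poly _ 1 (by norm_num)).add (poly _ 0 (by norm_num))
  have mω : ∀ x, InO B x → InO B (fun i => ω i * x i) := by
    intro x hx
    refine InO.of_cols (fun j => ?_) hx
    simp only [hB]
    rcases Nat.lt_or_ge j.val 8 with h | h
    · have := col (j.val % 8) (by omega) 1 (by norm_num)
      rw [Nat.div_eq_of_lt h]
      simpa only [pow_one, pow_zero, mul_one, mul_comm] using this
    · have := mθa (j.val % 8) _ w2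
      rw [show j.val / 8 = 1 by omega]
      have e : (fun i => ω i * (θ i ^ (j.val % 8) * ω i ^ 1)) =
          fun i => θ i ^ (j.val % 8) * ω i ^ 2 := by funext i; ring
      rw [e]; exact this
  refine ⟨?_, fun x y hx hy => ?_⟩
  · have := col 0 (by norm_num) 0 (by norm_num)
    simp only [pow_zero, mul_one] at this
    exact this
  · have : InO B (fun i => y i * x i) := by
      refine InO.of_cols (fun j => ?_) hx
      simp only [hB]
      rcases Nat.lt_or_ge j.val 8 with h | h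
      · rw [Nat.div_eq_of_lt h]
        simpa only [pow_zero, mul_one, mul_comm] using mθa (j.val % 8) _ hy
      · rw [show j.val / 8 = 1 by omega]
        have e : (fun i => y i * (θ i ^ (j.val % 8) * ω i ^ 1)) =
            fun i => θ i ^ (j.val % 8) * (ω i * y i) := by funext i; ring
        rw [e]; exact mθa _ _ (mω _ hy)
    rw [mul_comm x y]; exact this

theorem exists_B : ∃ B : Matrix (Fin 16) (Fin 16) ℝ, (InO B 1 ∧
    ∀ x y, InO B x → InO B y → InO B (x * y)) ∧ (∀ i, B i 0 = 1) ∧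
    ∀ i j : Fin 16, |2 ^ 128 * B i j - ent Bt i j| ≤ 2 ^ 37 := by
  choose θ ω h1 h2 h3 using fun i : Fin 16 => row_exists (ck_rows i i.2)
  refine ⟨Matrix.of fun i j => θ i ^ (j.val % 8) * ω i ^ (j.val / 8),
    closed_mul (fun _ _ => rfl) h1 h2, fun i => by simp, fun i j => ?_⟩
  have := h3 i j j.2
  simp only [Int.cast_pow, Int.cast_ofNat] at this
  exact this

/-- integer matrix from a list of rows -/
def mat (M : List (List ℤ)) : Matrix (Fin 16) (Fin 16) ℤ := Matrix.of fun i j => ent M i j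

theorem gram_close {B : Matrix (Fin 16) (Fin 16) ℝ}
    (h : ∀ i j : Fin 16, |2 ^ 128 * B i j - ent Bt i j| ≤ 2 ^ 37) (j k : Fin 16) :
    |(Bᵀ * B) j k - ent Gt j k| ≤ 1 / 2 ^ 60 := by
  have h1 : |∑ i : Fin 16, (ent Bt i j : ℝ) * ent Bt i k - 2 ^ 256 * ent Gt j k| ≤ 2 ^ 190 := by
    have := (Int.cast_le (R := ℝ)).mpr (ck_G j j.2 k k.2)
    simp only [Int.cast_abs, Int.cast_sub, Int.cast_mul, Int.cast_sum, Int.cast_pow,
      Int.cast_ofNat] at this
    rw [Fin.sum_univ_eq_sum_range (fun i => (ent Bt i j : ℝ) * ent Bt i k) 16]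
    exact this
  have h2 : |∑ i : Fin 16, (2 ^ 128 * B i j) * (2 ^ 128 * B i k) -
      ∑ i : Fin 16, (ent Bt i j : ℝ) * ent Bt i k| ≤ 16 * 2 ^ 180 := by
    rw [← sum_sub_distrib]
    refine (abs_sum_le_sum_abs _ _).trans ?_
    refine (sum_le_card_nsmul _ _ (2 ^ 180) fun i _ => ?_).trans (by simp)
    have a1 := h i j
    have a3 := h i k
    have a2 : |(ent Bt i j : ℝ)| ≤ 2 ^ 141 := by exact_mod_cast (ck_B i i.2 j j.2).1
    have a4 : |(ent Bt i k : ℝ)| ≤ 2 ^ 141 := by exact_mod_cast (ck_B i i.2 k k.2).1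
    have e : (2 ^ 128 * B i j) * (2 ^ 128 * B i k) - (ent Bt i j : ℝ) * ent Bt i k =
        (2 ^ 128 * B i j - ent Bt i j) * (2 ^ 128 * B i k - ent Bt i k) +
        (2 ^ 128 * B i j - ent Bt i j) * ent Bt i k +
        ent Bt i j * (2 ^ 128 * B i k - ent Bt i k) := by ring
    have t1 := mul_le_mul a1 a3 (abs_nonneg _) (by norm_num)
    have t2 := mul_le_mul a1 a4 (abs_nonneg _) (by norm_num)
    have t3 := mul_le_mul a2 a3 (abs_nonneg _) (by norm_num)
    rw [← abs_mul] at t1 t2 t3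
    rw [e]
    refine (abs_add_three _ _ _).trans ?_
    linarith
  have e : (Bᵀ * B) j k - ent Gt j k = ((∑ i : Fin 16, (2 ^ 128 * B i j) * (2 ^ 128 * B i k) -
      ∑ i : Fin 16, (ent Bt i j : ℝ) * ent Bt i k) + (∑ i : Fin 16, (ent Bt i j : ℝ) * ent Bt i k -
      2 ^ 256 * ent Gt j k)) / 2 ^ 256 := by
    have : ∑ i : Fin 16, (2 ^ 128 * B i j) * (2 ^ 128 * B i k) = 2 ^ 256 * (Bᵀ * B) j k := by
      rw [mul_apply, mul_sum]
      exact sum_congr rfl fun i _ => by rw [transpose_apply]; ring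
    rw [this]; ring
  rw [e, abs_div, abs_of_pos (show (0 : ℝ) < 2 ^ 256 by positivity),
    div_le_iff₀ (by positivity)]
  exact (abs_add_le _ _).trans ((add_le_add h2 h1).trans (by norm_num))

theorem GH : mat Gt * mat Ht = (780 : ℤ) • (1 : Matrix (Fin 16) (Fin 16) ℤ) := by
  ext j k
  rw [mul_apply]
  simp only [mat, of_apply]
  rw [Fin.sum_univ_eq_sum_range (fun l => ent Gt j l * ent Ht l k) 16, ck_H j j.2 k k.2]
  simp [one_apply, Fin.ext_iff]

theorem GH_real : (mat Gt).map (Int.cast : ℤ → ℝ) * (mat Ht).map (Int.cast : ℤ → ℝ) =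
    ((780 : ℤ) : ℝ) • (1 : Matrix (Fin 16) (Fin 16) ℝ) := by
  have := congrArg (fun M : Matrix _ _ ℤ => M.map (Int.castRingHom ℝ)) GH
  simp only [Matrix.map_mul] at this
  refine this.trans ?_
  ext j k
  rw [map_apply, Matrix.smul_apply, Matrix.smul_apply, one_apply, one_apply]
  split_ifs <;> simp

theorem det_ne {B : Matrix (Fin 16) (Fin 16) ℝ}
    (h : ∀ i j : Fin 16, |2 ^ 128 * B i j - ent Bt i j| ≤ 2 ^ 37) : B.det ≠ 0 := by
  have h1 : ∀ j k, |(Bᵀ * B * (mat Ht).map (Int.cast : ℤ → ℝ)) j k -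
      (if j = k then 780 else 0)| ≤ 1 := by
    intro j k
    have e1 := congrFun (congrFun GH_real j) k
    rw [mul_apply] at e1
    have e2 : (if j = k then (780 : ℝ) else 0) =
        ∑ l, (mat Gt).map (Int.cast : ℤ → ℝ) j l * (mat Ht).map (Int.cast : ℤ → ℝ) l k := by
      rw [e1]; simp [one_apply]
    rw [e2, mul_apply, ← sum_sub_distrib]
    refine (abs_sum_le_sum_abs _ _).trans ?_
    refine (sum_le_card_nsmul _ _ (1 / 2 ^ 60 * 2 ^ 28) fun l _ => ?_).trans (by norm_num)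
    rw [← sub_mul, abs_mul]
    refine mul_le_mul (gram_close h j l) ?_ (abs_nonneg _) (by norm_num)
    have := (ck_B l l.2 k k.2).2
    simp only [mat, map_apply, of_apply]
    exact_mod_cast this
  have h2 : (Bᵀ * B * (mat Ht).map (Int.cast : ℤ → ℝ)).det ≠ 0 := by
    refine det_ne_zero_of_sum_row_lt_diag fun k => ?_
    have t1 := h1 k k
    rw [if_pos rfl] at t1
    have t2 : ∑ j ∈ univ.erase k, ‖(Bᵀ * B * (mat Ht).map (Int.cast : ℤ → ℝ)) k j‖ ≤ 15 := by
      refine (sum_le_card_nsmul _ _ 1 fun j hj => ?_).trans (by simp)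
      have := h1 k j
      rwa [if_neg (ne_of_mem_erase hj).symm, sub_zero] at this
    have t3 := abs_le.mp t1
    rw [Real.norm_eq_abs (_ : ℝ)]
    have := le_abs_self ((Bᵀ * B * (mat Ht).map (Int.cast : ℤ → ℝ)) k k)
    linarith [t3.1]
  intro hc
  apply h2
  rw [det_mul, det_mul, hc, mul_zero, zero_mul]

theorem gram_eq {B : Matrix (Fin 16) (Fin 16) ℝ} (ho : IsOrd B)
    (h : ∀ i j : Fin 16, |2 ^ 128 * B i j - ent Bt i j| ≤ 2 ^ 37) :
    Bᵀ * B = (mat Gt).map (Int.cast : ℤ → ℝ) := by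
  ext j k
  obtain ⟨t, ht⟩ := ho.trace_int (ho.mul _ _ (InO.col B j) (InO.col B k))
  have e : (Bᵀ * B) j k = t := by rw [← ht, mul_apply]; rfl
  have h1 := gram_close h j k
  rw [e] at h1 ⊢
  have h2 : |(t : ℝ) - ent Gt j k| < 1 := h1.trans_lt (by norm_num)
  have h3 : |t - ent Gt j k| < 1 := by exact_mod_cast h2
  have h4 : t = ent Gt j k := by have := abs_lt.mp h3; omega
  rw [h4]; rfl

theorem det_G : (mat Gt).det = 2562271012454400000000 := by
  obtain ⟨h1, h2, h3⟩ := ck_T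
  have e : ∀ k j : Fin 16, (mat Tt * mat Gt) k j =
      ∑ l ∈ range 16, ent Tt k l * ent Gt l j := by
    intro k j
    rw [mul_apply, ← Fin.sum_univ_eq_sum_range (fun l => ent Tt k l * ent Gt l j) 16]; rfl
  have d1 : (mat Tt * mat Gt).det =
      ∏ k ∈ range 16, ∑ l ∈ range 16, ent Tt k l * ent Gt l k := by
    rw [det_of_isUpperTriangular (fun k j hkj => by rw [e]; exact (h1 k k.2 j j.2).2 hkj),
      ← Fin.prod_univ_eq_prod_range (fun k => ∑ l ∈ range 16, ent Tt k l * ent Gt l k) 16]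
    exact prod_congr rfl fun k _ => e k k
  have d2 : (mat Tt).det = ∏ k ∈ range 16, ent Tt k k := by
    rw [det_of_isLowerTriangular (mat Tt)
      (fun (k j : Fin 16) hkj => (h1 k k.2 j j.2).1 hkj),
      ← Fin.prod_univ_eq_prod_range (fun k => ent Tt k k) 16]; rfl
  rw [det_mul, d2, h2, mul_comm] at d1
  exact mul_right_cancel₀ h3 d1

theorem no_subset {B : Matrix (Fin 16) (Fin 16) ℝ}
    (h : ∀ i j : Fin 16, |2 ^ 128 * B i j - ent Bt i j| ≤ 2 ^ 37) (S : Finset (Fin 16))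
    (h0 : S.Nonempty) (h1 : S ≠ univ) (t : ℤ) : ∑ i ∈ S, B i 8 ≠ t := by
  intro ht
  have k := subTest_sound (allSub_sound _ _ _ _ ck_sub (fun i => ∃ hi : i < 16, ⟨i, hi⟩ ∈ S))
  rw [ck_eta.1, zero_add, zero_add] at k
  have e1 : ∀ f : ℕ → ℕ, (∑ i ∈ range 16, if (∃ hi : i < 16, ⟨i, hi⟩ ∈ S) then f i else 0) =
      ∑ i ∈ S, f i := by
    intro f
    rw [← Fin.sum_univ_eq_sum_range
      (fun i => if (∃ hi : i < 16, (⟨i, hi⟩ : Fin 16) ∈ S) then f i else 0) 16]
    simp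
  rw [e1 (fun _ => 1), e1 (fun i => etaL.getD i 0)] at k
  simp only [sum_const, smul_eq_mul, mul_one] at k
  have c0 : S.card ≠ 0 := card_ne_zero.mpr h0
  have c1 : S.card < 16 := by simpa using card_lt_card (ssubset_univ_iff.mpr h1)
  rcases k with k | k | k
  · exact c0 k
  · omega
  obtain ⟨s, hs⟩ : ∃ s, s = ∑ i ∈ S, etaL.getD i 0 := ⟨_, rfl⟩
  rw [← hs] at k
  have e2 : (s : ℤ) = ∑ i ∈ S, ent Bt i 8 + S.card * (8 * 2 ^ 128) := by
    rw [hs]; push_cast
    rw [sum_congr rfl fun (i : Fin 16) _ => ck_eta.2 i i.2, sum_add_distrib, sum_const, nsmul_eq_mul]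
    norm_num
  have e3 : |2 ^ 128 * (t : ℝ) - ((∑ i ∈ S, ent Bt i 8 : ℤ) : ℝ)| ≤ 16 * 2 ^ 37 := by
    rw [← ht, mul_sum, Int.cast_sum, ← sum_sub_distrib]
    refine (abs_sum_le_sum_abs _ _).trans ?_
    refine (sum_le_card_nsmul _ _ (2 ^ 37) fun i _ => h i 8).trans ?_
    rw [nsmul_eq_mul]
    have : (S.card : ℝ) ≤ 16 := by exact_mod_cast c1.le
    linarith
  have e4 : |2 ^ 128 * t - ∑ i ∈ S, ent Bt i 8| ≤ 16 * 2 ^ 37 := by exact_mod_cast e3
  have e5 := abs_le.mp e4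
  omega

/-- extension of a vector to all natural indices -/
def xt (f : Fin 16 → ℝ) (i : ℕ) : ℝ := if h : i < 16 then f ⟨i, h⟩ else 0

theorem xt_val (f : Fin 16 → ℝ) (i : Fin 16) : xt f i = f i := by simp [xt]

theorem xt_lt (f : Fin 16 → ℝ) {i : ℕ} (hi : i < 16) : xt f i = f ⟨i, hi⟩ := by simp [xt, hi]

noncomputable def eB (B : Matrix (Fin 16) (Fin 16) ℝ) (j : ℕ) : ℕ → ℝ :=
  xt fun i => (∑ c : Fin 16, (ent Kt j c : ℝ) * B i c) / 780

theorem eB_close {B : Matrix (Fin 16) (Fin 16) ℝ}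
    (h : ∀ i j : Fin 16, |2 ^ 128 * B i j - ent Bt i j| ≤ 2 ^ 37) :
    ∀ j, j < 15 → ∀ i, i < 16 → |2 ^ 64 * eB B j i - ent rows1 j i| ≤ 1 := by
  intro j hj i hi
  have h1 : |780 * 2 ^ 64 * (ent rows1 j i : ℝ) -
      ∑ d : Fin 16, (ent Kt j d : ℝ) * ent Bt i d| ≤ 2 ^ 73 := by
    have := (Int.cast_le (R := ℝ)).mpr (ck_K j hj i hi).2.2
    simp only [Int.cast_abs, Int.cast_sub, Int.cast_mul, Int.cast_sum, Int.cast_pow,
      Int.cast_ofNat] at this
    rw [Fin.sum_univ_eq_sum_range (fun d => (ent Kt j d : ℝ) * ent Bt i d) 16]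
    exact this
  have h2 : |∑ d : Fin 16, (ent Kt j d : ℝ) * (2 ^ 128 * B ⟨i, hi⟩ d) -
      ∑ d : Fin 16, (ent Kt j d : ℝ) * ent Bt i d| ≤ 16 * (2 ^ 16 * 2 ^ 37) := by
    rw [← sum_sub_distrib]
    refine (abs_sum_le_sum_abs _ _).trans ?_
    refine (sum_le_card_nsmul _ _ (2 ^ 16 * 2 ^ 37) fun d _ => ?_).trans (by simp)
    rw [← mul_sub, abs_mul]
    refine mul_le_mul ?_ (h ⟨i, hi⟩ d) (abs_nonneg _) (by norm_num)
    exact_mod_cast (ck_K j hj d d.2).2.1
  have e : 2 ^ 64 * eB B j i - ent rows1 j i =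
      ((∑ d : Fin 16, (ent Kt j d : ℝ) * (2 ^ 128 * B ⟨i, hi⟩ d) -
      ∑ d : Fin 16, (ent Kt j d : ℝ) * ent Bt i d) - (780 * 2 ^ 64 * (ent rows1 j i : ℝ) -
      ∑ d : Fin 16, (ent Kt j d : ℝ) * ent Bt i d)) / (780 * 2 ^ 64) := by
    have : ∑ d : Fin 16, (ent Kt j d : ℝ) * (2 ^ 128 * B ⟨i, hi⟩ d) =
        2 ^ 128 * ∑ d : Fin 16, (ent Kt j d : ℝ) * B ⟨i, hi⟩ d := by
      rw [mul_sum]; exact sum_congr rfl fun d _ => by ring
    rw [this, eB, xt_lt _ hi]; ring
  rw [e, abs_div, abs_of_pos (show (0 : ℝ) < 780 * 2 ^ 64 by positivity),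
    div_le_one (by positivity)]
  refine (abs_sub _ _).trans ?_
  linarith

theorem dual_span {B : Matrix (Fin 16) (Fin 16) ℝ} (hd : B.det ≠ 0) (h0 : ∀ i, B i 0 = 1)
    (hG : Bᵀ * B = (mat Gt).map (Int.cast : ℤ → ℝ)) {y : Fin 16 → ℝ} (hy : InD B y)
    (ht : ∑ i, y i = 0) :
    ∃ x : ℕ → ℤ, ∀ i, i < 16 → xt y i = ∑ j ∈ range 15, x j * eB B j i := by
  obtain ⟨w, hw⟩ := hy
  have h1 := dual_scaled hd (mat Ht) 780 (by rw [hG, GH_real]) hw
  have w0 : w 0 = 0 := by
    have := congrFun hw 0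
    simp only [mulVec, dotProduct, transpose_apply, h0, one_mul, ht] at this
    exact_mod_cast this.symm
  refine ⟨fun j => ∑ l : Fin 15, w l.succ * ent Vt l j, fun i hi => ?_⟩
  have h2 := congrFun h1 ⟨i, hi⟩
  have h3 : ∀ c : Fin 16, (mat Ht *ᵥ w) c =
      ∑ j ∈ range 15, (∑ l : Fin 15, w l.succ * ent Vt l j) * ent Kt j c := by
    intro c
    simp only [mulVec, dotProduct, sum_mul]
    rw [Fin.sum_univ_succ, w0, mul_zero, zero_add, sum_comm]
    refine sum_congr rfl fun l _ => ?_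
    simp only [mul_assoc, ← mul_sum]
    rw [(ck_K l l.2 c c.2).1, mul_comm]; rfl
  simp only [h3] at h2
  simp only [eB, xt_lt _ hi]
  rw [show y ⟨i, hi⟩ = ((780 : ℤ) : ℝ) * y ⟨i, hi⟩ / 780 by push_cast; ring, h2]
  simp only [mulVec, dotProduct, Int.cast_sum (s := range 15), Int.cast_mul, mul_sum,
    ← mul_div_assoc, ← sum_div]
  rw [sum_comm]
  refine congrArg (· / (780 : ℝ)) ?_
  exact sum_congr rfl fun j _ => sum_congr rfl fun c _ => by ring

theorem all_killed {e : ℕ → ℕ → ℝ}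
    (he : ∀ j, j < 15 → ∀ i, i < 16 → |2 ^ 64 * e j i - ent rows1 j i| ≤ 1) :
    ∀ key ∈ keys1, Killed e 2562271012454400000000 key := by
  intro key hk
  obtain ⟨t, ht, rfl⟩ := List.getElem_of_mem hk
  rw [← List.getD_eq_getElem _ 0 ht]
  have hl : keys1.length = 20 := by decide +kernel
  rw [hl] at ht
  interval_cases t
  · exact Z0.killed he
  · exact Z1.killed he
  · exact Z2.killed he
  · exact Z3.killed he
  · exact Z4.killed he
  · exact Z5.killed he
  · exact Z6.killed he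
  · exact Z7.killed he
  · exact Z8.killed he
  · exact Z9.killed he
  · exact Z10.killed he
  · exact Z11.killed he
  · exact Z12.killed he
  · exact Z13.killed he
  · exact Z14.killed he
  · exact Z15.killed he
  · exact Z16.killed he
  · exact Z17.killed he
  · exact Z18.killed he
  · exact Z19.killed he

theorem not_dec16 : ∃ B : Matrix (Fin 16) (Fin 16) ℝ, B.det ≠ 0 ∧ ¬ Dec B := by
  obtain ⟨B, ⟨h1, h2⟩, h0, h⟩ := exists_B
  have hd := det_ne h
  have ho : IsOrd B := ⟨hd, h1, h2⟩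
  have hG := gram_eq ho h
  have hD : B.det ^ 2 = ((2562271012454400000000 : ℕ) : ℝ) := by
    have := congrArg det hG
    rw [det_mul, det_transpose, cast_det, det_G] at this
    rw [sq, this]; norm_num
  have hO : ∀ x, InO B x → x ≠ 0 → ∀ i, x i ≠ 0 := fun x hx hx0 =>
    ho.ne_zero (InO.col B 8) (no_subset h) hx hx0
  have hDu : ∀ y, InD B y → y ≠ 0 → ∀ i, y i ≠ 0 := by
    rintro y ⟨w, hw⟩ hy0 i hi
    have h3 := dual_scaled hd (mat Ht) 780 (by rw [hG, GH_real]) hw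
    refine hO _ ⟨_, h3⟩ (fun hc => hy0 ?_) i (by simp [hi])
    funext k
    simpa using congrFun hc k
  refine ⟨B, hd, fun hB => ?_⟩
  obtain ⟨a, z, z', μ, hc⟩ := exists_config (m := 13) ho hO hDu hB
  have s := fun f : ℕ → ℝ => (Fin.sum_univ_eq_sum_range f 16).symm
  have p := fun f : ℕ → ℝ => (Fin.prod_univ_eq_prod_range f 16).symm
  refine level1 (Dn := 2562271012454400000000) (by norm_num) (eB_close h) z1ok lat1 run1
    (all_killed (eB_close h)) (a := xt a) (z := xt z) (z' := xt z') (μ := μ)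
    ⟨fun i hi => ?_, fun i hi => ?_, ?_, ?_, ?_, ?_, ?_, ?_,
      dual_span hd h0 hG hc.zD hc.tr, dual_span hd h0 hG hc.zD' hc.tr'⟩
  · rw [xt_lt _ (mem_range.mp hi)]; exact hc.apos _
  · rw [xt_lt _ (mem_range.mp hi)]; exact hc.zne _
  · rw [s]; simpa only [xt_val] using hc.suma
  · rw [s]; simpa only [xt_val] using hc.sumb
  · rw [s]; simpa only [xt_val] using hc.mean
  · rw [s]; simpa only [xt_val] using hc.var
  · rw [p, ← hD]; simpa only [xt_val] using hc.proda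
  · rw [p, ← hD]; simpa only [xt_val] using hc.prodb

theorem not_dec {n : ℕ} (hn : 16 ≤ n) :
    ¬ ∀ G : Matrix (Fin n) (Fin n) ℝ, G.det ≠ 0 → Dec G := by
  intro h
  obtain ⟨B, h1, h2⟩ := not_dec16
  exact h2 (mono_le hn h B h1)

end Pool.Agent.MP_2877d0_al
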