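import Mathlib

namespace Pool.Agent.MP_2877d0_al

open Matrix

/-- `g` is a product `d o u γ`. -/
def Dec {n : ℕ} (g : Matrix (Fin n) (Fin n) ℝ) : Prop :=
  ∃ (d : Fin n → ℝ) (o u : Matrix (Fin n) (Fin n) ℝ) (γ : Matrix (Fin n) (Fin n) ℤ),
    (∀ i, d i ≠ 0) ∧ oᵀ * o = 1 ∧ (∀ i j, j < i → u i j = 0) ∧ (∀ i, u i i = 1) ∧
      IsUnit γ.det ∧ g = diagonal d * o * u * γ.map (Int.cast : ℤ → ℝ)

theorem det_sq_of_dec {n : ℕ} {d : Fin n → ℝ} {o u : Matrix (Fin n) (Fin n) ℝ}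
    {γ : Matrix (Fin n) (Fin n) ℤ} (ho : oᵀ * o = 1) (hu : ∀ i j, j < i → u i j = 0)
    (hu1 : ∀ i, u i i = 1) :
    (diagonal d * o * u * γ.map (Int.cast : ℤ → ℝ)).det ^ 2 =
      (∏ i, d i) ^ 2 * ((γ.det : ℤ) : ℝ) ^ 2 := by
  have h1 : o.det ^ 2 = 1 := by
    have := congrArg det ho
    rw [det_mul, det_transpose, det_one] at this
    rw [sq]; exact this
  have h2 : u.det = 1 := by
    rw [det_of_isUpperTriangular (M := u) (fun i j h => hu i j h)]
    simp [hu1]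
  have h3 : (γ.map (Int.cast : ℤ → ℝ)).det = ((γ.det : ℤ) : ℝ) := by
    have := RingHom.map_det (Int.castRingHom ℝ) γ
    simpa using this.symm
  rw [det_mul, det_mul, det_mul, det_diagonal, h2, h3]
  calc _ = (∏ i, d i) ^ 2 * o.det ^ 2 * ((γ.det : ℤ) : ℝ) ^ 2 := by ring
    _ = _ := by rw [h1]; ring

theorem sq_eq_zero_of_sum {m : ℕ} (f : Fin m → ℝ) (j : Fin m) (h : ∑ i, f i * f i = 1)
    (hj : f j * f j = 1) (i : Fin m) (hi : i ≠ j) : f i = 0 := by
  have h1 : ∑ k ∈ ({i, j} : Finset (Fin m)), f k * f k ≤ ∑ k, f k * f k :=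
    Finset.sum_le_sum_of_subset_of_nonneg (Finset.subset_univ _)
      (fun k _ _ => mul_self_nonneg _)
  rw [Finset.sum_pair hi] at h1
  have : f i * f i = 0 := by nlinarith [mul_self_nonneg (f i)]
  exact mul_self_eq_zero.mp this

theorem abs_le_one_of_sum {m : ℕ} (f : Fin m → ℝ) (j : Fin m) (h : ∑ i, f i * f i = 1) :
    |f j| ≤ 1 := by
  have h1 : f j * f j ≤ ∑ k, f k * f k :=
    Finset.single_le_sum (f := fun k => f k * f k) (fun k _ => mul_self_nonneg _)
      (Finset.mem_univ j)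
  rw [← sq_le_one_iff_abs_le_one, sq]; linarith

theorem dec_of_succ {n : ℕ} (G : Matrix (Fin (n + 1)) (Fin (n + 1)) ℝ) (h00 : G 0 0 = 1)
    (h0 : ∀ k : Fin n, G 0 k.succ = 0) (h0' : ∀ i : Fin n, G i.succ 0 = 0) (hG : Dec G) :
    Dec (G.submatrix Fin.succ Fin.succ) := by
  obtain ⟨d, o, u, γ, hd, ho, hu, hu1, hγ, hGe⟩ := hG
  have ho' : o * oᵀ = 1 := mul_eq_one_comm.mp ho
  have hγγ : γ * γ⁻¹ = 1 := mul_nonsing_inv γ hγ
  have hγr : γ.map (Int.cast : ℤ → ℝ) * (γ⁻¹).map (Int.cast : ℤ → ℝ) = 1 := by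
    have := congrArg (fun M : Matrix _ _ ℤ => M.map (Int.castRingHom ℝ)) hγγ
    simp only [Matrix.map_mul] at this
    simpa using this
  have hrow : ∑ k, o 0 k * o 0 k = 1 := by
    have := congrFun (congrFun ho' 0) 0
    simpa [mul_apply] using this
  have e1 : ∀ k, d 0 * ∑ m, o 0 m * u m k = ((γ⁻¹ 0 k : ℤ) : ℝ) := by
    intro k
    have h1 : G * (γ⁻¹).map (Int.cast : ℤ → ℝ) = diagonal d * (o * u) := by
      rw [hGe, mul_assoc, hγr, mul_one, mul_assoc]
    have := congrFun (congrFun h1 0) k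
    rw [diagonal_mul, mul_apply, mul_apply, Fin.sum_univ_succ] at this
    simpa [h00, h0] using this.symm
  have e2 : ∀ m, d 0 * ∑ p, u m p * ((γ p 0 : ℤ) : ℝ) = o 0 m := by
    intro m
    have h1 : oᵀ * diagonal (fun i => (d i)⁻¹) * G = u * γ.map (Int.cast : ℤ → ℝ) := by
      rw [hGe]
      have : diagonal (fun i => (d i)⁻¹) * diagonal d = (1 : Matrix (Fin (n + 1)) _ ℝ) := by
        rw [diagonal_mul_diagonal, ← diagonal_one]
        congr 1; funext i; exact inv_mul_cancel₀ (hd i)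
      calc _ = oᵀ * ((diagonal (fun i => (d i)⁻¹) * diagonal d) * o) *
            (u * γ.map (Int.cast : ℤ → ℝ)) := by simp only [Matrix.mul_assoc]
        _ = _ := by rw [this, one_mul, ho, one_mul]
    have := congrFun (congrFun h1 m) 0
    rw [mul_apply, mul_apply, Fin.sum_univ_succ] at this
    simp only [h00, h0', mul_zero, Finset.sum_const_zero, add_zero, mul_one, mul_diagonal,
      transpose_apply, map_apply] at this
    rw [← this]; field_simp [hd 0]
  have hne : (Finset.univ.filter fun k => o 0 k ≠ 0).Nonempty := by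
    by_contra hc
    rw [Finset.not_nonempty_iff_eq_empty, Finset.filter_eq_empty_iff] at hc
    have : ∑ k, o 0 k * o 0 k = 0 :=
      Finset.sum_eq_zero fun k hk => by rw [not_not.mp (hc hk), mul_zero]
    linarith
  obtain ⟨j, hj, hjm⟩ := Finset.exists_min_image _ id hne
  have hj0 : o 0 j ≠ 0 := (Finset.mem_filter.mp hj).2
  have a1 : d 0 * o 0 j = ((γ⁻¹ 0 j : ℤ) : ℝ) := by
    rw [← e1 j, Finset.sum_eq_single j, hu1, mul_one]
    · intro m _ hm
      rcases lt_or_gt_of_ne hm with h | h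
      · have : o 0 m = 0 := by
          by_contra hc
          exact absurd (hjm m (Finset.mem_filter.mpr ⟨Finset.mem_univ _, hc⟩)) (not_le.mpr h)
        rw [this, zero_mul]
      · rw [hu m j h, mul_zero]
    · simp
  have hne2 : (Finset.univ.filter fun p => γ p 0 ≠ 0).Nonempty := by
    by_contra hc
    rw [Finset.not_nonempty_iff_eq_empty, Finset.filter_eq_empty_iff] at hc
    apply hj0
    rw [← e2 j, Finset.sum_eq_zero, mul_zero]
    intro p hp
    rw [not_not.mp (hc hp)]; simp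
  obtain ⟨l, hl, hlm⟩ := Finset.exists_max_image _ id hne2
  have hl0 : γ l 0 ≠ 0 := (Finset.mem_filter.mp hl).2
  have a2 : d 0 * ((γ l 0 : ℤ) : ℝ) = o 0 l := by
    rw [← e2 l, Finset.sum_eq_single l, hu1, one_mul]
    · intro m _ hm
      rcases lt_or_gt_of_ne hm with h | h
      · rw [hu l m h, zero_mul]
      · have : γ m 0 = 0 := by
          by_contra hc
          exact absurd (hlm m (Finset.mem_filter.mpr ⟨Finset.mem_univ _, hc⟩)) (not_le.mpr h)
        rw [this]; simp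
    · simp
  have b1 : (1 : ℝ) ≤ |d 0| * |o 0 j| := by
    rw [← abs_mul, a1]
    have : γ⁻¹ 0 j ≠ 0 := by
      intro h; rw [h] at a1; simp [hd 0, hj0] at a1
    exact_mod_cast Int.one_le_abs this
  have b2 : (1 : ℝ) ≤ |((γ l 0 : ℤ) : ℝ)| := by exact_mod_cast Int.one_le_abs hl0
  have b3 : |d 0| * |((γ l 0 : ℤ) : ℝ)| = |o 0 l| := by rw [← abs_mul, a2]
  have b4 := abs_le_one_of_sum (fun k => o 0 k) j hrow
  have b5 := abs_le_one_of_sum (fun k => o 0 k) l hrow
  have hd0 : 0 < |d 0| := abs_pos.mpr (hd 0)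
  have c1 : |d 0| ≤ 1 := by nlinarith
  have c2 : |o 0 j| = 1 := by nlinarith [abs_nonneg (o 0 j)]
  have c3 : |d 0| = 1 := by nlinarith
  have c2' : o 0 j * o 0 j = 1 := by rw [← abs_mul_abs_self, c2, mul_one]
  have c3' : d 0 * d 0 = 1 := by rw [← abs_mul_abs_self, c3, mul_one]
  have hz : ∀ m, m ≠ j → o 0 m = 0 := sq_eq_zero_of_sum (fun k => o 0 k) j hrow c2'
  have hlj : l = j := by
    by_contra hc
    rw [hz l hc] at b3; simp only [abs_zero] at b3; nlinarith
  subst hlj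
  have hs : ((γ l 0 : ℤ) : ℝ) * ((γ l 0 : ℤ) : ℝ) = 1 := by
    calc _ = (d 0 * d 0) * (((γ l 0 : ℤ) : ℝ) * ((γ l 0 : ℤ) : ℝ)) := by rw [c3', one_mul]
      _ = o 0 l * o 0 l := by rw [← a2]; ring
      _ = 1 := c2'
  have hcol : ∀ i : Fin n, o i.succ l = 0 := by
    intro i
    have h1 : ∑ k, o k l * o k l = 1 := by
      have := congrFun (congrFun ho l) l
      simpa [mul_apply] using this
    exact sq_eq_zero_of_sum (fun k => o k l) 0 h1 c2' _ (Fin.succ_ne_zero i)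
  obtain ⟨o', ho'e⟩ : ∃ o' : Matrix (Fin n) (Fin n) ℝ, o' = o.submatrix Fin.succ l.succAbove :=
    ⟨_, rfl⟩
  obtain ⟨u', hu'e⟩ : ∃ u' : Matrix (Fin n) (Fin n) ℝ, u' = u.submatrix l.succAbove l.succAbove :=
    ⟨_, rfl⟩
  obtain ⟨γ', hγ'e⟩ : ∃ γ' : Matrix (Fin n) (Fin n) ℤ, γ' = Matrix.of fun p k =>
      γ (l.succAbove p) k.succ - γ l 0 * γ (l.succAbove p) 0 * γ l k.succ := ⟨_, rfl⟩
  have p1 : o'ᵀ * o' = 1 := by
    ext k k'
    have := congrFun (congrFun ho (l.succAbove k)) (l.succAbove k')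
    rw [mul_apply, Fin.sum_univ_succ] at this
    simp only [transpose_apply, hz _ (Fin.succAbove_ne l k), zero_mul, zero_add, one_apply,
      Fin.succAbove_right_inj] at this
    simpa [ho'e, mul_apply, one_apply] using this
  have p2 : ∀ i j, j < i → u' i j = 0 := fun i j h => by
    rw [hu'e]; exact hu _ _ (Fin.succAbove_lt_succAbove_iff.mpr h)
  have p3 : ∀ i, u' i i = 1 := fun i => by rw [hu'e]; exact hu1 _
  have p4 : G.submatrix Fin.succ Fin.succ =
      diagonal (fun i : Fin n => d i.succ) * o' * u' * γ'.map (Int.cast : ℤ → ℝ) := by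
    have q : ∀ m k, (u * γ.map (Int.cast : ℤ → ℝ)) (l.succAbove m) (Fin.succ k) =
        (u' * γ'.map (Int.cast : ℤ → ℝ)) m k := by
      intro m k
      have h1 := e2 (l.succAbove m)
      rw [hz _ (Fin.succAbove_ne l m), Fin.sum_univ_succAbove _ l] at h1
      have h2 := (mul_eq_zero.mp h1).resolve_left (hd 0)
      have h3 : u (l.succAbove m) l = -((γ l 0 : ℤ) : ℝ) *
          ∑ p, u (l.succAbove m) (l.succAbove p) * ((γ (l.succAbove p) 0 : ℤ) : ℝ) := by
        linear_combination ((γ l 0 : ℤ) : ℝ) * h2 - u (l.succAbove m) l * hs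
      rw [mul_apply, mul_apply, Fin.sum_univ_succAbove _ l, h3]
      simp only [map_apply, hu'e, hγ'e, submatrix_apply, of_apply, Int.cast_sub, Int.cast_mul,
        Finset.mul_sum, Finset.sum_mul, ← Finset.sum_add_distrib]
      exact Finset.sum_congr rfl fun p _ => by ring
    ext i k
    rw [submatrix_apply, hGe, mul_assoc, mul_assoc, diagonal_mul, mul_assoc, mul_assoc,
      diagonal_mul, mul_apply, mul_apply, Fin.sum_univ_succAbove _ l, hcol, zero_mul, zero_add]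
    congr 1
    exact Finset.sum_congr rfl fun m _ => by rw [q, ho'e]; rfl
  refine ⟨fun i => d i.succ, o', u', γ', fun i => hd _, p1, p2, p3, ?_, p4⟩
  have d1 := det_sq_of_dec (d := d) (γ := γ) ho hu hu1
  have d2 := det_sq_of_dec (d := fun i : Fin n => d i.succ) (γ := γ') p1 p2 p3
  rw [← hGe] at d1
  rw [← p4] at d2
  have d3 : G.det = (G.submatrix Fin.succ Fin.succ).det := by
    rw [det_succ_row_zero, Fin.sum_univ_succ]
    simp [h00, h0]
  have d4 : ((γ.det : ℤ) : ℝ) ^ 2 = 1 := by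
    rcases Int.isUnit_iff.mp hγ with h | h <;> rw [h] <;> norm_num
  have d5 : (∏ i : Fin n, d i.succ) ^ 2 ≠ 0 :=
    pow_ne_zero _ (Finset.prod_ne_zero_iff.mpr fun i _ => hd _)
  rw [d3, d2, d4, Fin.prod_univ_succ, mul_pow, sq (d 0), c3', one_mul] at d1
  have d6 : ((γ'.det : ℤ) : ℝ) ^ 2 = 1 := mul_left_cancel₀ d5 d1
  have d7 : γ'.det ^ 2 = 1 := by exact_mod_cast d6
  exact IsUnit.of_pow_eq_one d7 (by norm_num)

theorem mono_succ {n : ℕ} (h : ∀ G : Matrix (Fin (n + 1)) (Fin (n + 1)) ℝ, G.det ≠ 0 → Dec G)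
    (g : Matrix (Fin n) (Fin n) ℝ) (hg : g.det ≠ 0) : Dec g := by
  let G : Matrix (Fin (n + 1)) (Fin (n + 1)) ℝ := Matrix.of fun i k =>
    Fin.cases (Fin.cases 1 (fun _ => 0) k) (fun i' => Fin.cases 0 (fun k' => g i' k') k) i
  have e : G.submatrix Fin.succ Fin.succ = g := by ext i k; simp [G]
  have d3 : G.det = g.det := by
    rw [det_succ_row_zero, Fin.sum_univ_succ, ← e]
    simp [G]
  rw [← e]
  exact dec_of_succ G (by simp [G]) (by simp [G]) (by simp [G]) (h G (d3 ▸ hg))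

theorem mono_le {m n : ℕ} (hmn : m ≤ n)
    (h : ∀ G : Matrix (Fin n) (Fin n) ℝ, G.det ≠ 0 → Dec G) :
    ∀ g : Matrix (Fin m) (Fin m) ℝ, g.det ≠ 0 → Dec g := by
  induction n, hmn using Nat.le_induction with
  | base => exact h
  | succ n _ ih => exact ih (mono_succ h)

open Finset in
theorem dec_iff {n : ℕ} : (∀ G : Matrix (Fin n) (Fin n) ℝ, G.det ≠ 0 → Dec G) ↔
    ∀ g : GL (Fin n) ℝ, ∃ (d o u : GL (Fin n) ℝ) (γ : GL (Fin n) ℤ),
      (d : Matrix (Fin n) (Fin n) ℝ).IsDiag ∧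
      (o : Matrix (Fin n) (Fin n) ℝ) ∈ Matrix.orthogonalGroup (Fin n) ℝ ∧
      ((∀ i j, j < i → (u : Matrix (Fin n) (Fin n) ℝ) i j = 0) ∧
        ∀ i, (u : Matrix (Fin n) (Fin n) ℝ) i i = 1) ∧
      g = d * o * u * Matrix.GeneralLinearGroup.map (Int.castRingHom ℝ) γ := by
  constructor
  · intro h g
    obtain ⟨d, o, u, γ, hd, ho, hu, hu1, hγ, hg⟩ := h g (Matrix.GeneralLinearGroup.det_ne_zero g)
    have d1 : (diagonal d).det ≠ 0 := by
      rw [det_diagonal]; exact prod_ne_zero_iff.mpr fun i _ => hd i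
    have d2 : o.det ≠ 0 := by
      intro hc
      have := congrArg det ho
      rw [det_mul, hc, mul_zero, det_one] at this
      exact zero_ne_one this
    have d3 : u.det ≠ 0 := by
      rw [det_of_isUpperTriangular (M := u) (fun i j h => hu i j h)]
      simp [hu1]
    refine ⟨Matrix.GeneralLinearGroup.mkOfDetNeZero _ d1,
      Matrix.GeneralLinearGroup.mkOfDetNeZero _ d2, Matrix.GeneralLinearGroup.mkOfDetNeZero _ d3,
      Matrix.GeneralLinearGroup.mk'' γ hγ, isDiag_diagonal d, ?_, ⟨hu, hu1⟩, ?_⟩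
    · exact (mem_orthogonalGroup_iff' (Fin n) ℝ).mpr ho
    · exact Units.ext hg
  · intro h G hG
    obtain ⟨d, o, u, γ, hd, ho, ⟨hu, hu1⟩, hg⟩ := h (Matrix.GeneralLinearGroup.mkOfDetNeZero G hG)
    have e := hd.diagonal_diag
    refine ⟨(d : Matrix (Fin n) (Fin n) ℝ).diag, o, u, γ, fun i hi => ?_,
      (mem_orthogonalGroup_iff' (Fin n) ℝ).mp ho, hu, hu1, ?_, ?_⟩
    · apply Matrix.GeneralLinearGroup.det_ne_zero d
      rw [← e, det_diagonal]
      exact prod_eq_zero (mem_univ i) hi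
    · exact (isUnit_iff_isUnit_det _).mp γ.isUnit
    · rw [e]; exact congrArg Units.val hg

end Pool.Agent.MP_2877d0_al
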