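import Pool.Agent.MP_2877d0_al.Mono

namespace Pool.Agent.MP_2877d0_al

open Matrix Polynomial

variable {n : ℕ}

/-- integer combinations of the columns -/
def InO (B : Matrix (Fin n) (Fin n) ℝ) (x : Fin n → ℝ) : Prop :=
  ∃ v : Fin n → ℤ, x = B *ᵥ (fun j => (v j : ℝ))

/-- the dual lattice -/
def InD (B : Matrix (Fin n) (Fin n) ℝ) (y : Fin n → ℝ) : Prop :=
  ∃ w : Fin n → ℤ, Bᵀ *ᵥ y = fun j => (w j : ℝ)

structure IsOrd (B : Matrix (Fin n) (Fin n) ℝ) : Prop where
  det_ne : B.det ≠ 0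
  one : InO B 1
  mul : ∀ x y, InO B x → InO B y → InO B (x * y)

theorem InO.add {B : Matrix (Fin n) (Fin n) ℝ} {x y : Fin n → ℝ} (hx : InO B x) (hy : InO B y) :
    InO B (x + y) := by
  obtain ⟨v, rfl⟩ := hx
  obtain ⟨w, rfl⟩ := hy
  refine ⟨v + w, ?_⟩
  rw [← mulVec_add]; congr 1; funext j; simp

theorem InO.zsmul {B : Matrix (Fin n) (Fin n) ℝ} {x : Fin n → ℝ} (c : ℤ) (hx : InO B x) :
    InO B (fun i => (c : ℝ) * x i) := by
  obtain ⟨v, rfl⟩ := hx
  refine ⟨fun j => c * v j, ?_⟩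
  funext i
  simp only [mulVec, dotProduct, Finset.mul_sum, Int.cast_mul]
  exact Finset.sum_congr rfl fun j _ => by ring

theorem InO.col (B : Matrix (Fin n) (Fin n) ℝ) (j : Fin n) : InO B (fun i => B i j) := by
  refine ⟨Pi.single j 1, ?_⟩
  funext i
  simp [mulVec, dotProduct, Pi.single_apply]

theorem InO.zero (B : Matrix (Fin n) (Fin n) ℝ) : InO B 0 := by
  refine ⟨0, ?_⟩
  funext i; simp [mulVec, dotProduct]

theorem IsOrd.exists_mat {B : Matrix (Fin n) (Fin n) ℝ} (h : IsOrd B) {x : Fin n → ℝ}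
    (hx : InO B x) : ∃ M : Matrix (Fin n) (Fin n) ℤ,
      diagonal x * B = B * M.map (Int.cast : ℤ → ℝ) := by
  choose v hv using fun j => h.mul _ _ hx (InO.col B j)
  refine ⟨Matrix.of fun k j => v j k, ?_⟩
  ext i j
  have := congrFun (hv j) i
  rw [diagonal_mul, mul_apply]
  simpa [mulVec, dotProduct] using this

theorem IsOrd.trace_int {B : Matrix (Fin n) (Fin n) ℝ} (h : IsOrd B) {x : Fin n → ℝ}
    (hx : InO B x) : ∃ t : ℤ, ∑ i, x i = t := by
  obtain ⟨M, hM⟩ := h.exists_mat hx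
  refine ⟨M.trace, ?_⟩
  have hu : IsUnit B.det := isUnit_iff_ne_zero.mpr h.det_ne
  have e : diagonal x = B * M.map (Int.cast : ℤ → ℝ) * B⁻¹ := by
    rw [← hM, mul_assoc, mul_nonsing_inv _ hu, mul_one]
  have := congrArg trace e
  rw [trace_diagonal, trace_mul_cycle, nonsing_inv_mul _ hu, one_mul] at this
  rw [this]; simp [trace]

theorem cast_det (M : Matrix (Fin n) (Fin n) ℤ) :
    (M.map (Int.cast : ℤ → ℝ)).det = ((M.det : ℤ) : ℝ) := by
  have := RingHom.map_det (Int.castRingHom ℝ) M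
  simpa using this.symm

theorem IsOrd.norm_int {B : Matrix (Fin n) (Fin n) ℝ} (h : IsOrd B) {x : Fin n → ℝ}
    (hx : InO B x) : ∃ t : ℤ, ∏ i, x i = t := by
  obtain ⟨M, hM⟩ := h.exists_mat hx
  refine ⟨M.det, ?_⟩
  have := congrArg det hM
  rw [det_mul, det_mul, det_diagonal, cast_det, mul_comm] at this
  exact mul_left_cancel₀ h.det_ne this

/-- the order as a subalgebra -/
def IsOrd.alg {B : Matrix (Fin n) (Fin n) ℝ} (h : IsOrd B) : Subalgebra ℤ (Fin n → ℝ) where
  carrier := {x | InO B x}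
  mul_mem' := fun hx hy => h.mul _ _ hx hy
  add_mem' := fun hx hy => hx.add hy
  algebraMap_mem' := fun c => by
    have e : algebraMap ℤ (Fin n → ℝ) c = fun i => (c : ℝ) * (1 : Fin n → ℝ) i := by
      funext i; simp
    rw [e]
    exact h.one.zsmul c

theorem IsOrd.integral {B : Matrix (Fin n) (Fin n) ℝ} (h : IsOrd B) {x : Fin n → ℝ}
    (hx : InO B x) : IsIntegral ℤ x := by
  refine IsIntegral.of_mem_of_fg h.alg ?_ x hx
  refine ⟨Finset.univ.image fun j => (fun i => B i j), ?_⟩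
  apply le_antisymm
  · rw [Submodule.span_le]
    intro y hy
    simp only [Finset.coe_image, Finset.coe_univ, Set.image_univ] at hy
    obtain ⟨j, rfl⟩ := hy
    exact InO.col B j
  · rintro y ⟨v, rfl⟩
    have : B *ᵥ (fun j => (v j : ℝ)) = ∑ j, v j • (fun i => B i j) := by
      funext i; simp [mulVec, dotProduct, mul_comm]
    rw [this]
    refine Submodule.sum_mem _ fun j _ => Submodule.smul_mem _ _ (Submodule.subset_span ?_)
    simp

theorem IsOrd.ne_zero {B : Matrix (Fin n) (Fin n) ℝ} (h : IsOrd B) {η : Fin n → ℝ}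
    (hη : InO B η)
    (hS : ∀ S : Finset (Fin n), S.Nonempty → S ≠ Finset.univ → ∀ t : ℤ, ∑ i ∈ S, η i ≠ t)
    {x : Fin n → ℝ} (hx : InO B x) (hx0 : x ≠ 0) (i : Fin n) : x i ≠ 0 := by
  intro hi
  obtain ⟨p, hp, hpx⟩ := h.integral hx
  obtain ⟨q, hq, hq0⟩ := exists_eq_pow_rootMultiplicity_mul_and_not_dvd p hp.ne_zero 0
  rw [map_zero, sub_zero, X_dvd_iff] at hq0
  have hy : InO B (aeval x q) := by
    have : aeval x q ∈ h.alg := by
      have := aeval_mem_adjoin_singleton ℤ x (p := q)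
      exact Algebra.adjoin_le (Set.singleton_subset_iff.mpr (show x ∈ h.alg from hx)) this
    exact this
  have hyk : ∀ k, aeval x q k = if x k = 0 then (q.coeff 0 : ℝ) else 0 := by
    intro k
    have e1 : aeval x q k = aeval (x k) q :=
      (aeval_algHom_apply (Pi.evalAlgHom ℤ (fun _ => ℝ) k) x q).symm
    rw [e1]
    split_ifs with hk
    · rw [hk, aeval_def, eval₂_at_zero]; simp
    · have e2 : aeval (x k) p = 0 := by
        have := aeval_algHom_apply (Pi.evalAlgHom ℤ (fun _ => ℝ) k) x p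
        rw [aeval_def x p, hpx] at this
        simpa using this
      rw [hq] at e2
      simpa [hk] using e2
  obtain ⟨t, ht⟩ := h.trace_int (h.mul _ _ hy hη)
  obtain ⟨S, hSe⟩ : ∃ S : Finset (Fin n), S = Finset.univ.filter fun k => x k = 0 := ⟨_, rfl⟩
  have e3 : (q.coeff 0 : ℝ) * ∑ k ∈ S, η k = t := by
    rw [← ht, hSe, Finset.mul_sum, Finset.sum_filter]
    exact Finset.sum_congr rfl fun k _ => by
      rw [Pi.mul_apply, hyk]; split_ifs <;> simp
  have hc : (q.coeff 0 : ℝ) ≠ 0 := by exact_mod_cast hq0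
  have e4 : ∑ k ∈ S, η k = algebraMap ℚ ℝ ((t : ℚ) / (q.coeff 0 : ℚ)) := by
    simp only [eq_ratCast, Rat.cast_div, Rat.cast_intCast]
    rw [eq_div_iff hc, ← e3, mul_comm]
  have e5 : IsIntegral ℤ (∑ k ∈ S, η k) :=
    IsIntegral.sum _ fun k _ => (h.integral hη).map (Pi.evalAlgHom ℤ (fun _ => ℝ) k)
  rw [e4, isIntegral_algebraMap_iff (algebraMap ℚ ℝ).injective] at e5
  obtain ⟨s, hs⟩ := IsIntegrallyClosed.isIntegral_iff.mp e5
  refine hS S ⟨i, by simp [hSe, hi]⟩ ?_ s ?_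
  · intro hu
    apply hx0
    funext k
    have : k ∈ S := hu ▸ Finset.mem_univ k
    simpa [hSe] using this
  · rw [e4, ← hs]; simp

theorem IsOrd.mul_dual {B : Matrix (Fin n) (Fin n) ℝ} (h : IsOrd B) {x y : Fin n → ℝ}
    (hx : InO B x) (hy : InD B y) : InD B (x * y) := by
  obtain ⟨M, hM⟩ := h.exists_mat hx
  obtain ⟨w, hw⟩ := hy
  refine ⟨Mᵀ *ᵥ w, ?_⟩
  have e1 : x * y = diagonal x *ᵥ y := by funext i; simp [mulVec_diagonal]
  have e2 : Bᵀ * diagonal x = (M.map (Int.cast : ℤ → ℝ))ᵀ * Bᵀ := by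
    rw [← transpose_mul, ← hM, transpose_mul, diagonal_transpose]
  rw [e1, mulVec_mulVec, e2, ← mulVec_mulVec, hw]
  funext j; simp [mulVec, dotProduct]

theorem IsOrd.norm_dual {B : Matrix (Fin n) (Fin n) ℝ} (h : IsOrd B) {y : Fin n → ℝ}
    (hy : InD B y) : ∃ t : ℤ, B.det ^ 2 * ∏ i, y i = t := by
  choose w hw using fun k => h.mul_dual (InO.col B k) hy
  refine ⟨(Matrix.of fun j k => w k j).det, ?_⟩
  have e : Bᵀ * diagonal y * B = (Matrix.of fun j k => w k j).map (Int.cast : ℤ → ℝ) := by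
    ext j k
    have := congrFun (hw k) j
    simp only [mulVec, dotProduct, transpose_apply, Pi.mul_apply] at this
    rw [mul_apply, map_apply, of_apply, ← this]
    exact Finset.sum_congr rfl fun i _ => by rw [mul_diagonal, transpose_apply]; ring
  rw [← cast_det, ← e, det_mul, det_mul, det_transpose, det_diagonal]; ring

theorem dual_scaled {B : Matrix (Fin n) (Fin n) ℝ} (hB : B.det ≠ 0)
    (H : Matrix (Fin n) (Fin n) ℤ) (e : ℤ)
    (hH : Bᵀ * B * H.map (Int.cast : ℤ → ℝ) = (e : ℝ) • (1 : Matrix (Fin n) (Fin n) ℝ))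
    {y : Fin n → ℝ} {w : Fin n → ℤ} (hw : Bᵀ *ᵥ y = fun j => (w j : ℝ)) :
    (fun i => (e : ℝ) * y i) = B *ᵥ (fun j => ((H *ᵥ w) j : ℝ)) := by
  have hu : IsUnit Bᵀ.det := by rw [det_transpose]; exact isUnit_iff_ne_zero.mpr hB
  have e1 : (fun j => ((H *ᵥ w) j : ℝ)) = H.map (Int.cast : ℤ → ℝ) *ᵥ (fun j => (w j : ℝ)) := by
    funext j; simp [mulVec, dotProduct]
  have e2 : Bᵀ *ᵥ (fun i => (e : ℝ) * y i) = Bᵀ *ᵥ (B *ᵥ (fun j => ((H *ᵥ w) j : ℝ))) := by
    rw [e1, mulVec_mulVec, mulVec_mulVec, hH, ← hw, smul_mulVec, one_mulVec, ← mulVec_smul]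
    rfl
  have := congrArg (fun v => Bᵀ⁻¹ *ᵥ v) e2
  simpa only [mulVec_mulVec, ← Matrix.mul_assoc, nonsing_inv_mul _ hu, one_mulVec,
    Matrix.one_mul] using this

/-- The configuration extracted from a decomposition. -/
structure Config (B : Matrix (Fin n) (Fin n) ℝ) (a z z' : Fin n → ℝ) (μ : ℝ) : Prop where
  apos : ∀ i, 0 < a i
  zne : ∀ i, z i ≠ 0
  suma : ∑ i, a i = 1
  sumb : ∑ i, z i ^ 2 / a i = 1
  zD : InD B z
  zD' : InD B z'
  tr : ∑ i, z i = 0
  tr' : ∑ i, z' i = 0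
  mean : ∑ i, a i * (z' i / z i - μ) = 0
  var : ∑ i, a i * (z' i / z i - μ) ^ 2 = 1
  proda : 1 ≤ B.det ^ 2 * ∏ i, a i
  prodb : 1 ≤ B.det ^ 2 * ∏ i, z i ^ 2 / a i

theorem one_le_sq_of_int {r : ℝ} {t : ℤ} (h : r = t) (hr : r ≠ 0) : 1 ≤ r ^ 2 := by
  subst h
  have : t ≠ 0 := by exact_mod_cast hr
  have h1 : 1 ≤ t ^ 2 := by
    have := Int.one_le_abs this
    nlinarith [sq_abs t]
  exact_mod_cast h1

theorem exists_config {m : ℕ} {B : Matrix (Fin (m + 3)) (Fin (m + 3)) ℝ} (h : IsOrd B)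
    (hO : ∀ x, InO B x → x ≠ 0 → ∀ i, x i ≠ 0) (hD : ∀ y, InD B y → y ≠ 0 → ∀ i, y i ≠ 0)
    (hB : Dec B) : ∃ a z z' μ, Config B a z z' μ := by
  obtain ⟨d, o, u, γ, hd, ho, hu, hu1, hγ, hBe⟩ := hB
  have hγγ : γ * γ⁻¹ = 1 := mul_nonsing_inv γ hγ
  have hγr : γ.map (Int.cast : ℤ → ℝ) * (γ⁻¹).map (Int.cast : ℤ → ℝ) = 1 := by
    have := congrArg (fun M : Matrix _ _ ℤ => M.map (Int.castRingHom ℝ)) hγγ
    simp only [Matrix.map_mul] at this
    simpa using this
  have h1 : B * (γ⁻¹).map (Int.cast : ℤ → ℝ) = diagonal d * (o * u) := by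
    rw [hBe, mul_assoc, hγr, mul_one, mul_assoc]
  have hcol : ∀ k, InO B (fun i => d i * (o * u) i k) := by
    intro k
    refine ⟨fun j => γ⁻¹ j k, ?_⟩
    funext i
    have := congrFun (congrFun h1 i) k
    rw [diagonal_mul, mul_apply] at this
    rw [← this]; simp [mulVec, dotProduct]
  have hoo : ∀ k l, ∑ i, o i k * o i l = if k = l then 1 else 0 := by
    intro k l
    have := congrFun (congrFun ho k) l
    simpa [mul_apply, one_apply] using this
  have c0 : ∀ i, (o * u) i 0 = o i 0 := by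
    intro i
    rw [mul_apply, Finset.sum_eq_single 0, hu1, mul_one]
    · intro b _ hb; rw [hu b 0 (Fin.pos_of_ne_zero hb), mul_zero]
    · simp
  have c1 : ∀ i, (o * u) i 1 = o i 0 * u 0 1 + o i 1 := by
    intro i
    rw [mul_apply, Fin.sum_univ_succ, Fin.sum_univ_succ, Finset.sum_eq_zero]
    · simp [hu1]
    · intro b _
      rw [hu _ 1 (by rw [Fin.lt_def]; simp), mul_zero]
  obtain ⟨L, hL⟩ : ∃ L : Fin (m + 3), L = Fin.last (m + 2) := ⟨_, rfl⟩
  have hL0 : (0 : Fin (m + 3)) ≠ L := by rw [hL]; intro hc; have := congrArg Fin.val hc; simp at this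
  have hL1 : (1 : Fin (m + 3)) ≠ L := by rw [hL]; intro hc; have := congrArg Fin.val hc; simp at this
  have h01 : (0 : Fin (m + 3)) ≠ 1 := by intro hc; have := congrArg Fin.val hc; simp at this
  have hy : InD B (fun i => o i L / d i) := by
    refine ⟨fun j => γ L j, ?_⟩
    have e1 : (diagonal d)ᵀ *ᵥ (fun i => o i L / d i) = o *ᵥ Pi.single L 1 := by
      funext i
      rw [diagonal_transpose, mulVec_diagonal, mulVec_single_one]
      field_simp [hd i]; rfl
    have e2 : uᵀ *ᵥ Pi.single L 1 = Pi.single L 1 := by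
      funext i
      rw [mulVec_single_one]
      by_cases hi : i = L
      · subst hi; simp [hu1]
      · have : i < L := by rw [hL] at hi ⊢; exact Fin.lt_last_iff_ne_last.mpr hi
        simp [hi, hu L i this]
    rw [hBe, transpose_mul, transpose_mul, transpose_mul, ← mulVec_mulVec, ← mulVec_mulVec,
      ← mulVec_mulVec, e1, mulVec_mulVec _ oᵀ o, ho, one_mulVec, e2, mulVec_single_one]
    funext j; simp
  have hx : InO B (fun i => d i * o i 0) := by simpa only [c0] using hcol 0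
  have hx2 : InO B (fun i => d i * (o i 0 * u 0 1 + o i 1)) := by simpa only [c1] using hcol 1
  have hx0 : ∀ i, d i * o i 0 ≠ 0 := by
    refine hO _ hx fun hc => ?_
    have := hoo 0 0
    rw [if_pos rfl, Finset.sum_eq_zero] at this
    · exact zero_ne_one this
    · intro i _
      have := (mul_eq_zero.mp (congrFun hc i)).resolve_left (hd i)
      rw [this, mul_zero]
  have hy0 : ∀ i, o i L / d i ≠ 0 := by
    refine hD _ hy fun hc => ?_
    have := hoo L L
    rw [if_pos rfl, Finset.sum_eq_zero] at this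
    · exact zero_ne_one this
    · intro i _
      have := (div_eq_zero_iff.mp (congrFun hc i)).resolve_right (hd i)
      rw [this, mul_zero]
  have ho0 : ∀ i, o i 0 ≠ 0 := fun i => right_ne_zero_of_mul (hx0 i)
  have hoL : ∀ i, o i L ≠ 0 := fun i => fun hc => hy0 i (by rw [hc, zero_div])
  have hdet : B.det ^ 2 = (∏ i, d i) ^ 2 := by
    have d1 := det_sq_of_dec (d := d) (γ := γ) ho hu hu1
    have d4 : ((γ.det : ℤ) : ℝ) ^ 2 = 1 := by
      rcases Int.isUnit_iff.mp hγ with h | h <;> rw [h] <;> norm_num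
    rw [← hBe, d4, mul_one] at d1; exact d1
  have hz := h.mul_dual hx hy
  have hz' := h.mul_dual hx2 hy
  have ez : ((fun i => d i * o i 0) * fun i => o i L / d i) = fun i => o i 0 * o i L := by
    funext i; simp only [Pi.mul_apply]; field_simp [hd i]
  have ez' : ((fun i => d i * (o i 0 * u 0 1 + o i 1)) * fun i => o i L / d i) =
      fun i => (o i 0 * u 0 1 + o i 1) * o i L := by
    funext i; simp only [Pi.mul_apply]; field_simp [hd i]
  rw [ez] at hz
  rw [ez'] at hz'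
  have eb : ∀ i, (o i 0 * o i L) ^ 2 / o i 0 ^ 2 = o i L ^ 2 := fun i => by
    field_simp [ho0 i]
  have ev : ∀ i, (o i 0 * u 0 1 + o i 1) * o i L / (o i 0 * o i L) - u 0 1 = o i 1 / o i 0 :=
    fun i => by field_simp [ho0 i, hoL i]; ring
  refine ⟨fun i => o i 0 ^ 2, fun i => o i 0 * o i L,
    fun i => (o i 0 * u 0 1 + o i 1) * o i L, u 0 1,
    ⟨fun i => by have := ho0 i; positivity, fun i => mul_ne_zero (ho0 i) (hoL i), ?_, ?_, hz, hz',
      ?_, ?_, ?_, ?_, ?_, ?_⟩⟩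
  · simpa [sq] using hoo 0 0
  · simp only [eb]; simpa [sq] using hoo L L
  · simpa [hL0] using hoo 0 L
  · have e1 := hoo 0 L
    have e2 := hoo 1 L
    rw [if_neg hL0] at e1
    rw [if_neg hL1] at e2
    calc _ = u 0 1 * ∑ i, o i 0 * o i L + ∑ i, o i 1 * o i L := by
          rw [Finset.mul_sum, ← Finset.sum_add_distrib]
          exact Finset.sum_congr rfl fun i _ => by ring
      _ = 0 := by rw [e1, e2]; ring
  · simp only [ev]
    have e1 := hoo 0 1
    rw [if_neg h01] at e1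
    rw [← e1]
    exact Finset.sum_congr rfl fun i _ => by field_simp [ho0 i]
  · simp only [ev]
    have e1 := hoo 1 1
    rw [if_pos rfl] at e1
    rw [← e1]
    exact Finset.sum_congr rfl fun i _ => by field_simp [ho0 i]
  · obtain ⟨t, ht⟩ := h.norm_int hx
    have e1 := one_le_sq_of_int ht (Finset.prod_ne_zero_iff.mpr fun i _ => hx0 i)
    rw [hdet, Finset.prod_pow, ← mul_pow, ← Finset.prod_mul_distrib]
    exact e1
  · obtain ⟨t, ht⟩ := h.norm_dual hy
    have hdp : ∏ i, d i ≠ 0 := Finset.prod_ne_zero_iff.mpr fun i _ => hd i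
    have e0 : B.det ^ 2 * ∏ i, o i L / d i = (∏ i, d i) * ∏ i, o i L := by
      rw [hdet, Finset.prod_div_distrib]; field_simp
    rw [e0] at ht
    have e1 := one_le_sq_of_int ht
      (mul_ne_zero hdp (Finset.prod_ne_zero_iff.mpr fun i _ => hoL i))
    simp only [eb]
    rw [hdet, Finset.prod_pow, ← mul_pow]
    exact e1

end Pool.Agent.MP_2877d0_al
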